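import Pool.Agent.H314.Dir.Defs

set_option autoImplicit false
open MeasureTheory Filter Topology Set Metric

namespace Pool.Agent.H314.Dir

variable {d : ℕ}

theorem line_deriv {u : Eu d → ℝ} {x v : Eu d} (hu : ContDiffAt ℝ 2 u x) :
    ∀ᶠ t in 𝓝 (0 : ℝ), HasDerivAt (fun t : ℝ => u (x + t • v)) (fderiv ℝ u (x + t • v) v) t := by
  have h1 : ∀ᶠ y in 𝓝 x, ContDiffAt ℝ 2 u y := hu.eventually (by simp)
  have hc : Tendsto (fun t : ℝ => x + t • v) (𝓝 0) (𝓝 x) := by
    have : Continuous fun t : ℝ => x + t • v := by fun_prop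
    have h2 := this.tendsto 0
    simpa using h2
  filter_upwards [hc.eventually h1] with t ht
  have hd : HasFDerivAt u (fderiv ℝ u (x + t • v)) (x + t • v) :=
    (ht.differentiableAt (by simp)).hasFDerivAt
  have hl : HasDerivAt (fun t : ℝ => x + t • v) v t := by
    have := ((hasDerivAt_id t).smul_const v).const_add x
    simpa using this
  exact hd.comp_hasDerivAt t hl

theorem line_deriv2 {u : Eu d → ℝ} {x v : Eu d} (hu : ContDiffAt ℝ 2 u x) :
    HasDerivAt (fun t : ℝ => fderiv ℝ u (x + t • v) v) (iteratedFDeriv ℝ 2 u x (fun _ => v)) 0 := by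
  have h1 : DifferentiableAt ℝ (fderiv ℝ u) x :=
    (hu.fderiv_right (m := 1) (by norm_num)).differentiableAt (by simp)
  rw [iteratedFDeriv_two_apply]
  have hl : HasDerivAt (fun t : ℝ => x + t • v) v 0 := by
    have := ((hasDerivAt_id (0 : ℝ)).smul_const v).const_add x
    simpa using this
  have h2 : HasFDerivAt (fderiv ℝ u) (fderiv ℝ (fderiv ℝ u) x) (x + (0 : ℝ) • v) := by
    rw [zero_smul, add_zero]; exact h1.hasFDerivAt
  have h3 := h2.comp_hasDerivAt (0 : ℝ) hl
  have h4 := h3.clm_apply (hasDerivAt_const (0 : ℝ) v)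
  simpa using h4

/-- second derivative along a line -/
theorem iteratedFDeriv_two_of_line {u : Eu d → ℝ} {x v : Eu d} (hu : ContDiffAt ℝ 2 u x)
    {g : ℝ → ℝ} {c : ℝ} (h1 : ∀ᶠ t in 𝓝 (0 : ℝ), HasDerivAt (fun t : ℝ => u (x + t • v)) (g t) t)
    (h2 : HasDerivAt g c 0) : iteratedFDeriv ℝ 2 u x (fun _ => v) = c := by
  have e1 := line_deriv (v := v) hu
  have e2 := line_deriv2 (v := v) hu
  have e3 : (fun t : ℝ => fderiv ℝ u (x + t • v) v) =ᶠ[𝓝 0] g := by
    filter_upwards [e1, h1] with t ht ht'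
    exact ht.unique ht'
  exact (e3.hasDerivAt_iff.1 e2).unique h2

/-- at a local maximum all pure second derivatives are nonpositive -/
theorem lap_nonpos_of_isLocalMax {u : Eu d → ℝ} {x : Eu d} (hu : ContDiffAt ℝ 2 u x)
    (hmax : IsLocalMax u x) : lap u x ≤ 0 := by
  unfold lap
  refine Finset.sum_nonpos fun i _ => ?_
  set v : Eu d := EuclideanSpace.single i (1 : ℝ) with hv
  by_contra hpos
  rw [not_le] at hpos
  set φ : ℝ → ℝ := fun t => u (x + t • v) with hφ
  have e1 := line_deriv (v := v) hu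
  have e2 := line_deriv2 (v := v) hu
  have hcl : ContinuousAt (fun t : ℝ => x + t • v) 0 := by
    have : Continuous fun t : ℝ => x + t • v := by fun_prop
    exact this.continuousAt
  have hmaxφ : IsLocalMax φ 0 := by
    have h0 : IsLocalMax u ((fun t : ℝ => x + t • v) 0) := by simpa using hmax
    exact IsLocalMax.comp_continuous (g := fun t : ℝ => x + t • v) h0 hcl
  have hderiv : deriv φ =ᶠ[𝓝 0] fun t : ℝ => fderiv ℝ u (x + t • v) v := by
    filter_upwards [e1] with t ht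
    exact ht.deriv
  have hd2 : deriv (deriv φ) 0 = iteratedFDeriv ℝ 2 u x (fun _ => v) := by
    rw [hderiv.deriv_eq]
    exact e2.deriv
  have hd1 : deriv φ 0 = 0 := hmaxφ.deriv_eq_zero
  have hcφ : ContinuousAt φ 0 := by
    have : HasDerivAt φ _ 0 := e1.self_of_nhds
    exact this.continuousAt
  have hmin : IsLocalMin φ 0 := isLocalMin_of_deriv_deriv_pos (by rw [hd2]; exact hpos) hd1 hcφ
  have hconst : φ =ᶠ[𝓝 0] fun _ => φ 0 := by
    filter_upwards [hmaxφ, hmin] with t h1 h2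
    exact le_antisymm h1 h2
  have h1 : deriv φ =ᶠ[𝓝 0] fun _ => 0 := by
    have h2 := hconst.eventuallyEq_nhds
    filter_upwards [h2] with t ht
    rw [ht.deriv_eq]; simp
  have h3 : deriv (deriv φ) 0 = 0 := by
    rw [h1.deriv_eq]; simp
  rw [hd2] at h3
  linarith

theorem lap_sub {u v : Eu d → ℝ} {x : Eu d} (hu : ContDiffAt ℝ 2 u x) (hv : ContDiffAt ℝ 2 v x) :
    lap (fun y => u y - v y) x = lap u x - lap v x := by
  unfold lap
  rw [← Finset.sum_sub_distrib]
  refine Finset.sum_congr rfl fun i _ => ?_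
  have := fun_iteratedFDeriv_sub_apply (𝕜 := ℝ) (i := 2) (f := u) (g := v) (x := x) (by exact_mod_cast hu) (by exact_mod_cast hv)
  rw [this]; rfl

theorem lap_add {u v : Eu d → ℝ} {x : Eu d} (hu : ContDiffAt ℝ 2 u x) (hv : ContDiffAt ℝ 2 v x) :
    lap (fun y => u y + v y) x = lap u x + lap v x := by
  unfold lap
  rw [← Finset.sum_add_distrib]
  refine Finset.sum_congr rfl fun i _ => ?_
  have := fun_iteratedFDeriv_add_apply (𝕜 := ℝ) (i := 2) (f := u) (g := v) (x := x) (by exact_mod_cast hu) (by exact_mod_cast hv)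
  rw [this]; rfl

theorem lap_const_mul {u : Eu d → ℝ} {x : Eu d} (c : ℝ) (hu : ContDiffAt ℝ 2 u x) :
    lap (fun y => c * u y) x = c * lap u x := by
  unfold lap
  rw [Finset.mul_sum]
  refine Finset.sum_congr rfl fun i _ => ?_
  have := iteratedFDeriv_const_smul_apply' (𝕜 := ℝ) (i := 2) (f := u) (x := x) (a := c) (by exact_mod_cast hu)
  simp only [smul_eq_mul] at this
  rw [this]; rfl

theorem lap_const (c : ℝ) (x : Eu d) : lap (fun _ => c) x = 0 := by
  unfold lap
  refine Finset.sum_eq_zero fun i _ => ?_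
  refine iteratedFDeriv_two_of_line (g := fun _ => 0) contDiffAt_const ?_ ?_
  · exact Eventually.of_forall fun t => hasDerivAt_const _ _
  · exact hasDerivAt_const _ _

/-- the Laplacian only depends on the germ -/
theorem lap_congr {u v : Eu d → ℝ} {x : Eu d} (h : u =ᶠ[𝓝 x] v) : lap u x = lap v x := by
  unfold lap
  refine Finset.sum_congr rfl fun i _ => ?_
  rw [iteratedFDeriv_two_apply, iteratedFDeriv_two_apply, (h.fderiv).fderiv_eq]

/-- Laplacian of `g (‖x - c‖ ^ 2)` -/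
theorem lap_radial {g g' g'' : ℝ → ℝ} (c x : Eu d)
    (hg : ∀ᶠ r in 𝓝 (‖x - c‖ ^ 2), HasDerivAt g (g' r) r)
    (hg' : HasDerivAt g' (g'' (‖x - c‖ ^ 2)) (‖x - c‖ ^ 2))
    (hC : ContDiffAt ℝ 2 (fun y : Eu d => g (‖y - c‖ ^ 2)) x) :
    lap (fun y : Eu d => g (‖y - c‖ ^ 2)) x =
      4 * ‖x - c‖ ^ 2 * g'' (‖x - c‖ ^ 2) + 2 * d * g' (‖x - c‖ ^ 2) := by
  unfold lap
  set q0 := ‖x - c‖ ^ 2 with hq0
  have key : ∀ i : Fin d, iteratedFDeriv ℝ 2 (fun y : Eu d => g (‖y - c‖ ^ 2)) x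
      (fun _ => EuclideanSpace.single i (1 : ℝ)) = 4 * ((x - c) i) ^ 2 * g'' q0 + 2 * g' q0 := by
    intro i
    set a := (x - c) i with ha
    have hq : ∀ t : ℝ, ‖x + t • EuclideanSpace.single i (1 : ℝ) - c‖ ^ 2 = q0 + 2 * t * a + t ^ 2 := by
      intro t
      have e1 : x + t • EuclideanSpace.single i (1 : ℝ) - c = (x - c) + t • EuclideanSpace.single i (1 : ℝ) := by
        abel
      rw [e1, norm_add_sq_real, inner_smul_right, EuclideanSpace.inner_single_right, norm_smul]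
      simp [ha, hq0]
      ring
    have hqd : ∀ t : ℝ, HasDerivAt (fun t : ℝ => q0 + 2 * t * a + t ^ 2) (2 * a + 2 * t) t := by
      intro t
      have h1 : HasDerivAt (fun t : ℝ => 2 * t * a) (2 * 1 * a) t := ((hasDerivAt_id t).const_mul 2).mul_const a
      have h2 : HasDerivAt (fun t : ℝ => t ^ 2) (2 * t) t := by simpa using hasDerivAt_pow 2 t
      have := (h1.const_add q0).fun_add h2
      simpa using this
    refine iteratedFDeriv_two_of_line (g := fun t => g' (q0 + 2 * t * a + t ^ 2) * (2 * a + 2 * t)) hC ?_ ?_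
    · have hcont : Tendsto (fun t : ℝ => q0 + 2 * t * a + t ^ 2) (𝓝 0) (𝓝 q0) := by
        have : Continuous fun t : ℝ => q0 + 2 * t * a + t ^ 2 := by fun_prop
        have h2 := this.tendsto 0
        simpa using h2
      filter_upwards [hcont.eventually hg] with t ht
      have h1 := ht.comp t (hqd t)
      have h2 : (fun t : ℝ => g (‖x + t • EuclideanSpace.single i (1 : ℝ) - c‖ ^ 2)) =
          g ∘ fun t : ℝ => q0 + 2 * t * a + t ^ 2 := by
        funext t
        simp only [Function.comp_apply, hq]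
      rw [h2]
      exact h1
    · have h0 : (fun t : ℝ => q0 + 2 * t * a + t ^ 2) 0 = q0 := by simp
      have h1 : HasDerivAt (fun t : ℝ => g' (q0 + 2 * t * a + t ^ 2)) (g'' q0 * (2 * a + 2 * 0)) 0 := by
        have hg2 : HasDerivAt g' (g'' q0) ((fun t : ℝ => q0 + 2 * t * a + t ^ 2) 0) := by rw [h0]; exact hg'
        exact hg2.comp 0 (hqd 0)
      have h2 : HasDerivAt (fun t : ℝ => 2 * a + 2 * t) 2 0 := by
        have := ((hasDerivAt_id (0 : ℝ)).const_mul 2).const_add (2 * a)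
        simpa using this
      have h3 := h1.mul h2
      refine h3.congr_deriv ?_
      simp
      ring
  simp only [key]
  rw [Finset.sum_add_distrib, ← Finset.sum_mul, ← Finset.mul_sum, Finset.sum_const, Finset.card_univ,
    Fintype.card_fin, nsmul_eq_mul]
  have h5 : ∑ i, ((x - c) i) ^ 2 = q0 := by rw [hq0, EuclideanSpace.real_norm_sq_eq]
  rw [h5]
  ring

theorem lap_norm_sq (x : Eu d) : lap (fun y : Eu d => ‖y‖ ^ 2) x = 2 * d := by
  have h1 := lap_radial (d := d) (g := fun r => r) (g' := fun _ => 1) (g'' := fun _ => 0) 0 x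
    (Eventually.of_forall fun r => hasDerivAt_id r) (hasDerivAt_const _ _)
    (by
      simp only [sub_zero]
      exact (contDiff_norm_sq ℝ).contDiffAt)
  simp only [sub_zero] at h1
  rw [h1]; ring

/-- Maximum principle on an open set (possibly unbounded), with a coercive zero order term. -/
theorem max_principle (Ω : Set (Eu d)) (hΩ : IsOpen Ω) (K C : ℝ) (hK : 0 < K) (w : Eu d → ℝ)
    (hw : ContinuousOn w Ω) (hC : ∀ x ∈ Ω, w x ≤ C)
    (hb : ∀ p ∈ frontier Ω, ∀ η > 0, ∀ᶠ x in 𝓝[Ω] p, w x < η)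
    (hi : ∀ x ∈ Ω, 0 < w x → ContDiffAt ℝ 2 w x ∧ K * w x ≤ lap w x) :
    ∀ x ∈ Ω, w x ≤ 0 := by
  intro x0 hx0
  by_contra hcon
  rw [not_le] at hcon
  have key : ∀ e : ℝ, 0 < e → 0 < w x0 - e * ‖x0‖ ^ 2 → K * (w x0 - e * ‖x0‖ ^ 2) ≤ 2 * d * e := by
    intro e he hm0
    set m0 := w x0 - e * ‖x0‖ ^ 2 with hm0def
    set A := {x | x ∈ Ω ∧ m0 ≤ w x - e * ‖x‖ ^ 2} with hA
    have hx0A : x0 ∈ A := ⟨hx0, le_rfl⟩
    have hAb : Bornology.IsBounded A := by
      refine (Metric.isBounded_iff_subset_closedBall (0 : Eu d)).2 ⟨Real.sqrt ((C - m0) / e), ?_⟩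
      intro x hx
      rw [mem_closedBall_zero_iff]
      refine Real.le_sqrt_of_sq_le ?_
      rw [le_div_iff₀ he]
      have h1 := hx.2
      have h2 := hC x hx.1
      linarith
    have hAc : IsClosed A := by
      refine isClosed_of_closure_subset fun p hp => ?_
      have hpΩ : p ∈ closure Ω := closure_mono (fun x hx => hx.1) hp
      have hpA : (𝓝[A] p).NeBot := mem_closure_iff_nhdsWithin_neBot.1 hp
      by_cases hpo : p ∈ Ω
      · refine ⟨hpo, ?_⟩
        have hcw : ContinuousAt (fun x => w x - e * ‖x‖ ^ 2) p := by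
          have h1 : ContinuousAt w p := hw.continuousAt (hΩ.mem_nhds hpo)
          have h2 : ContinuousAt (fun x : Eu d => e * ‖x‖ ^ 2) p := by fun_prop
          exact h1.sub h2
        have h3 : Tendsto (fun x => w x - e * ‖x‖ ^ 2) (𝓝[A] p) (𝓝 (w p - e * ‖p‖ ^ 2)) :=
          hcw.tendsto.mono_left nhdsWithin_le_nhds
        refine ge_of_tendsto h3 ?_
        exact eventually_nhdsWithin_of_forall fun x hx => hx.2
      · exfalso
        have hpf : p ∈ frontier Ω := by
          rw [frontier, hΩ.interior_eq]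
          exact ⟨hpΩ, hpo⟩
        have h1 := hb p hpf m0 hm0
        have h2 : ∀ᶠ x in 𝓝[A] p, w x < m0 :=
          h1.filter_mono (nhdsWithin_mono p fun x hx => hx.1)
        have h3 : ∀ᶠ x in 𝓝[A] p, x ∈ A := self_mem_nhdsWithin
        obtain ⟨x, hx, hx'⟩ := (h2.and h3).exists
        have h4 := hx'.2
        have h5 : 0 ≤ e * ‖x‖ ^ 2 := by positivity
        linarith
    have hAcomp : IsCompact A := Metric.isCompact_of_isClosed_isBounded hAc hAb
    have hcont : ContinuousOn (fun x => w x - e * ‖x‖ ^ 2) A := by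
      refine (hw.mono fun x hx => hx.1).sub ?_
      fun_prop
    obtain ⟨x1, hx1A, hx1⟩ := hAcomp.exists_isMaxOn ⟨x0, hx0A⟩ hcont
    have hx1Ω : x1 ∈ Ω := hx1A.1
    have hmaxΩ : ∀ x ∈ Ω, w x - e * ‖x‖ ^ 2 ≤ w x1 - e * ‖x1‖ ^ 2 := by
      intro x hx
      by_cases hxA : x ∈ A
      · exact hx1 hxA
      · have h1 : w x - e * ‖x‖ ^ 2 < m0 := by
          by_contra h
          exact hxA ⟨hx, not_lt.1 h⟩
        have h2 := hx1A.2
        linarith
    have hlm : IsLocalMax (fun x => w x - e * ‖x‖ ^ 2) x1 := by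
      filter_upwards [hΩ.mem_nhds hx1Ω] with x hx
      exact hmaxΩ x hx
    have hw1 : m0 ≤ w x1 := by
      have h1 := hx1A.2
      have h5 : 0 ≤ e * ‖x1‖ ^ 2 := by positivity
      linarith
    obtain ⟨hcd, hlap⟩ := hi x1 hx1Ω (by linarith)
    have hns : ContDiffAt ℝ 2 (fun x : Eu d => ‖x‖ ^ 2) x1 := (contDiff_norm_sq ℝ).contDiffAt
    have hns2 : ContDiffAt ℝ 2 (fun x : Eu d => e * ‖x‖ ^ 2) x1 := contDiffAt_const.mul hns
    have h6 := lap_nonpos_of_isLocalMax (hcd.sub hns2) hlm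
    rw [lap_sub hcd hns2, lap_const_mul e hns, lap_norm_sq] at h6
    have h7 : K * m0 ≤ K * w x1 := mul_le_mul_of_nonneg_left hw1 hK.le
    linarith
  -- let e tend to zero
  have h1 : 0 < w x0 / (2 * (‖x0‖ ^ 2 + 1)) := by positivity
  have h2 : 0 < K * w x0 / (4 * (2 * d + 1)) := by positivity
  set e := min (w x0 / (2 * (‖x0‖ ^ 2 + 1))) (K * w x0 / (4 * (2 * d + 1))) with he
  have he0 : 0 < e := lt_min h1 h2
  have he1 : e ≤ w x0 / (2 * (‖x0‖ ^ 2 + 1)) := min_le_left _ _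
  have he2 : e ≤ K * w x0 / (4 * (2 * d + 1)) := min_le_right _ _
  rw [le_div_iff₀ (by positivity)] at he1 he2
  have h3 : e * ‖x0‖ ^ 2 ≤ w x0 / 2 := by nlinarith
  have h4 := key e he0 (by linarith)
  have h5 : K * (w x0 / 2) ≤ K * (w x0 - e * ‖x0‖ ^ 2) := mul_le_mul_of_nonneg_left (by linarith) hK.le
  have h6 : 0 < K * w x0 := mul_pos hK hcon
  nlinarith

end Pool.Agent.H314.Dir
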