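import Pool.Agent.H314.Dir.Pot3
import Pool.Agent.H314.Dir.Lap

set_option autoImplicit false
open MeasureTheory Filter Topology Set Metric

namespace Pool.Agent.H314.Dir

variable {d : ℕ}

theorem J_mono {κ : Eu d → ℝ} (hκi : Integrable κ) (hκ : ∀ y, 0 ≤ κ y) {h h' : Eu d → ℝ}
    {C C' : ℝ} (hh : BM h C) (hh' : BM h' C') (hle : ∀ x, h x ≤ h' x) (s : ℝ) (x : Eu d) :
    J κ h s x ≤ J κ h' s x := by
  unfold J
  refine integral_mono (hh.integrable_smul hκi s x) (hh'.integrable_smul hκi s x) fun y => ?_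
  exact mul_le_mul_of_nonneg_right (hle _) (hκ y)

theorem J_const (κ : Eu d → ℝ) (a s : ℝ) (x : Eu d) :
    J κ (fun _ => a) s x = a * ∫ y, κ y := by
  rw [J, ← integral_const_mul]
  rfl

theorem BM_const (a : ℝ) : BM (fun _ : Eu d => a) |a| := ⟨measurable_const, fun _ => le_rfl⟩

theorem ii_rho {h : Eu d → ℝ} {C : ℝ} (hh : BM h C) {w : ℝ → ℝ} (hw : Continuous w) (a b : ℝ)
    (x : Eu d) : IntervalIntegrable (fun s => w s * J rho h s x) volume a b :=
  hh.intervalIntegrable contDiff_rho.continuous hasCompactSupport_rho hw a b x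

theorem ii_sig {h : Eu d → ℝ} {C : ℝ} (hh : BM h C) {w : ℝ → ℝ} (hw : Continuous w) (a b : ℝ)
    (x : Eu d) : IntervalIntegrable (fun s => w s * J sig h s x) volume a b :=
  hh.intervalIntegrable contDiff_sig.continuous hasCompactSupport_sig hw a b x

/-- the averaging operator of the resolvent identity -/
noncomputable def Qop (K ε : ℝ) (h : Eu d → ℝ) (x : Eu d) : ℝ :=
  (1 - K / 16 * ε ^ 2) * J rho h ε x +
    ∫ s in (0 : ℝ)..ε, ((2 * (K / 16) * s) * J rho h s x -
      (K * ((1 - K / 16 * s ^ 2) * s)) * J sig h s x)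

theorem Qop_eq {K ε : ℝ} {h : Eu d → ℝ} {C : ℝ} (hh : BM h C) (x : Eu d) :
    Qop K ε h x = (1 - K / 16 * ε ^ 2) * J rho h ε x +
      2 * (K / 16) * (∫ s in (0 : ℝ)..ε, s * J rho h s x) - K * Npot (K / 16) ε h x := by
  rw [Qop, intervalIntegral.integral_sub (ii_rho hh (by fun_prop) 0 ε x)
    (ii_sig hh (by fun_prop) 0 ε x), Npot, Pw, ← intervalIntegral.integral_const_mul,
    ← intervalIntegral.integral_const_mul]
  have e1 : (∫ s in (0 : ℝ)..ε, (2 * (K / 16) * s) * J rho h s x) =
      ∫ s in (0 : ℝ)..ε, 2 * (K / 16) * (s * J rho h s x) := by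
    congr 1; funext s; ring
  have e2 : (∫ s in (0 : ℝ)..ε, (K * ((1 - K / 16 * s ^ 2) * s)) * J sig h s x) =
      ∫ s in (0 : ℝ)..ε, K * (((1 - K / 16 * s ^ 2) * s) • J sig h s x) := by
    congr 1; funext s; rw [smul_eq_mul]; ring
  rw [e1, e2]
  ring

theorem Qop_mono {K ε : ℝ} (hK : 0 < K) (hε : 0 < ε) (hKε : K * ε ^ 2 ≤ 16) {h h' : Eu d → ℝ}
    {C C' : ℝ} (hh : BM h C) (hh' : BM h' C') (hle : ∀ x, h x ≤ h' x) (x : Eu d) :
    Qop K ε h x ≤ Qop K ε h' x := by
  unfold Qop
  refine add_le_add ?_ ?_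
  · refine mul_le_mul_of_nonneg_left (J_mono integrable_rho rho_nonneg hh hh' hle ε x) ?_
    linarith
  · refine intervalIntegral.integral_mono_on hε.le
      ((ii_rho hh (by fun_prop) 0 ε x).sub (ii_sig hh (by fun_prop) 0 ε x))
      ((ii_rho hh' (by fun_prop) 0 ε x).sub (ii_sig hh' (by fun_prop) 0 ε x)) fun s hs => ?_
    have ha0 : 0 ≤ 1 - K / 16 * s ^ 2 := by
      have : s ^ 2 ≤ ε ^ 2 := pow_le_pow_left₀ hs.1 hs.2 2
      nlinarith
    have ha1 : 1 - K / 16 * s ^ 2 ≤ 1 := by
      have : 0 ≤ K / 16 * s ^ 2 := by positivity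
      linarith
    set a := 1 - K / 16 * s ^ 2 with ha
    have hκi : Integrable (fun y : Eu d => rho y / 8 - a * sig y) :=
      (integrable_rho.div_const 8).sub (integrable_sig.const_mul a)
    have hκ0 : ∀ y : Eu d, 0 ≤ rho y / 8 - a * sig y := by
      intro y
      have h1 := sig_le y
      have h2 := sig_nonneg y
      nlinarith
    have key := J_mono hκi hκ0 hh hh' hle s x
    have dec : ∀ {f : Eu d → ℝ} {D : ℝ}, BM f D → J (fun y : Eu d => rho y / 8 - a * sig y) f s x =
        (1 / 8) * J rho f s x - a * J sig f s x := by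
      intro f D hf
      have e1 : (fun y : Eu d => rho y / 8 - a * sig y) =
          fun y => (1 / 8) * rho y + (-a) * sig y := by
        funext y; ring
      rw [e1, J_add_kernel (integrable_rho.const_mul _) (integrable_sig.const_mul _) hf,
        J_const_mul_kernel, J_const_mul_kernel]
      ring
    rw [dec hh, dec hh'] at key
    have hKs : 0 ≤ K * s := mul_nonneg hK.le hs.1
    nlinarith [mul_le_mul_of_nonneg_left key hKs]

theorem Npot_mono {c ε : ℝ} (hε : 0 < ε) (hc : ∀ s ∈ Icc (0 : ℝ) ε, 0 ≤ 1 - c * s ^ 2)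
    {h h' : Eu d → ℝ} {C C' : ℝ} (hh : BM h C) (hh' : BM h' C') (hle : ∀ x, h x ≤ h' x)
    (x : Eu d) : Npot c ε h x ≤ Npot c ε h' x := by
  unfold Npot Pw
  refine intervalIntegral.integral_mono_on hε.le (ii_sig hh (by fun_prop) 0 ε x)
    (ii_sig hh' (by fun_prop) 0 ε x) fun s hs => ?_
  exact mul_le_mul_of_nonneg_left (J_mono integrable_sig sig_nonneg hh hh' hle s x)
    (mul_nonneg (hc s hs) hs.1)

/-- mass of the potential kernel -/
noncomputable def mass (d : ℕ) (c ε : ℝ) : ℝ :=
  ∫ s in (0 : ℝ)..ε, ((1 - c * s ^ 2) * s) * ∫ y : Eu d, sig y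

theorem Npot_const (c ε a : ℝ) (x : Eu d) : Npot c ε (fun _ => a) x = a * mass d c ε := by
  rw [Npot, Pw, mass, ← intervalIntegral.integral_const_mul]
  congr 1
  funext s
  rw [J_const, smul_eq_mul]
  ring

theorem mass_pos (d : ℕ) {c ε : ℝ} (hε : 0 < ε) (hc : ∀ s ∈ Icc (0 : ℝ) ε, 0 < 1 - c * s ^ 2) :
    0 < mass d c ε := by
  unfold mass
  refine intervalIntegral.intervalIntegral_pos_of_pos_on (Continuous.intervalIntegrable
    (by fun_prop) _ _) (fun s hs => ?_) hε
  have h1 := hc s ⟨hs.1.le, hs.2.le⟩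
  have h2 := integral_sig_pos (d := d)
  have h3 := hs.1
  positivity

theorem Qop_const {K ε : ℝ} (a : ℝ) (x : Eu d) :
    Qop K ε (fun _ => a) x = a * (1 - K * mass d (K / 16) ε) := by
  rw [Qop_eq (BM_const a), Npot_const, J_const, integral_rho]
  have e1 : (∫ s in (0 : ℝ)..ε, s * J (rho : Eu d → ℝ) (fun _ => a) s x) = a * (ε ^ 2 / 2) := by
    have : (fun s : ℝ => s * J (rho : Eu d → ℝ) (fun _ => a) s x) = fun s => a * s := by
      funext s; rw [J_const, integral_rho]; ring
    rw [this, intervalIntegral.integral_const_mul, integral_id]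
    ring
  rw [e1]
  ring

theorem Qop_contDiff {K ε : ℝ} (hε : 0 < ε) {h : Eu d → ℝ} {C : ℝ} (hh : BM h C) :
    ContDiff ℝ 1 (Qop K ε h) := by
  have e : Qop K ε h = fun x => (1 - K / 16 * ε ^ 2) * J rho h ε x +
      2 * (K / 16) * (∫ s in (0 : ℝ)..ε, s * J rho h s x) - K * Npot (K / 16) ε h x := by
    funext x; exact Qop_eq hh x
  rw [e]
  have h1 : ContDiff ℝ 1 (J rho h ε) := (contDiff_J_rho hh hε).of_le (by norm_num)
  have h2 : ContDiff ℝ 1 (fun x => ∫ s in (0 : ℝ)..ε, s * J rho h s x) := by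
    have := contDiff_one_Pw contDiff_rho hasCompactSupport_rho hh (continuous_const (y := (1 : ℝ))) hε
    have e2 : (fun x => ∫ s in (0 : ℝ)..ε, s * J rho h s x) = Pw rho (fun s => 1 * s) ε h := by
      funext x
      rw [Pw]
      congr 1
      funext s
      rw [smul_eq_mul, one_mul]
    rw [e2]
    exact this
  have h3 : ContDiff ℝ 1 (Npot (K / 16) ε h) := contDiff_Npot hε hh
  exact ((contDiff_const.mul h1).add (contDiff_const.mul h2)).sub (contDiff_const.mul h3)

theorem Qop_tendsto {K ε : ℝ} {hn : ℕ → Eu d → ℝ} {h : Eu d → ℝ} {C : ℝ}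
    (hh : ∀ n, BM (hn n) C) (hlim : ∀ x, Tendsto (fun n => hn n x) atTop (𝓝 (h x))) (x : Eu d) :
    Tendsto (fun n => Qop K ε (hn n) x) atTop (𝓝 (Qop K ε h x)) := by
  have hb := BM.of_tendsto hh hlim
  rw [Qop_eq hb]
  simp_rw [fun n => Qop_eq (K := K) (ε := ε) (hh n) x]
  have h1 := J_tendsto integrable_rho hh hlim ε x
  have h2 := Pw_tendsto contDiff_rho.continuous hasCompactSupport_rho hh hlim
    (continuous_id (X := ℝ)) ε x
  have h3 := Pw_tendsto contDiff_sig.continuous hasCompactSupport_sig hh hlim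
    (by fun_prop : Continuous (fun s : ℝ => (1 - K / 16 * s ^ 2) * s)) ε x
  exact ((h1.const_mul _).add (h2.const_mul _)).sub (h3.const_mul _)

/-- the resolvent identity -/
theorem resolvent {K ε : ℝ} (hε : 0 < ε) {h : Eu d → ℝ} {C : ℝ} (hh : BM h C) {x : Eu d}
    (hL : LipNear h x) : ContDiffAt ℝ 2 (Npot (K / 16) ε h) x ∧
    K * Npot (K / 16) ε h x - lap (Npot (K / 16) ε h) x = h x - Qop K ε h x := by
  obtain ⟨h1, h2⟩ := contDiffAt_Npot (c := K / 16) hε hh hL
  refine ⟨h1, ?_⟩
  rw [h2, Qop_eq hh]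
  ring

/-- the iteration -/
noncomputable def iter (K ε : ℝ) (G : Eu d → ℝ → ℝ) : ℕ → Eu d → ℝ
  | 0 => fun _ => 0
  | n + 1 => fun x => Qop K ε (iter K ε G n) x + G x (Npot (K / 16) ε (iter K ε G n) x)

theorem glob_exists (K : ℝ) (hK : 0 < K) (G : Eu d → ℝ → ℝ)
    (hG : LocallyLipschitz (fun p : Eu d × ℝ => G p.1 p.2))
    (hmono : ∀ x, Monotone (G x)) (hG0 : ∀ x t, 0 ≤ t → 0 ≤ G x t)
    (hG1 : ∀ x t, t ≤ 1 → G x t ≤ K) :
    ∃ u : Eu d → ℝ, ContDiff ℝ 2 u ∧ (∀ x, 0 ≤ u x ∧ u x ≤ 1) ∧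
      (∀ x, K * u x - lap u x = G x (u x)) ∧
      ∀ U : Eu d → ℝ, ContDiff ℝ 2 U → (∀ x, 0 ≤ U x) →
        (∀ x, G x (U x) ≤ K * U x - lap U x) → ∀ x, u x ≤ U x := by
  set ε : ℝ := Real.sqrt (8 / K) with hεd
  have hε : 0 < ε := Real.sqrt_pos.2 (by positivity)
  have hε2 : K * ε ^ 2 = 8 := by
    rw [hεd, Real.sq_sqrt (by positivity)]
    field_simp
  have hcpos : ∀ s ∈ Icc (0 : ℝ) ε, 0 < 1 - K / 16 * s ^ 2 := by
    intro s hs
    have : s ^ 2 ≤ ε ^ 2 := pow_le_pow_left₀ hs.1 hs.2 2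
    nlinarith
  have hcnn : ∀ s ∈ Icc (0 : ℝ) ε, 0 ≤ 1 - K / 16 * s ^ 2 := fun s hs => (hcpos s hs).le
  set m : ℝ := mass d (K / 16) ε with hm
  have hm0 : 0 < m := mass_pos d hε hcpos
  set M : ℝ := 1 / m with hM
  have hM0 : 0 < M := by positivity
  have hMm : M * m = 1 := by rw [hM]; field_simp
  have hGc : Continuous (fun p : Eu d × ℝ => G p.1 p.2) := hG.continuous
  -- one step of the iteration
  have compL : ∀ {h : Eu d → ℝ} {C : ℝ}, BM h C →
      LocallyLipschitz (fun x => Qop K ε h x + G x (Npot (K / 16) ε h x)) := by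
    intro h C hh
    have h1 : LocallyLipschitz (Qop K ε h) := (Qop_contDiff hε hh).locallyLipschitz
    have h2 : LocallyLipschitz (Npot (K / 16) ε h) := (contDiff_Npot hε hh).locallyLipschitz
    have h3 : LocallyLipschitz (fun x => G x (Npot (K / 16) ε h x)) :=
      hG.comp (LocallyLipschitz.id.prodMk h2)
    exact h1.add h3
  set a := iter K ε G with ha
  have hBM : ∀ n, BM (a n) M ∧ (∀ x, 0 ≤ a n x) := by
    intro n
    induction n with
    | zero =>
      refine ⟨⟨measurable_const, fun x => ?_⟩, fun x => ?_⟩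
      · simp [ha, iter, hM0.le]
      · simp [ha, iter]
    | succ n ih =>
      obtain ⟨ih1, ih2⟩ := ih
      have hle : ∀ x, a n x ≤ M := fun x => (le_abs_self _).trans (ih1.bd x)
      have hN1 : ∀ x, Npot (K / 16) ε (a n) x ≤ 1 := by
        intro x
        have := Npot_mono hε hcnn ih1 (BM_const M) hle x
        rwa [Npot_const, ← hm, hMm] at this
      have hN0 : ∀ x, 0 ≤ Npot (K / 16) ε (a n) x := by
        intro x
        have := Npot_mono hε hcnn (BM_const 0) ih1 ih2 x
        rwa [Npot_const, zero_mul] at this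
      have hQ1 : ∀ x, Qop K ε (a n) x ≤ M - K := by
        intro x
        have := Qop_mono hK hε (by linarith) ih1 (BM_const M) hle x
        rw [Qop_const, ← hm] at this
        have e : M * (1 - K * m) = M - K := by
          calc M * (1 - K * m) = M - K * (M * m) := by ring
            _ = M - K := by rw [hMm, mul_one]
        linarith
      have hQ0 : ∀ x, 0 ≤ Qop K ε (a n) x := by
        intro x
        have := Qop_mono hK hε (by linarith) (BM_const 0) ih1 ih2 x
        rwa [Qop_const, zero_mul] at this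
      have h0 : ∀ x, 0 ≤ a (n + 1) x := fun x =>
        add_nonneg (hQ0 x) (hG0 x _ (hN0 x))
      refine ⟨⟨(compL ih1).continuous.measurable, fun x => ?_⟩, h0⟩
      rw [abs_of_nonneg (h0 x)]
      have : a (n + 1) x = Qop K ε (a n) x + G x (Npot (K / 16) ε (a n) x) := rfl
      rw [this]
      linarith [hQ1 x, hG1 x _ (hN1 x)]
  have hstep : ∀ n x, a n x ≤ a (n + 1) x := by
    intro n
    induction n with
    | zero => intro x; exact (hBM 1).2 x
    | succ n ih =>
      intro x
      have e1 : a (n + 1) x = Qop K ε (a n) x + G x (Npot (K / 16) ε (a n) x) := rfl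
      have e2 : a (n + 1 + 1) x = Qop K ε (a (n + 1)) x +
        G x (Npot (K / 16) ε (a (n + 1)) x) := rfl
      rw [e1, e2]
      exact add_le_add (Qop_mono hK hε (by linarith) (hBM n).1 (hBM (n + 1)).1 ih x)
        (hmono x (Npot_mono hε hcnn (hBM n).1 (hBM (n + 1)).1 ih x))
  have hle : ∀ n x, a n x ≤ M := fun n x => (le_abs_self _).trans ((hBM n).1.bd x)
  set h : Eu d → ℝ := fun x => ⨆ n, a n x with hh
  have hlim : ∀ x, Tendsto (fun n => a n x) atTop (𝓝 (h x)) := fun x =>
    tendsto_atTop_ciSup (monotone_nat_of_le_succ fun n => hstep n x)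
      ⟨M, by rintro _ ⟨n, rfl⟩; exact hle n x⟩
  have hBMn : ∀ n, BM (a n) M := fun n => (hBM n).1
  have hBMh : BM h M := BM.of_tendsto hBMn hlim
  have hNlim : ∀ x, Tendsto (fun n => Npot (K / 16) ε (a n) x) atTop
      (𝓝 (Npot (K / 16) ε h x)) := fun x =>
    Pw_tendsto contDiff_sig.continuous hasCompactSupport_sig hBMn hlim
      (by fun_prop : Continuous (fun s : ℝ => (1 - K / 16 * s ^ 2) * s)) ε x
  have hfix : ∀ x, h x = Qop K ε h x + G x (Npot (K / 16) ε h x) := by
    intro x
    have h1 : Tendsto (fun n => a (n + 1) x) atTop (𝓝 (h x)) :=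
      (hlim x).comp (tendsto_add_atTop_nat 1)
    have h2 : Tendsto (fun n => a (n + 1) x) atTop
        (𝓝 (Qop K ε h x + G x (Npot (K / 16) ε h x))) := by
      refine (Qop_tendsto hBMn hlim x).add ?_
      exact (hGc.tendsto (x, Npot (K / 16) ε h x)).comp
        (tendsto_const_nhds.prodMk_nhds (hNlim x))
    exact tendsto_nhds_unique h1 h2
  have hhL : LocallyLipschitz h := by
    have := compL hBMh
    have e : h = fun x => Qop K ε h x + G x (Npot (K / 16) ε h x) := funext hfix
    rw [e]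
    exact this
  have hres : ∀ x, ContDiffAt ℝ 2 (Npot (K / 16) ε h) x ∧
      K * Npot (K / 16) ε h x - lap (Npot (K / 16) ε h) x = h x - Qop K ε h x := fun x =>
    resolvent hε hBMh (lipNear_of_locallyLipschitz hBMh.bd hhL x)
  refine ⟨Npot (K / 16) ε h, contDiff_iff_contDiffAt.2 fun x => (hres x).1, fun x => ?_,
    fun x => ?_, ?_⟩
  · constructor
    · have := Npot_mono hε hcnn (BM_const 0) hBMh
        (fun x => ge_of_tendsto (hlim x) (Eventually.of_forall fun n => (hBM n).2 x)) x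
      rwa [Npot_const, zero_mul] at this
    · have := Npot_mono hε hcnn hBMh (BM_const M)
        (fun x => le_of_tendsto (hlim x) (Eventually.of_forall fun n => hle n x)) x
      rwa [Npot_const, ← hm, hMm] at this
  · rw [(hres x).2]
    have := hfix x
    linarith
  · intro U hU hU0 hUs
    have hn : ∀ n x, Npot (K / 16) ε (a n) x ≤ U x := by
      intro n
      induction n with
      | zero =>
        intro x
        have : Npot (K / 16) ε (a 0) x = 0 := by
          have e : a 0 = fun _ => (0 : ℝ) := rfl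
          rw [e, Npot_const, zero_mul]
        rw [this]
        exact hU0 x
      | succ n ih =>
        have hLn : LocallyLipschitz (a (n + 1)) := compL (hBMn n)
        have hr : ∀ x, ContDiffAt ℝ 2 (Npot (K / 16) ε (a (n + 1))) x ∧
            K * Npot (K / 16) ε (a (n + 1)) x - lap (Npot (K / 16) ε (a (n + 1))) x =
              a (n + 1) x - Qop K ε (a (n + 1)) x := fun x =>
          resolvent hε (hBMn (n + 1))
            (lipNear_of_locallyLipschitz (hBMn (n + 1)).bd hLn x)
        have hN1 : ∀ x, Npot (K / 16) ε (a (n + 1)) x ≤ 1 := by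
          intro x
          have := Npot_mono hε hcnn (hBMn (n + 1)) (BM_const M) (hle (n + 1)) x
          rwa [Npot_const, ← hm, hMm] at this
        have hcN : Continuous (Npot (K / 16) ε (a (n + 1))) :=
          (contDiff_Npot hε (hBMn (n + 1))).continuous
        have mp := max_principle (d := d) univ isOpen_univ K 1 hK
          (fun x => Npot (K / 16) ε (a (n + 1)) x - U x)
          (hcN.sub hU.continuous).continuousOn
          (fun x _ => by linarith [hN1 x, hU0 x]) (by simp) (fun x _ _ => ?_)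
        · intro x
          have := mp x (mem_univ x)
          linarith
        · refine ⟨(hr x).1.sub hU.contDiffAt, ?_⟩
          rw [lap_sub (hr x).1 hU.contDiffAt]
          have e1 : a (n + 1) x = Qop K ε (a n) x + G x (Npot (K / 16) ε (a n) x) := rfl
          have e2 := Qop_mono hK hε (by linarith) (hBMn n) (hBMn (n + 1)) (hstep n) x
          have e3 := hmono x (ih x)
          have e4 := hUs x
          have e5 := (hr x).2
          nlinarith
    intro x
    exact le_of_tendsto (hNlim x) (Eventually.of_forall fun n => hn n x)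

end Pool.Agent.H314.Dir
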