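import Pool.Agent.H314.Dir.Lap

set_option autoImplicit false
open MeasureTheory Filter Topology Set Metric

namespace Pool.Agent.H314.Dir

variable {d : ℕ}

/-- TARGET. Smooth barrier for the penalised problem at a boundary point with an exterior ball. -/
theorem barrier (Ω : Set (Eu d)) (hne : Ω.Nonempty) (p c : Eu d) (r0 : ℝ) (hr0 : 0 < r0)
    (hpc : dist p c = r0) (hdis : Disjoint (ball c r0) Ω) (K : ℝ) (hK : 0 < K) (η : ℝ)
    (hη : 0 < η) : ∃ N : ℝ, 0 ≤ N ∧ ∃ B : Eu d → ℝ, ContDiff ℝ 2 B ∧ (∀ x, 0 ≤ B x) ∧ B p < η ∧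
      ∀ x, K ≤ K * B x + N * min 1 (infDist x Ω) * B x - lap B x := by
  obtain ⟨A, hA0, hKA⟩ : ∃ A : ℝ, 0 < A ∧ K * A = K + 1 :=
    ⟨1 + 1 / K, by positivity, by field_simp⟩
  have hd0 : (0:ℝ) ≤ d := Nat.cast_nonneg d
  obtain ⟨α, hα1, hαK⟩ : ∃ α : ℝ, 1 ≤ α ∧ K ≤ 2 * r0 ^ 2 * α ^ 2 - 2 * d * α := by
    refine ⟨1 + (2 * d + K) / (2 * r0 ^ 2), ?_, ?_⟩
    · have : 0 ≤ (2 * d + K) / (2 * r0 ^ 2) := by positivity
      linarith
    · set α : ℝ := 1 + (2 * d + K) / (2 * r0 ^ 2) with hα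
      have hα1 : 1 ≤ α := by
        have : 0 ≤ (2 * d + K) / (2 * r0 ^ 2) := by positivity
        linarith
      have h1 : 2 * d + K ≤ 2 * r0 ^ 2 * α := by
        have : 2 * r0 ^ 2 * α = 2 * r0 ^ 2 + (2 * d + K) := by rw [hα]; field_simp
        rw [this]
        have : 0 < r0 ^ 2 := by positivity
        linarith
      have h2 : (2 * d + K) * α ≤ 2 * r0 ^ 2 * α * α := mul_le_mul_of_nonneg_right h1 (by linarith)
      have h3 : K * 1 ≤ K * α := mul_le_mul_of_nonneg_left hα1 hK.le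
      nlinarith
  have hα0 : 0 < α := by linarith
  obtain ⟨t2, ht2, ht2a, ht2b⟩ : ∃ t2 : ℝ, 0 < t2 ∧ t2 ≤ r0 ^ 2 / 4 ∧ A * α * (2 * t2) ≤ η / 4 := by
    refine ⟨min (r0 ^ 2 / 4) (η / (8 * A * α)), ?_, min_le_left _ _, ?_⟩
    · exact lt_min (by positivity) (by positivity)
    · have h1 : min (r0 ^ 2 / 4) (η / (8 * A * α)) ≤ η / (8 * A * α) := min_le_right _ _
      calc A * α * (2 * min (r0 ^ 2 / 4) (η / (8 * A * α))) ≤ A * α * (2 * (η / (8 * A * α))) := by
            gcongr
        _ = η / 4 := by field_simp; ring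
  obtain ⟨w1, hw1⟩ : ∃ w1 : ℝ, w1 = r0 ^ 2 - 2 * t2 := ⟨_, rfl⟩
  have hr2 : 0 < r0 ^ 2 := by positivity
  have hw1a : r0 ^ 2 / 2 ≤ w1 := by rw [hw1]; linarith
  have hw1b : w1 ≤ r0 ^ 2 := by rw [hw1]; linarith
  obtain ⟨β, hβ1, hβα, hβη, hβ2⟩ : ∃ β : ℝ, 1 ≤ β ∧ α ≤ β ∧ 2 * A * α / β < η / 2 ∧
      48 * A * α * (r0 ^ 2 / t2 ^ 3 + 1 / t2 ^ 2) ≤ β ^ 2 := by
    have h1 : 0 < 8 * A * α / η := by positivity
    have h2 : 0 < 48 * A * α * (r0 ^ 2 / t2 ^ 3 + 1 / t2 ^ 2) := by positivity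
    refine ⟨α + 8 * A * α / η + 48 * A * α * (r0 ^ 2 / t2 ^ 3 + 1 / t2 ^ 2), by linarith,
      by linarith, ?_, ?_⟩
    · rw [div_lt_iff₀ (by positivity)]
      have h3 : η / 2 * (8 * A * α / η) = 4 * A * α := by field_simp; ring
      have h4 : 0 < A * α := by positivity
      have h5 : 0 ≤ η / 2 * (α + 48 * A * α * (r0 ^ 2 / t2 ^ 3 + 1 / t2 ^ 2)) := by positivity
      nlinarith
    · have h3 : (1:ℝ) ≤ α + 8 * A * α / η + 48 * A * α * (r0 ^ 2 / t2 ^ 3 + 1 / t2 ^ 2) := by linarith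
      nlinarith
  have hβ0 : 0 < β := by linarith
  obtain ⟨δ, hδ⟩ : ∃ δ : ℝ, δ = 2 * A * α / β := ⟨_, rfl⟩
  have hδ0 : 0 < δ := by rw [hδ]; positivity
  have hδη : δ < η / 2 := by rw [hδ]; exact hβη
  have hδβ : δ * β = 2 * A * α := by rw [hδ]; field_simp
  obtain ⟨k0, hk0, hk0κ⟩ : ∃ k0 : ℝ, 0 < k0 ∧
      ∀ x : Eu d, ‖x - c‖ ^ 2 ≤ r0 ^ 2 - t2 → k0 ≤ min 1 (infDist x Ω) := by
    have hsq : Real.sqrt (r0 ^ 2 - t2) < r0 := by
      rw [Real.sqrt_lt' hr0]; linarith
    refine ⟨min 1 (r0 - Real.sqrt (r0 ^ 2 - t2)), lt_min one_pos (by linarith), fun x hx => ?_⟩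
    refine min_le_min_left 1 ?_
    rw [le_infDist hne]
    intro y hy
    have h1 : r0 ≤ dist y c := by
      by_contra hcon
      push Not at hcon
      exact Set.disjoint_left.1 hdis (mem_ball.2 hcon) hy
    have h2 : dist x c ≤ Real.sqrt (r0 ^ 2 - t2) := by
      rw [dist_eq_norm]
      exact Real.le_sqrt_of_sq_le hx
    have h3 : dist y c ≤ dist x y + dist x c := by
      rw [dist_comm x y]; exact dist_triangle _ _ _
    linarith
  have hE : 0 < K + 2 * d * α * A * Real.exp (α * r0 ^ 2) := by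
    have := Real.exp_pos (α * r0 ^ 2)
    positivity
  obtain ⟨N, hN0, hN1, hN2⟩ : ∃ N : ℝ, 0 ≤ N ∧ 8 * r0 ^ 2 * β ^ 2 ≤ N * k0 ∧
      K + 2 * d * α * A * Real.exp (α * r0 ^ 2) ≤ N * k0 * (δ / 2) := by
    refine ⟨(8 * r0 ^ 2 * β ^ 2 + 2 * (K + 2 * d * α * A * Real.exp (α * r0 ^ 2)) / δ) / k0,
      by positivity, ?_, ?_⟩
    · rw [div_mul_cancel₀ _ hk0.ne']
      have : 0 < 2 * (K + 2 * d * α * A * Real.exp (α * r0 ^ 2)) / δ := by positivity
      linarith
    · rw [div_mul_cancel₀ _ hk0.ne', add_mul]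
      have e : 2 * (K + 2 * d * α * A * Real.exp (α * r0 ^ 2)) / δ * (δ / 2)
          = K + 2 * d * α * A * Real.exp (α * r0 ^ 2) := by field_simp
      rw [e]
      have : 0 < 8 * r0 ^ 2 * β ^ 2 * (δ / 2) := by positivity
      linarith
  -- the function
  set g : ℝ → ℝ := fun w => A * (1 - Real.exp (-(α * (w - w1)))) + δ * Real.exp (-(β * (w - w1)))
    with hg
  set g' : ℝ → ℝ := fun w => A * α * Real.exp (-(α * (w - w1))) - δ * β * Real.exp (-(β * (w - w1)))
    with hg'
  set g'' : ℝ → ℝ := fun w => -(A * α ^ 2 * Real.exp (-(α * (w - w1))))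
    + δ * β ^ 2 * Real.exp (-(β * (w - w1))) with hg''
  have hexp : ∀ a w : ℝ, HasDerivAt (fun w => Real.exp (-(a * (w - w1))))
      (-a * Real.exp (-(a * (w - w1)))) w := by
    intro a w
    have h1 : HasDerivAt (fun w : ℝ => -(a * (w - w1))) (-(a * 1)) w :=
      (((hasDerivAt_id w).sub_const w1).const_mul a).neg
    have h2 := h1.exp
    convert h2 using 1
    ring
  have hgd : ∀ w, HasDerivAt g (g' w) w := by
    intro w
    have h1 := (((hexp α w).const_sub 1).const_mul A).add ((hexp β w).const_mul δ)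
    have e : g' w = A * -(-α * Real.exp (-(α * (w - w1)))) + δ * (-β * Real.exp (-(β * (w - w1)))) := by
      simp only [hg']; ring
    rw [e]
    exact h1
  have hgd' : ∀ w, HasDerivAt g' (g'' w) w := by
    intro w
    have h1 := ((hexp α w).const_mul (A * α)).sub ((hexp β w).const_mul (δ * β))
    have e : g'' w = A * α * (-α * Real.exp (-(α * (w - w1)))) - δ * β * (-β * Real.exp (-(β * (w - w1)))) := by
      simp only [hg'']; ring
    rw [e]
    exact h1
  have hcd : ContDiff ℝ 2 (fun y : Eu d => g (‖y - c‖ ^ 2)) := by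
    have hn : ContDiff ℝ 2 (fun y : Eu d => ‖y - c‖ ^ 2) :=
      (contDiff_id.sub contDiff_const).norm_sq ℝ
    have hgc : ContDiff ℝ 2 g := by
      simp only [hg]
      fun_prop
    exact hgc.comp hn
  have hconv : ∀ τ : ℝ, 0 ≤ τ → A * (Real.exp (α * τ) - 1) ≤ δ / 2 * (Real.exp (β * τ) - 1) := by
    intro τ hτ
    have hc := convexOn_exp
    have hlam : α / β ≤ 1 := by rw [div_le_one hβ0]; exact hβα
    have h1 := hc.2 (mem_univ (β * τ)) (mem_univ 0) (by positivity : 0 ≤ α / β)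
      (by linarith : 0 ≤ 1 - α / β) (by ring)
    simp only [smul_eq_mul, mul_zero, add_zero, Real.exp_zero, mul_one] at h1
    have e1 : α / β * (β * τ) = α * τ := by field_simp
    rw [e1] at h1
    have e2 : δ / 2 = A * (α / β) := by rw [hδ]; ring
    rw [e2, mul_assoc]
    refine mul_le_mul_of_nonneg_left ?_ hA0.le
    linarith
  have hneg : ∀ w : ℝ, w < w1 → δ / 2 * Real.exp (-(β * (w - w1))) + δ / 2 ≤ g w := by
    intro w hw
    have h1 := hconv (w1 - w) (by linarith)
    have e1 : α * (w1 - w) = -(α * (w - w1)) := by ring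
    have e2 : β * (w1 - w) = -(β * (w - w1)) := by ring
    rw [e1, e2] at h1
    simp only [hg]
    linarith
  have hP1 : ∀ w : ℝ, w1 ≤ w → 0 ≤ A * (1 - Real.exp (-(α * (w - w1)))) := by
    intro w hw
    have : Real.exp (-(α * (w - w1))) ≤ 1 := by
      rw [Real.exp_le_one_iff]
      have : 0 ≤ α * (w - w1) := mul_nonneg hα0.le (by linarith)
      linarith
    exact mul_nonneg hA0.le (by linarith)
  have hg0 : ∀ w, 0 ≤ g w := by
    intro w
    rcases lt_or_ge w w1 with h | h
    · have := hneg w h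
      have h2 : 0 < δ / 2 * Real.exp (-(β * (w - w1))) := by positivity
      linarith
    · have h1 := hP1 w h
      have h2 : 0 < δ * Real.exp (-(β * (w - w1))) := by positivity
      simp only [hg]
      linarith
  refine ⟨N, hN0, fun y => g (‖y - c‖ ^ 2), hcd, fun x => hg0 _, ?_, ?_⟩
  · show g (‖p - c‖ ^ 2) < η
    rw [← dist_eq_norm, hpc]
    have e : r0 ^ 2 - w1 = 2 * t2 := by rw [hw1]; ring
    simp only [hg, e]
    have h1 : 1 - Real.exp (-(α * (2 * t2))) ≤ α * (2 * t2) := by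
      have := Real.add_one_le_exp (-(α * (2 * t2)))
      linarith
    have h2 : Real.exp (-(β * (2 * t2))) ≤ 1 := by
      rw [Real.exp_le_one_iff]
      have : 0 ≤ β * (2 * t2) := by positivity
      linarith
    have h3 : A * (1 - Real.exp (-(α * (2 * t2)))) ≤ A * (α * (2 * t2)) :=
      mul_le_mul_of_nonneg_left h1 hA0.le
    have h4 : δ * Real.exp (-(β * (2 * t2))) ≤ δ * 1 := mul_le_mul_of_nonneg_left h2 hδ0.le
    have h5 : A * (α * (2 * t2)) ≤ η / 4 := by rw [← mul_assoc]; exact ht2b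
    linarith
  · intro x
    have hlap := lap_radial (g := g) (g' := g') (g'' := g'') c x (Eventually.of_forall hgd)
      (hgd' _) hcd.contDiffAt
    show K ≤ K * g (‖x - c‖ ^ 2) + N * min 1 (infDist x Ω) * g (‖x - c‖ ^ 2)
      - lap (fun y : Eu d => g (‖y - c‖ ^ 2)) x
    rw [hlap]
    have hw0 : 0 ≤ ‖x - c‖ ^ 2 := by positivity
    have hκ := hk0κ x
    have hκ0 : 0 ≤ min 1 (infDist x Ω) := le_min zero_le_one infDist_nonneg
    generalize ‖x - c‖ ^ 2 = w at hw0 hκ ⊢
    generalize min 1 (infDist x Ω) = κ at hκ hκ0 ⊢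
    rcases lt_or_ge w w1 with h | h
    · -- t < 0
      have h1 := hneg w h
      have hk := hκ (by rw [hw1] at h; linarith)
      have h2 : N * k0 * g w ≤ N * κ * g w :=
        mul_le_mul_of_nonneg_right (mul_le_mul_of_nonneg_left hk hN0) (hg0 w)
      have hNk : 0 ≤ N * k0 := by positivity
      have h3 : N * k0 * (δ / 2 * Real.exp (-(β * (w - w1))) + δ / 2) ≤ N * k0 * g w :=
        mul_le_mul_of_nonneg_left h1 hNk
      have hP2 : 0 < δ * Real.exp (-(β * (w - w1))) := by positivity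
      set P2 := δ * Real.exp (-(β * (w - w1))) with hP2d
      have h4 : 4 * r0 ^ 2 * β ^ 2 * P2 ≤ N * k0 * (δ / 2 * Real.exp (-(β * (w - w1)))) := by
        have : 8 * r0 ^ 2 * β ^ 2 * (P2 / 2) ≤ N * k0 * (P2 / 2) :=
          mul_le_mul_of_nonneg_right hN1 (by positivity)
        have e : P2 / 2 = δ / 2 * Real.exp (-(β * (w - w1))) := by rw [hP2d]; ring
        rw [← e]
        linarith
      have h5 : 4 * w * β ^ 2 * P2 ≤ 4 * r0 ^ 2 * β ^ 2 * P2 := by
        have : w ≤ r0 ^ 2 := by linarith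
        gcongr
      have h6 : Real.exp (-(α * (w - w1))) ≤ Real.exp (α * r0 ^ 2) := by
        apply Real.exp_le_exp.2
        have : w1 - w ≤ r0 ^ 2 := by linarith
        have := mul_le_mul_of_nonneg_left this hα0.le
        linarith
      have h7 : 2 * d * α * A * Real.exp (-(α * (w - w1))) ≤ 2 * d * α * A * Real.exp (α * r0 ^ 2) :=
        mul_le_mul_of_nonneg_left h6 (by positivity)
      have h8 : 0 ≤ 4 * w * (A * α ^ 2 * Real.exp (-(α * (w - w1)))) := by positivity
      have h9 : 0 ≤ 2 * d * (δ * β * Real.exp (-(β * (w - w1)))) := by positivity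
      have h10 : 0 ≤ K * g w := mul_nonneg hK.le (hg0 w)
      have e1 : 4 * w * g'' w + 2 * d * g' w = 4 * w * β ^ 2 * P2
          + 2 * d * α * A * Real.exp (-(α * (w - w1)))
          - 4 * w * (A * α ^ 2 * Real.exp (-(α * (w - w1))))
          - 2 * d * (δ * β * Real.exp (-(β * (w - w1)))) := by
        simp only [hg'', hg', hP2d]; ring
      rw [e1]
      rw [mul_add] at h3
      linarith
    · -- t ≥ 0
      have h1 := hP1 w h
      have hP2 : 0 < δ * Real.exp (-(β * (w - w1))) := by positivity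
      have hgw : g w = A * (1 - Real.exp (-(α * (w - w1)))) + δ * Real.exp (-(β * (w - w1))) := rfl
      have e1 : 4 * w * g'' w + 2 * d * g' w = (4 * w * β ^ 2 - 2 * d * β) * (δ * Real.exp (-(β * (w - w1))))
          - A * ((4 * w * α ^ 2 - 2 * d * α) * Real.exp (-(α * (w - w1)))) := by
        simp only [hg'', hg']; ring
      have h2 : K ≤ 4 * w * α ^ 2 - 2 * d * α := by
        have : 2 * r0 ^ 2 * α ^ 2 ≤ 4 * w * α ^ 2 := by
          have : 2 * r0 ^ 2 ≤ 4 * w := by linarith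
          gcongr
        linarith
      have h3 : A * (K * Real.exp (-(α * (w - w1))))
          ≤ A * ((4 * w * α ^ 2 - 2 * d * α) * Real.exp (-(α * (w - w1)))) := by
        have := Real.exp_pos (-(α * (w - w1)))
        gcongr
      rw [e1, hgw]
      set P1 := A * (1 - Real.exp (-(α * (w - w1)))) with hP1d
      set P2 := δ * Real.exp (-(β * (w - w1))) with hP2d
      have h4 : K + 1 ≤ K * P1 + A * ((4 * w * α ^ 2 - 2 * d * α) * Real.exp (-(α * (w - w1)))) := by
        have : K * P1 + A * (K * Real.exp (-(α * (w - w1)))) = K + 1 := by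
          rw [← hKA, hP1d]; ring
        linarith
      have h5 : 0 ≤ N * κ * P1 := by positivity
      have h6 : 0 ≤ K * P2 := by positivity
      have h7 : 0 ≤ 2 * d * β * P2 := by positivity
      have h8 : -1 ≤ N * κ * P2 - 4 * w * β ^ 2 * P2 := by
        rcases le_or_gt w (r0 ^ 2 - t2) with hw | hw
        · have hk := hκ hw
          have h9 : N * k0 ≤ N * κ := mul_le_mul_of_nonneg_left hk hN0
          have h10 : 4 * w * β ^ 2 ≤ 8 * r0 ^ 2 * β ^ 2 := by
            have : 4 * w ≤ 8 * r0 ^ 2 := by linarith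
            gcongr
          have h11 : 4 * w * β ^ 2 ≤ N * κ := by linarith
          have h12 := mul_le_mul_of_nonneg_right h11 hP2.le
          linarith
        · have ht : t2 < w - w1 := by rw [hw1]; linarith
          have ht0 : 0 < w - w1 := by linarith
          set t := w - w1 with htd
          have hwt : w = w1 + t := by rw [htd]; ring
          have hbt : 0 < β * t := by positivity
          have h9 : (β * t) ^ 3 / 6 ≤ Real.exp (β * t) := by
            have := Real.pow_div_factorial_le_exp (β * t) hbt.le 3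
            norm_num [Nat.factorial] at this
            exact this
          have h10 : Real.exp (-(β * t)) ≤ 6 / (β * t) ^ 3 := by
            rw [Real.exp_neg, inv_le_comm₀ (Real.exp_pos _) (by positivity), inv_div]
            exact h9
          have h11 : 4 * w * β ^ 2 * P2 ≤ 48 * A * α * (w1 / t ^ 3 + 1 / t ^ 2) / β ^ 2 := by
            have hw00 : 0 ≤ w := hw0
            calc 4 * w * β ^ 2 * P2 = 4 * w * β * (δ * β) * Real.exp (-(β * t)) := by
                  rw [hP2d]; ring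
              _ = 8 * A * α * β * w * Real.exp (-(β * t)) := by rw [hδβ]; ring
              _ ≤ 8 * A * α * β * w * (6 / (β * t) ^ 3) := by gcongr
              _ = 48 * A * α * (w1 / t ^ 3 + 1 / t ^ 2) / β ^ 2 := by
                  rw [hwt]
                  field_simp
                  ring
          have hw10 : 0 ≤ w1 := by linarith
          have h12 : w1 / t ^ 3 + 1 / t ^ 2 ≤ r0 ^ 2 / t2 ^ 3 + 1 / t2 ^ 2 := by
            gcongr
          have h13 : 48 * A * α * (w1 / t ^ 3 + 1 / t ^ 2) / β ^ 2 ≤ 1 := by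
            rw [div_le_one (by positivity)]
            refine le_trans ?_ hβ2
            gcongr
          have h14 : 0 ≤ N * κ * P2 := by positivity
          linarith
      linarith

end Pool.Agent.H314.Dir
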