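import Mathlib

set_option autoImplicit false
open MeasureTheory Filter Topology Set Metric

namespace Pool.Agent.H314.Dir

/-- Euclidean space. -/
abbrev Eu (d : ℕ) : Type := EuclideanSpace ℝ (Fin d)

/-- The Laplacian, written as a sum of pure second derivatives. -/
noncomputable def lap {d : ℕ} (u : Eu d → ℝ) (x : Eu d) : ℝ :=
  ∑ i : Fin d, iteratedFDeriv ℝ 2 u x (fun _ => EuclideanSpace.single i (1 : ℝ))

/-- Unnormalised polynomial bump. -/
noncomputable def rho0 {d : ℕ} (y : Eu d) : ℝ := (max 0 (1 - ‖y‖ ^ 2)) ^ 3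

/-- Its integral. -/
noncomputable def cst (d : ℕ) : ℝ := ∫ y : Eu d, rho0 y

/-- Normalised polynomial bump. -/
noncomputable def rho {d : ℕ} (y : Eu d) : ℝ := rho0 y / cst d

/-- The kernel with `∇ sig (y) = - rho (y) y`. -/
noncomputable def sig {d : ℕ} (y : Eu d) : ℝ := (max 0 (1 - ‖y‖ ^ 2)) ^ 4 / (8 * cst d)

/-- Averages of `h` over the ball of radius `s`, with weight `κ`. -/
noncomputable def J {d : ℕ} {G : Type*} [NormedAddCommGroup G] [NormedSpace ℝ G]
    (κ : Eu d → G) (h : Eu d → ℝ) (s : ℝ) (x : Eu d) : G := ∫ y, h (x + s • y) • κ y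

/-- bounded measurable function -/
structure BM {d : ℕ} (h : Eu d → ℝ) (C : ℝ) : Prop where
  meas : Measurable h
  bd : ∀ x, |h x| ≤ C

/-- `h` is Lipschitz at all points near `x0`, with a common constant. -/
def LipNear {d : ℕ} (h : Eu d → ℝ) (x0 : Eu d) : Prop :=
  ∃ L : ℝ, ∀ᶠ x in 𝓝 x0, ∀ y, |h y - h x| ≤ L * ‖y - x‖

/-- potentials with a weight -/
noncomputable def Pw {d : ℕ} {G : Type*} [NormedAddCommGroup G] [NormedSpace ℝ G]
    (κ : Eu d → G) (w : ℝ → ℝ) (ε : ℝ) (h : Eu d → ℝ) (x : Eu d) : G :=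
  ∫ s in (0 : ℝ)..ε, w s • J κ h s x

end Pool.Agent.H314.Dir
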