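import Pool.Agent.H314.Dir.Glob
import Pool.Agent.H314.Dir.Barrier

set_option autoImplicit false
open MeasureTheory Filter Topology Set Metric

namespace Pool.Agent.H314.Dir

variable {d : ℕ}

theorem hasCompactSupport_lap_rho : HasCompactSupport (lap (rho : Eu d → ℝ)) := by
  have h1 : HasCompactSupport (fderiv ℝ (fderiv ℝ (rho : Eu d → ℝ))) :=
    (hasCompactSupport_rho.fderiv (𝕜 := ℝ)).fderiv (𝕜 := ℝ)
  refine h1.mono fun y hy => ?_
  rw [Function.mem_support] at hy ⊢
  intro h0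
  apply hy
  rw [lap_eq_lapT, h0, map_zero]

theorem integrable_lap_rho : Integrable (lap (rho : Eu d → ℝ)) := by
  have h1 : ContDiff ℝ 1 (fderiv ℝ (rho : Eu d → ℝ)) := contDiff_rho.fderiv_right (by norm_num)
  have h2 : Continuous (fderiv ℝ (fderiv ℝ (rho : Eu d → ℝ))) := h1.continuous_fderiv (by norm_num)
  have e : lap (rho : Eu d → ℝ) = fun x => lapT d (fderiv ℝ (fderiv ℝ (rho : Eu d → ℝ)) x) := by
    funext x; exact lap_eq_lapT _ x
  have h3 : Continuous (lap (rho : Eu d → ℝ)) := by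
    rw [e]; exact (lapT d).continuous.comp h2
  exact h3.integrable_of_hasCompactSupport hasCompactSupport_lap_rho

/-- passage to the limit in the interior -/
theorem limit_regular {Ω : Set (Eu d)} (hΩ : IsOpen Ω) (H : Eu d → ℝ → ℝ)
    (hH : LocallyLipschitz (fun p : Eu d × ℝ => H p.1 p.2)) {C : ℝ}
    (un : ℕ → Eu d → ℝ) (u : Eu d → ℝ) (hun : ∀ n, ContDiff ℝ 2 (un n))
    (hb : ∀ n x, |un n x| ≤ 1) (hHb : ∀ n x, |H x (un n x)| ≤ C)
    (heq : ∀ n, ∀ x ∈ Ω, - lap (un n) x = H x (un n x))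
    (hlim : ∀ x, Tendsto (fun n => un n x) atTop (𝓝 (u x))) :
    (∀ x ∈ Ω, ContDiffAt ℝ 2 u x ∧ - lap u x = H x (u x)) ∧
    (∀ x, ∀ ε > 0, closedBall x ε ⊆ Ω →
      u x = J rho u ε x + Npot 0 ε (fun y => H y (u y)) x) ∧
    BM (fun y => H y (u y)) C ∧ BM u 1 := by
  have hHc : Continuous (fun p : Eu d × ℝ => H p.1 p.2) := hH.continuous
  have hBu : ∀ n, BM (un n) 1 := fun n => ⟨(hun n).continuous.measurable, hb n⟩
  have hBg : ∀ n, BM (fun y => H y (un n y)) C := fun n =>
    ⟨(hHc.comp (continuous_id.prodMk (hun n).continuous)).measurable, hHb n⟩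
  have hglim : ∀ x, Tendsto (fun n => H x (un n x)) atTop (𝓝 (H x (u x))) := fun x =>
    (hHc.tendsto (x, u x)).comp (tendsto_const_nhds.prodMk_nhds (hlim x))
  have hB : BM u 1 := BM.of_tendsto hBu hlim
  have hBgl : BM (fun y => H y (u y)) C := BM.of_tendsto hBg hglim
  have hrep : ∀ x, ∀ ε > 0, closedBall x ε ⊆ Ω →
      u x = J rho u ε x + Npot 0 ε (fun y => H y (u y)) x := by
    intro x ε hε hsub
    have h1 : ∀ n, un n x = J rho (un n) ε x + Npot 0 ε (fun y => H y (un n y)) x := by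
      intro n
      have h2 := represent (hun n) (hb n) hε x
      have h3 : Npot 0 ε (fun y => - lap (un n) y) x = Npot 0 ε (fun y => H y (un n y)) x :=
        Pw_congr (fun y hy => sig_eq_zero hy) hε.le fun y hy => heq n y (hsub hy)
      rw [h3] at h2
      exact h2
    have h4 : Tendsto (fun n => J rho (un n) ε x + Npot 0 ε (fun y => H y (un n y)) x) atTop
        (𝓝 (J rho u ε x + Npot 0 ε (fun y => H y (u y)) x)) := by
      refine (J_tendsto integrable_rho hBu hlim ε x).add ?_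
      exact Pw_tendsto contDiff_sig.continuous hasCompactSupport_sig hBg hglim
        (by fun_prop : Continuous (fun s : ℝ => (1 - 0 * s ^ 2) * s)) ε x
    refine tendsto_nhds_unique (hlim x) (h4.congr fun n => (h1 n).symm)
  refine ⟨fun x0 hx0 => ?_, hrep, hBgl, hB⟩
  obtain ⟨r, hr, hrΩ⟩ := Metric.isOpen_iff.1 hΩ x0 hx0
  set ε : ℝ := r / 3 with hεd
  have hε : 0 < ε := by positivity
  have hcb : ∀ x ∈ ball x0 ε, closedBall x ε ⊆ Ω := by
    intro x hx y hy
    apply hrΩ
    rw [mem_ball] at hx ⊢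
    rw [mem_closedBall] at hy
    have := dist_triangle y x x0
    linarith
  set g : Eu d → ℝ := fun y => H y (u y) with hg
  have hev : u =ᶠ[𝓝 x0] fun x => J rho u ε x + Npot 0 ε g x := by
    filter_upwards [ball_mem_nhds x0 hε] with x hx
    exact hrep x ε hε (hcb x hx)
  have hJ2 : ContDiff ℝ 2 (J rho u ε) := contDiff_J_rho hB hε
  have hu1 : ContDiffAt ℝ 1 u x0 := by
    have : ContDiff ℝ 1 (fun x => J rho u ε x + Npot 0 ε g x) :=
      (hJ2.of_le (by norm_num)).add (contDiff_Npot hε hBgl)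
    exact this.contDiffAt.congr_of_eventuallyEq hev
  -- g is Lipschitz near x0
  have hgL : LipNear g x0 := by
    obtain ⟨K1, t, ht, hK1⟩ := hu1.exists_lipschitzOnWith
    obtain ⟨K2, s, hs, hK2⟩ := hH (x0, u x0)
    have hc : ContinuousAt (fun y => (y, u y)) x0 := continuousAt_id.prodMk hu1.continuousAt
    have hs' := hc.preimage_mem_nhds hs
    have h1 : LipschitzOnWith (max 1 K1) (fun y => (y, u y)) (t ∩ (fun y => (y, u y)) ⁻¹' s) :=
      (LipschitzWith.id.lipschitzOnWith).prodMk (hK1.mono inter_subset_left)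
    have h2 : LipschitzOnWith (K2 * max 1 K1) g (t ∩ (fun y => (y, u y)) ⁻¹' s) :=
      hK2.comp h1 (fun y hy => hy.2)
    exact lipNear_of_lipschitzOn hBgl.bd (inter_mem ht hs') h2
  obtain ⟨hN2, hNl⟩ := contDiffAt_Npot (c := 0) hε hBgl hgL
  refine ⟨(hJ2.contDiffAt.add hN2).congr_of_eventuallyEq hev, ?_⟩
  have hl1 : lap u x0 = lap (J rho u ε) x0 + lap (Npot 0 ε g) x0 := by
    rw [lap_congr hev]
    exact lap_add hJ2.contDiffAt hN2
  have hl2 : lap (J rho u ε) x0 = - J rho g ε x0 := by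
    have h1 : Tendsto (fun n => lap (J rho (un n) ε) x0) atTop (𝓝 (lap (J rho u ε) x0)) := by
      rw [lap_J_rho hB hε]
      simp_rw [fun n => lap_J_rho (hBu n) hε x0]
      exact (J_tendsto integrable_lap_rho hBu hlim ε x0).const_mul _
    have h2 : ∀ n, lap (J rho (un n) ε) x0 = - J rho (fun y => H y (un n y)) ε x0 := by
      intro n
      rw [lap_J_rho_comm (hun n) (hb n) hε]
      have e1 : J rho (lap (un n)) ε x0 = J rho (fun y => - (H y (un n y))) ε x0 :=
        J_congr (fun y hy => rho_eq_zero hy) hε.le le_rfl fun y hy => by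
          have := heq n y (hcb x0 (mem_ball_self hε) hy)
          rw [← this, neg_neg]
      rw [e1, J, J, ← integral_neg]
      congr 1
      funext y
      rw [neg_smul]
    have h3 : Tendsto (fun n => - J rho (fun y => H y (un n y)) ε x0) atTop
        (𝓝 (- J rho g ε x0)) := (J_tendsto integrable_rho hBg hglim ε x0).neg
    exact tendsto_nhds_unique h1 (h3.congr fun n => (h2 n).symm)
  rw [hl1, hl2, hNl]
  simp only [hg]
  ring

/-- strong maximum principle from the representation formula -/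
theorem pos_of_represent {Ω : Set (Eu d)} (hΩ : IsOpen Ω) (hconn : IsPreconnected Ω)
    {u g : Eu d → ℝ} {C : ℝ} (hB : BM u 1) (hBg : BM g C) (hu0 : ∀ x, 0 ≤ u x)
    (hg0 : ∀ x ∈ Ω, 0 ≤ g x) (hc : ContinuousOn u Ω)
    (hrep : ∀ x, ∀ ε > 0, closedBall x ε ⊆ Ω → u x = J rho u ε x + Npot 0 ε g x)
    (hpos : ∃ x ∈ Ω, 0 < u x) : ∀ x ∈ Ω, 0 < u x := by
  have hlow : ∀ x, ∀ ε > 0, closedBall x ε ⊆ Ω → J rho u ε x ≤ u x := by
    intro x ε hε hsub
    have h1 : Npot 0 ε g x = Npot 0 ε (fun y => max (g y) 0) x :=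
      Pw_congr (fun y hy => sig_eq_zero hy) hε.le fun y hy => (max_eq_left (hg0 y (hsub hy))).symm
    have hBg' : BM (fun y => max (g y) 0) C :=
      ⟨hBg.meas.max measurable_const, fun y => by
        rw [abs_of_nonneg (le_max_right _ _)]
        exact max_le ((le_abs_self _).trans (hBg.bd y)) ((abs_nonneg _).trans (hBg.bd y))⟩
    have h2 := Npot_mono (c := 0) hε (fun s _ => by simp) (BM_const 0) hBg'
      (fun y => le_max_right _ _) x
    rw [Npot_const, zero_mul, ← h1] at h2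
    have := hrep x ε hε hsub
    linarith
  have hopenP : IsOpen {x | x ∈ Ω ∧ 0 < u x} := by
    have := hc.isOpen_inter_preimage hΩ isOpen_Ioi (t := Ioi 0)
    exact this
  have hopenZ : IsOpen {x | x ∈ Ω ∧ u x = 0} := by
    rw [Metric.isOpen_iff]
    rintro x ⟨hx, hux⟩
    obtain ⟨r, hr, hrΩ⟩ := Metric.isOpen_iff.1 hΩ x hx
    set ε : ℝ := r / 2 with hεd
    have hε : 0 < ε := by positivity
    have hsub : closedBall x ε ⊆ Ω := (closedBall_subset_ball (by linarith)).trans hrΩ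
    refine ⟨ε, hε, fun y0 hy0 => ⟨hsub (ball_subset_closedBall hy0), ?_⟩⟩
    by_contra hne
    have hy0pos : 0 < u y0 := lt_of_le_of_ne (hu0 y0) (Ne.symm hne)
    have hJ := hlow x ε hε hsub
    rw [hux] at hJ
    have hcu : ContinuousAt u y0 :=
      hc.continuousAt (hΩ.mem_nhds (hsub (ball_subset_closedBall hy0)))
    have hnb : ∀ᶠ y in 𝓝 y0, 0 < u y := hcu.eventually (lt_mem_nhds hy0pos)
    have hJpos : 0 < J rho u ε x := by
      rw [J, integral_pos_iff_support_of_nonneg (fun y => smul_nonneg (hu0 _) (rho_nonneg y))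
        (hB.integrable_smul integrable_rho ε x)]
      set z : Eu d := ε⁻¹ • (y0 - x) with hz
      have hxz : x + ε • z = y0 := by
        rw [hz, smul_smul, mul_inv_cancel₀ hε.ne', one_smul, add_sub_cancel]
      have hz1 : ‖z‖ < 1 := by
        rw [mem_ball, dist_eq_norm] at hy0
        rw [hz, norm_smul, norm_inv, Real.norm_eq_abs, abs_of_pos hε, inv_mul_lt_iff₀ hε, mul_one]
        exact hy0
      have hev : ∀ᶠ y in 𝓝 z, u (x + ε • y) • rho y ≠ 0 := by
        have hc1 : Tendsto (fun y : Eu d => x + ε • y) (𝓝 z) (𝓝 y0) := by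
          have : Continuous (fun y : Eu d => x + ε • y) := by fun_prop
          have h := this.tendsto z
          rwa [hxz] at h
        have h1 : ∀ᶠ y in 𝓝 z, 0 < u (x + ε • y) := hc1.eventually hnb
        have h2 : ∀ᶠ y in 𝓝 z, ‖y‖ < 1 := (continuous_norm.tendsto z).eventually (gt_mem_nhds hz1)
        filter_upwards [h1, h2] with y hy1 hy2
        exact (mul_pos hy1 (rho_pos hy2)).ne'
      exact Measure.measure_pos_of_mem_nhds volume hev
    linarith
  intro x hx
  have hcover : Ω ⊆ {x | x ∈ Ω ∧ 0 < u x} ∪ {x | x ∈ Ω ∧ u x = 0} := by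
    intro y hy
    rcases (hu0 y).eq_or_lt with h | h
    · exact Or.inr ⟨hy, h.symm⟩
    · exact Or.inl ⟨hy, h⟩
  have hdisj : Disjoint {x | x ∈ Ω ∧ 0 < u x} {x | x ∈ Ω ∧ u x = 0} := by
    rw [Set.disjoint_left]
    rintro y ⟨_, h1⟩ ⟨_, h2⟩
    linarith
  obtain ⟨x1, hx1, hx1p⟩ := hpos
  have := hconn.subset_left_of_subset_union hopenP hopenZ hdisj hcover ⟨x1, hx1, ⟨hx1, hx1p⟩⟩
  exact (this hx).2


theorem LocallyLipschitz_mul {X : Type*} [PseudoEMetricSpace X] {f g : X → ℝ}
    (hf : LocallyLipschitz f) (hg : LocallyLipschitz g) : LocallyLipschitz (fun x => f x * g x) := by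
  have h1 : LocallyLipschitz (fun p : ℝ × ℝ => p.1 * p.2) :=
    (contDiff_fst.mul contDiff_snd : ContDiff ℝ 1 (fun p : ℝ × ℝ => p.1 * p.2)).locallyLipschitz
  exact h1.comp (hf.prodMk hg)

theorem dirichlet_exists (Ω : Set (Eu d)) (hΩ : IsOpen Ω)
    (hext : ∀ p ∈ frontier Ω, ∃ r0 > 0, ∃ c, dist p c = r0 ∧ Disjoint (ball c r0) Ω)
    (hconn : IsPreconnected Ω)
    (f : ℝ → ℝ) (K : ℝ) (hK : 0 < K) (hf : LocallyLipschitz f)
    (hmono : MonotoneOn (fun t => f t + K * t) (Icc 0 1)) (hf0 : ∀ t ∈ Icc (0:ℝ) 1, 0 ≤ f t)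
    (hf1 : f 1 = 0)
    (V S : Eu d → ℝ) (hV : LocallyLipschitz V) (hS : LocallyLipschitz S)
    (hV0 : ∀ x, 0 ≤ V x) (hVS : ∀ x, V x ≤ S x) (hS1 : ∀ x, S x ≤ 1)
    (hVout : ∀ x ∉ Ω, V x = 0)
    (hsub : ∀ x ∈ Ω, 0 < V x → ContDiffAt ℝ 2 V x ∧ - lap V x ≤ f (V x))
    (hsup : ∀ x ∈ Ω, S x < 1 → ContDiffAt ℝ 2 S x ∧ f (S x) ≤ - lap S x)
    (hpos : ∃ x, 0 < V x) :
    ∃ u : Eu d → ℝ, ContDiffOn ℝ 2 u Ω ∧ ContinuousOn u (closure Ω) ∧
      (∀ x ∈ frontier Ω, u x = 0) ∧ (∀ x ∈ Ω, 0 < u x) ∧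
      (∀ x ∈ Ω, V x ≤ u x ∧ u x ≤ S x) ∧ (∀ x ∈ Ω, - lap u x = f (u x)) := by
  have hne : Ω.Nonempty := by
    obtain ⟨x, hx⟩ := hpos
    by_contra h
    rw [not_nonempty_iff_eq_empty] at h
    have := hVout x (by rw [h]; exact notMem_empty x)
    linarith
  -- truncation
  set T : Eu d → ℝ → ℝ := fun x t => max (V x) (min t (S x)) with hT
  have hT0 : ∀ x t, 0 ≤ T x t := fun x t => (hV0 x).trans (le_max_left _ _)
  have hT1 : ∀ x t, T x t ≤ 1 := fun x t =>
    max_le ((hVS x).trans (hS1 x)) ((min_le_right _ _).trans (hS1 x))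
  have hTm : ∀ x, Monotone (T x) := fun x a b hab =>
    max_le_max le_rfl (min_le_min hab le_rfl)
  have hTL : LocallyLipschitz (fun p : Eu d × ℝ => T p.1 p.2) := by
    have h1 : LocallyLipschitz (fun p : Eu d × ℝ => p.1) := LipschitzWith.prod_fst.locallyLipschitz
    have h2 : LocallyLipschitz (fun p : Eu d × ℝ => p.2) := LipschitzWith.prod_snd.locallyLipschitz
    exact (hV.comp h1).max (h2.min (hS.comp h1))
  set H : Eu d → ℝ → ℝ := fun x t => f (T x t) + K * T x t with hH
  have hHL : LocallyLipschitz (fun p : Eu d × ℝ => H p.1 p.2) := by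
    refine (hf.comp hTL).add ?_
    exact LocallyLipschitz_mul (LocallyLipschitz.const K) hTL
  have hHm : ∀ x, Monotone (H x) := fun x a b hab =>
    hmono ⟨hT0 x a, hT1 x a⟩ ⟨hT0 x b, hT1 x b⟩ (hTm x hab)
  have hH0 : ∀ x t, 0 ≤ H x t := fun x t =>
    add_nonneg (hf0 _ ⟨hT0 x t, hT1 x t⟩) (mul_nonneg hK.le (hT0 x t))
  have hH1 : ∀ x t, H x t ≤ K := by
    intro x t
    have := hmono ⟨hT0 x t, hT1 x t⟩ (right_mem_Icc.2 zero_le_one) (hT1 x t)
    simp only [hf1, mul_one, zero_add] at this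
    exact this
  -- penalisation
  set κ : Eu d → ℝ := fun x => min 1 (infDist x Ω) with hκ
  have hκ0 : ∀ x, 0 ≤ κ x := fun x => le_min zero_le_one infDist_nonneg
  have hκ1 : ∀ x, κ x ≤ 1 := fun x => min_le_left _ _
  have hκL : LocallyLipschitz κ :=
    (LocallyLipschitz.const 1).min (lipschitz_infDist_pt Ω).locallyLipschitz
  have hκΩ : ∀ x ∈ Ω, κ x = 0 := by
    intro x hx
    simp only [hκ, infDist_zero_of_mem hx]
    norm_num
  set Gn : ℕ → Eu d → ℝ → ℝ := fun n x t => H x t + n * ((1 - κ x) * t) with hGn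
  have hGL : ∀ n, LocallyLipschitz (fun p : Eu d × ℝ => Gn n p.1 p.2) := by
    intro n
    have h1 : LocallyLipschitz (fun p : Eu d × ℝ => p.1) := LipschitzWith.prod_fst.locallyLipschitz
    have h2 : LocallyLipschitz (fun p : Eu d × ℝ => p.2) := LipschitzWith.prod_snd.locallyLipschitz
    refine hHL.add (LocallyLipschitz_mul (LocallyLipschitz.const _) (LocallyLipschitz_mul ?_ h2))
    exact (LocallyLipschitz.const 1).sub (hκL.comp h1)
  have hex : ∀ n : ℕ, ∃ u : Eu d → ℝ, ContDiff ℝ 2 u ∧ (∀ x, 0 ≤ u x ∧ u x ≤ 1) ∧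
      (∀ x, (K + n) * u x - lap u x = Gn n x (u x)) ∧
      ∀ U : Eu d → ℝ, ContDiff ℝ 2 U → (∀ x, 0 ≤ U x) →
        (∀ x, Gn n x (U x) ≤ (K + n) * U x - lap U x) → ∀ x, u x ≤ U x := by
    intro n
    have hn : (0 : ℝ) ≤ n := Nat.cast_nonneg n
    refine glob_exists (K + n) (by positivity) (Gn n) (hGL n) ?_ ?_ ?_
    · intro x a b hab
      have h1 := hHm x hab
      have h2 : (1 - κ x) * a ≤ (1 - κ x) * b :=
        mul_le_mul_of_nonneg_left hab (by linarith [hκ1 x])
      simp only [hGn]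
      nlinarith [mul_le_mul_of_nonneg_left h2 hn]
    · intro x t ht
      have h2 : 0 ≤ (1 - κ x) * t := mul_nonneg (by linarith [hκ1 x]) ht
      simp only [hGn]
      nlinarith [hH0 x t, mul_nonneg hn h2]
    · intro x t ht
      have h2 : (1 - κ x) * t ≤ 1 := by nlinarith [hκ0 x, hκ1 x]
      simp only [hGn]
      nlinarith [hH1 x t, mul_le_mul_of_nonneg_left h2 hn]
  choose un hun2 hun01 huneq hunmin using hex
  have hanti : ∀ n x, un (n + 1) x ≤ un n x := by
    intro n
    refine hunmin (n + 1) (un n) (hun2 n) (fun x => (hun01 n x).1) fun x => ?_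
    have h1 := huneq n x
    have h2 := (hun01 n x).1
    have h3 := hκ0 x
    simp only [hGn] at h1 ⊢
    push_cast
    nlinarith [mul_nonneg h3 h2]
  set u : Eu d → ℝ := fun x => ⨅ n, un n x with hu
  have hbdd : ∀ x, BddBelow (range fun n => un n x) := fun x =>
    ⟨0, by rintro _ ⟨n, rfl⟩; exact (hun01 n x).1⟩
  have hlim : ∀ x, Tendsto (fun n => un n x) atTop (𝓝 (u x)) := fun x =>
    tendsto_atTop_ciInf (antitone_nat_of_succ_le fun n => hanti n x) (hbdd x)
  have hule : ∀ n x, u x ≤ un n x := fun n x => ciInf_le (hbdd x) n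
  have hu0 : ∀ x, 0 ≤ u x := fun x => ge_of_tendsto (hlim x)
    (Eventually.of_forall fun n => (hun01 n x).1)
  have hu1 : ∀ x, u x ≤ 1 := fun x => (hule 0 x).trans (hun01 0 x).2
  -- interior equation
  have hHL' : LocallyLipschitz (fun p : Eu d × ℝ => H p.1 p.2 - K * p.2) := by
    have h2 : LocallyLipschitz (fun p : Eu d × ℝ => p.2) := LipschitzWith.prod_snd.locallyLipschitz
    exact hHL.sub (LocallyLipschitz_mul (LocallyLipschitz.const K) h2)
  obtain ⟨hreg, hrep, hBg, hBu⟩ := limit_regular hΩ (fun x t => H x t - K * t) hHL' (C := K) un u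
    hun2 (fun n x => by rw [abs_of_nonneg (hun01 n x).1]; exact (hun01 n x).2)
    (fun n x => by
      have h1 := hun01 n x
      rw [abs_le]
      constructor
      · nlinarith [hH0 x (un n x), h1.2]
      · nlinarith [hH1 x (un n x), h1.1])
    (fun n x hx => by
      have h1 := huneq n x
      simp only [hGn, hκΩ x hx, sub_zero, one_mul] at h1
      linarith) hlim
  have huc : ContinuousOn u Ω := fun x hx => (hreg x hx).1.continuousAt.continuousWithinAt
  -- boundary behaviour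
  have hbar : ∀ p ∈ frontier Ω, ∀ η > 0, ∀ᶠ x in 𝓝 p, u x < η := by
    intro p hp η hη
    obtain ⟨r0, hr0, c, hpc, hdis⟩ := hext p hp
    obtain ⟨N, hN, B, hB2, hB0, hBp, hBs⟩ := barrier Ω hne p c r0 hr0 hpc hdis K hK η hη
    obtain ⟨n, hn⟩ := exists_nat_ge N
    have hle : ∀ x, un n x ≤ B x := by
      refine hunmin n B hB2 hB0 fun x => ?_
      have h1 := hBs x
      have h2 : N * κ x * B x ≤ n * κ x * B x :=
        mul_le_mul_of_nonneg_right (mul_le_mul_of_nonneg_right hn (hκ0 x)) (hB0 x)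
      have h3 := hH1 x (B x)
      simp only [hGn]
      simp only [hκ] at h2 ⊢
      nlinarith
    have : ∀ᶠ x in 𝓝 p, B x < η := hB2.continuous.continuousAt.eventually (gt_mem_nhds hBp)
    filter_upwards [this] with x hx
    exact ((hule n x).trans (hle x)).trans_lt hx
  have hup : ∀ p ∈ frontier Ω, u p = 0 := by
    intro p hp
    refine le_antisymm (le_of_forall_pos_lt_add fun η hη => ?_) (hu0 p)
    rw [zero_add]
    exact (hbar p hp η hη).self_of_nhds
  have hcp : ∀ p ∈ frontier Ω, ContinuousAt u p := by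
    intro p hp
    rw [Metric.continuousAt_iff']
    intro η hη
    filter_upwards [hbar p hp η hη] with x hx
    rw [hup p hp, Real.dist_eq, sub_zero, abs_of_nonneg (hu0 x)]
    exact hx
  have hclo : ContinuousOn u (closure Ω) := by
    intro p hp
    by_cases hpΩ : p ∈ Ω
    · exact (hreg p hpΩ).1.continuousAt.continuousWithinAt
    · exact (hcp p ⟨hp, by rwa [hΩ.interior_eq]⟩).continuousWithinAt
  -- comparison
  have hSle : ∀ x ∈ Ω, u x - S x ≤ 0 := by
    refine max_principle Ω hΩ K 1 hK (fun x => u x - S x) (huc.sub hS.continuous.continuousOn)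
      (fun x _ => by linarith [hu1 x, hV0 x, hVS x]) ?_ ?_
    · intro p hp η hη
      refine nhdsWithin_le_nhds ?_
      filter_upwards [hbar p hp η hη] with x hx
      linarith [hV0 x, hVS x]
    · intro x hx hpos
      have hS1' : S x < 1 := by linarith [hu1 x]
      obtain ⟨h1, h2⟩ := hsup x hx hS1'
      obtain ⟨h3, h4⟩ := hreg x hx
      refine ⟨h3.sub h1, ?_⟩
      rw [lap_sub h3 h1]
      have hTx : T x (u x) = S x := by
        simp only [hT]
        rw [min_eq_right (by linarith), max_eq_right (hVS x)]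
      simp only [hH, hTx] at h4
      linarith
  have hVle : ∀ x ∈ Ω, V x - u x ≤ 0 := by
    refine max_principle Ω hΩ K 1 hK (fun x => V x - u x) (hV.continuous.continuousOn.sub huc)
      (fun x _ => by linarith [hu0 x, hVS x, hS1 x]) ?_ ?_
    · intro p hp η hη
      have hpV : V p = 0 := hVout p (fun h => hp.2 (by rwa [hΩ.interior_eq]))
      have : ∀ᶠ x in 𝓝 p, V x < η := hV.continuous.continuousAt.eventually
        (gt_mem_nhds (by rw [hpV]; exact hη))
      refine nhdsWithin_le_nhds ?_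
      filter_upwards [this] with x hx
      linarith [hu0 x]
    · intro x hx hpos
      have hVx : 0 < V x := by linarith [hu0 x]
      obtain ⟨h1, h2⟩ := hsub x hx hVx
      obtain ⟨h3, h4⟩ := hreg x hx
      refine ⟨h1.sub h3, ?_⟩
      rw [lap_sub h1 h3]
      have hTx : T x (u x) = V x := by
        simp only [hT]
        rw [max_eq_left]
        exact (min_le_left _ _).trans (by linarith)
      simp only [hH, hTx] at h4
      linarith
  have hfin : ∀ x ∈ Ω, H x (u x) - K * u x = f (u x) := by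
    intro x hx
    have h1 := hSle x hx
    have h2 := hVle x hx
    have hTx : T x (u x) = u x := by
      simp only [hT]
      rw [min_eq_left (by linarith), max_eq_right (by linarith)]
    simp only [hH, hTx]
    ring
  have hposΩ : ∀ x ∈ Ω, 0 < u x := by
    refine pos_of_represent hΩ hconn hBu hBg hu0 (fun x hx => ?_) huc hrep ?_
    · rw [hfin x hx]
      exact hf0 _ ⟨hu0 x, hu1 x⟩
    · obtain ⟨x, hx⟩ := hpos
      have hxΩ : x ∈ Ω := by
        by_contra h
        have := hVout x h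
        linarith
      exact ⟨x, hxΩ, by linarith [hVle x hxΩ]⟩
  refine ⟨u, fun x hx => (hreg x hx).1.contDiffWithinAt, hclo, hup, hposΩ, fun x hx => ?_,
    fun x hx => ?_⟩
  · exact ⟨by linarith [hVle x hx], by linarith [hSle x hx]⟩
  · rw [(hreg x hx).2, hfin x hx]

end Pool.Agent.H314.Dir
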