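import Pool.Agent.H314.Dir.Defs

set_option autoImplicit false
open MeasureTheory Filter Topology Set Metric

namespace Pool.Agent.H314.Dir

/-- The ambient space: coordinate `0` is `z`, coordinates `1,…,8` are `x`, the last one is `y`. -/
abbrev EX : Type := EuclideanSpace ℝ (Fin (9 + 1))

/-- `q = 10^6 + |x|^2`. -/
noncomputable def qf (X : EX) : ℝ := 1000000 + ∑ i : Fin 8, (X.ofLp (Fin.castSucc i.succ)) ^ 2

/-- the last coordinate -/
noncomputable def yf (X : EX) : ℝ := X.ofLp (Fin.last 9)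

/-- `cos (π z / 2)` -/
noncomputable def Cf (X : EX) : ℝ := Real.cos (Real.pi / 2 * X.ofLp 0)

/-- `θ = (y + q) exp (-√q)`. -/
noncomputable def thf (X : EX) : ℝ := (yf X + qf X) * Real.exp (-Real.sqrt (qf X))

/-- Defining function of the domain: `Ω = {FF < 0}`. -/
noncomputable def FF (X : EX) : ℝ := -(Cf X + thf X)

/-- `b = 1/q + y²/q²` -/
noncomputable def bf (X : EX) : ℝ := (qf X)⁻¹ + (yf X) ^ 2 * ((qf X) ^ 2)⁻¹

/-- the subsolution -/
noncomputable def Vf (c : ℝ) (X : EX) : ℝ := c * max 0 (Cf X) * max 0 (1 - bf X)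

/-- `π² / 4` -/
noncomputable def lam : ℝ := Real.pi ^ 2 / 4

/-- the reaction -/
noncomputable def ff (t : ℝ) : ℝ := lam * (t - 4 * (max 0 (t - 1 / 2)) ^ 2)

/-- `g = b / q` -/
noncomputable def gf (X : EX) : ℝ := bf X / qf X

/-- the smooth part of the supersolution -/
noncomputable def S0 (X : EX) : ℝ := Cf X * (1 / 4 + bf X) + (1 - (Cf X) ^ 2) * gf X

/-- the supersolution -/
noncomputable def Sf (X : EX) : ℝ :=
  max (min 1 (S0 X)) (max 0 (min 1 (16 * (qf X) ^ 2 * thf X - 1)))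

end Pool.Agent.H314.Dir
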