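import Pool.Agent.H314.Dir.Dom

set_option autoImplicit false
open MeasureTheory Filter Topology Set Metric

namespace Pool.Agent.H314.Dir

namespace DF

theorem qf_ge (X : EX) : 1000000 ≤ qf X := by
  unfold qf
  have : 0 ≤ ∑ i : Fin 8, (X.ofLp (Fin.castSucc i.succ)) ^ 2 :=
    Finset.sum_nonneg (fun i _ => sq_nonneg _)
  linarith

theorem qf_pos (X : EX) : 0 < qf X := lt_of_lt_of_le (by norm_num) (qf_ge X)

theorem contDiff_coord {n : WithTop ℕ∞} (i : Fin (9+1)) : ContDiff ℝ n (fun X : EX => X.ofLp i) := by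
  fun_prop

theorem contDiff_qf {n : WithTop ℕ∞} : ContDiff ℝ n qf := by
  unfold qf
  fun_prop

theorem contDiff_yf {n : WithTop ℕ∞} : ContDiff ℝ n yf := by
  unfold yf
  fun_prop

theorem contDiff_Cf {n : WithTop ℕ∞} : ContDiff ℝ n Cf := by
  unfold Cf
  fun_prop

/-- TARGET 1 -/
theorem contDiff_FF : ContDiff ℝ 3 FF := by
  unfold FF thf
  have h1 : ContDiff ℝ 3 (fun X => Real.sqrt (qf X)) :=
    contDiff_qf.sqrt (fun X => (qf_pos X).ne')
  exact ((contDiff_Cf).add (((contDiff_yf).add contDiff_qf).mul (h1.neg.exp))).neg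

/-- TARGET 4 (both sides, the domain is an epigraph) -/
theorem FF_neg_iff (X : EX) : FF X < 0 ↔
    (fun w : Fin 9 → ℝ => -Real.cos (Real.pi / 2 * w 0) *
      Real.exp (Real.sqrt (1000000 + ∑ i : Fin 8, (w i.succ) ^ 2)) -
      (1000000 + ∑ i : Fin 8, (w i.succ) ^ 2)) (fun i => X.ofLp (Fin.castSucc i)) <
      X.ofLp (Fin.last 9) := by
  have hq : (1000000 + ∑ i : Fin 8, (X.ofLp (Fin.castSucc i.succ)) ^ 2) = qf X := rfl
  simp only [hq]
  have hC : Real.cos (Real.pi / 2 * X.ofLp (Fin.castSucc 0)) = Cf X := rfl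
  have hy : X.ofLp (Fin.last 9) = yf X := rfl
  rw [hC, hy]
  unfold FF thf
  have hE : 0 < Real.exp (-Real.sqrt (qf X)) := Real.exp_pos _
  have hEE : Real.exp (Real.sqrt (qf X)) * Real.exp (-Real.sqrt (qf X)) = 1 := by
    rw [← Real.exp_add]; simp
  have hE' : 0 < Real.exp (Real.sqrt (qf X)) := Real.exp_pos _
  set e := Real.exp (Real.sqrt (qf X))
  set f := Real.exp (-Real.sqrt (qf X))
  constructor
  · intro h
    have h1 : 0 < Cf X + (yf X + qf X) * f := by linarith
    have h2 : 0 < (Cf X + (yf X + qf X) * f) * e := mul_pos h1 hE'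
    have h3 : (Cf X + (yf X + qf X) * f) * e = Cf X * e + (yf X + qf X) * (e * f) := by ring
    rw [h3, hEE] at h2
    linarith
  · intro h
    have h1 : 0 < Cf X * e + (yf X + qf X) := by linarith
    have h2 : 0 < (Cf X * e + (yf X + qf X)) * f := mul_pos h1 hE
    have h3 : (Cf X * e + (yf X + qf X)) * f = Cf X * (e * f) + (yf X + qf X) * f := by ring
    rw [h3, hEE] at h2
    linarith

/-- TARGET 5 -/
theorem isPreconnected_Omega : IsPreconnected {X : EX | FF X < 0} := by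
  set φ : (Fin 9 → ℝ) → ℝ := (fun w : Fin 9 → ℝ => -Real.cos (Real.pi / 2 * w 0) *
      Real.exp (Real.sqrt (1000000 + ∑ i : Fin 8, (w i.succ) ^ 2)) -
      (1000000 + ∑ i : Fin 8, (w i.succ) ^ 2)) with hφ
  have hφc : Continuous φ := by
    rw [hφ]
    fun_prop
  let g : (Fin 9 → ℝ) × ℝ → EX := fun u => WithLp.toLp 2 (Fin.snoc (α := fun _ => ℝ) u.1 (φ u.1 + u.2))
  have hg : Continuous g := by
    apply (PiLp.continuous_toLp 2 _).comp
    apply continuous_pi
    intro i
    refine Fin.lastCases ?_ (fun j => ?_) i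
    · simp only [Fin.snoc_last]
      exact (hφc.comp continuous_fst).add continuous_snd
    · simp only [Fin.snoc_castSucc]
      exact (continuous_apply j).comp continuous_fst
  have himg : {X : EX | FF X < 0} = g '' (univ ×ˢ Ioi 0) := by
    ext X
    constructor
    · intro hX
      have h := (FF_neg_iff X).1 hX
      refine ⟨(fun i => X.ofLp (Fin.castSucc i), X.ofLp (Fin.last 9) - φ (fun i => X.ofLp (Fin.castSucc i))), ⟨mem_univ _, ?_⟩, ?_⟩
      · simp only [mem_Ioi, sub_pos]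
        exact h
      · simp only [g]
        ext i
        refine Fin.lastCases ?_ (fun j => ?_) i
        · rw [PiLp.toLp_apply, Fin.snoc_last]
          ring
        · rw [PiLp.toLp_apply, Fin.snoc_castSucc]
    · rintro ⟨⟨w, s⟩, ⟨-, hs⟩, rfl⟩
      have hs' : 0 < s := hs
      rw [Set.mem_ofPred_eq, FF_neg_iff]
      simp only [g, Fin.snoc_last, Fin.snoc_castSucc]
      have : φ w < φ w + s := by linarith
      exact this
  rw [himg]
  exact (isPreconnected_univ.prod isPreconnected_Ioi).image g hg.continuousOn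

/-- TARGET 6 -/
theorem frontier_subset : frontier {X : EX | FF X < 0} ⊆ {X | FF X = 0} :=
  frontier_lt_subset_eq contDiff_FF.continuous continuous_const


/-- directional derivative along a line -/
theorem lower_of_hasDerivAt {p v : EX} {d : ℝ} (h : HasDerivAt (fun s : ℝ => FF (p + s • v)) d 0) :
    |d| ≤ ‖fderiv ℝ FF p‖ * ‖v‖ := by
  have h1 : HasFDerivAt FF (fderiv ℝ FF p) p :=
    ((contDiff_FF.differentiable (by norm_num)) p).hasFDerivAt
  have h2 : HasDerivAt (fun s : ℝ => p + s • v) v 0 := by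
    have := ((hasDerivAt_id (0:ℝ)).smul_const v).const_add p
    simpa using this
  have h3 : HasDerivAt (fun s : ℝ => FF (p + s • v)) (fderiv ℝ FF p v) 0 := by
    have h1' : HasFDerivAt FF (fderiv ℝ FF p) (p + (0:ℝ) • v) := by simpa using h1
    exact h1'.comp_hasDerivAt (0:ℝ) h2
  rw [h.unique h3]
  exact (fderiv ℝ FF p).le_opNorm v

theorem coord (p v : EX) (s : ℝ) (i : Fin (9+1)) :
    (p + s • v).ofLp i = p.ofLp i + s * v.ofLp i := rfl

theorem mid_ne_zero (i : Fin 8) : (Fin.castSucc i.succ : Fin (9+1)) ≠ 0 := by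
  intro h
  have := congrArg Fin.val h
  simp at this

theorem mid_ne_last (i : Fin 8) : (Fin.castSucc i.succ : Fin (9+1)) ≠ Fin.last 9 :=
  (Fin.castSucc_lt_last _).ne

theorem single_self (i : Fin (9+1)) : (EuclideanSpace.single i (1:ℝ) : EX).ofLp i = 1 := by
  simp

theorem single_ne {i j : Fin (9+1)} (h : j ≠ i) : (EuclideanSpace.single i (1:ℝ) : EX).ofLp j = 0 := by
  simp [h]

theorem qf_line (p v : EX) (s : ℝ) : qf (p + s • v) =
    1000000 + ∑ i : Fin 8, (p.ofLp (Fin.castSucc i.succ) + s * v.ofLp (Fin.castSucc i.succ)) ^ 2 := rfl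

theorem yf_line (p v : EX) (s : ℝ) : yf (p + s • v) = yf p + s * yf v := rfl

theorem Cf_line (p v : EX) (s : ℝ) : Cf (p + s • v) = Real.cos (Real.pi / 2 * (p.ofLp 0 + s * v.ofLp 0)) := rfl

theorem FF_line (p v : EX) (s : ℝ) : FF (p + s • v) =
    -(Real.cos (Real.pi / 2 * (p.ofLp 0 + s * v.ofLp 0)) + (yf p + s * yf v + qf (p + s • v)) *
      Real.exp (-Real.sqrt (qf (p + s • v)))) := rfl

theorem der_z (p : EX) : HasDerivAt (fun s : ℝ => FF (p + s • EuclideanSpace.single 0 (1:ℝ)))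
    (Real.pi / 2 * Real.sin (Real.pi / 2 * p.ofLp 0)) 0 := by
  have e : ∀ s : ℝ, FF (p + s • EuclideanSpace.single 0 (1:ℝ)) =
      -(Real.cos (Real.pi / 2 * (p.ofLp 0 + s)) + thf p) := by
    intro s
    have hq : qf (p + s • EuclideanSpace.single 0 (1:ℝ)) = qf p := by
      rw [qf_line]
      unfold qf
      congr 1
      apply Finset.sum_congr rfl
      intro i _
      rw [single_ne (mid_ne_zero i)]
      ring
    have hy : yf (EuclideanSpace.single 0 (1:ℝ)) = 0 := by
      unfold yf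
      exact single_ne (by decide)
    rw [FF_line, hq, hy, single_self]
    unfold thf
    ring_nf
  simp_rw [e]
  have h1 : HasDerivAt (fun s : ℝ => Real.pi / 2 * (p.ofLp 0 + s)) (Real.pi / 2) 0 := by
    have := ((hasDerivAt_id (0:ℝ)).const_add (p.ofLp 0)).const_mul (Real.pi / 2)
    simpa using this
  have h2 := ((h1.cos).add_const (thf p)).neg
  refine h2.congr_deriv ?_
  rw [add_zero]
  ring

theorem der_y (p : EX) : HasDerivAt (fun s : ℝ => FF (p + s • EuclideanSpace.single (Fin.last 9) (1:ℝ)))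
    (-Real.exp (-Real.sqrt (qf p))) 0 := by
  have e : ∀ s : ℝ, FF (p + s • EuclideanSpace.single (Fin.last 9) (1:ℝ)) =
      -(Cf p + (yf p + s + qf p) * Real.exp (-Real.sqrt (qf p))) := by
    intro s
    have hq : qf (p + s • EuclideanSpace.single (Fin.last 9) (1:ℝ)) = qf p := by
      rw [qf_line]
      unfold qf
      congr 1
      apply Finset.sum_congr rfl
      intro i _
      rw [single_ne (mid_ne_last i)]
      ring
    have hy : yf (EuclideanSpace.single (Fin.last 9) (1:ℝ)) = 1 := by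
      unfold yf
      exact single_self _
    rw [FF_line, hq, hy, single_ne (by decide : (0 : Fin (9+1)) ≠ Fin.last 9)]
    unfold Cf
    ring_nf
  simp_rw [e]
  have h1 : HasDerivAt (fun s : ℝ => yf p + s + qf p) 1 0 := by
    have := ((hasDerivAt_id (0:ℝ)).const_add (yf p)).add_const (qf p)
    simpa using this
  have h2 := ((h1.mul_const (Real.exp (-Real.sqrt (qf p)))).const_add (Cf p)).neg
  refine h2.congr_deriv ?_
  rw [one_mul]

/-- the `x` part of a vector -/
noncomputable def xpart (p : EX) : EX :=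
  WithLp.toLp 2 (fun j => if j = 0 then 0 else if j = Fin.last 9 then 0 else p.ofLp j)

theorem xpart_zero (p : EX) : (xpart p).ofLp 0 = 0 := by
  show (if (0 : Fin (9+1)) = 0 then (0:ℝ) else if (0 : Fin (9+1)) = Fin.last 9 then 0 else p.ofLp 0) = 0
  rw [if_pos rfl]
theorem xpart_last (p : EX) : (xpart p).ofLp (Fin.last 9) = 0 := by
  show (if (Fin.last 9 : Fin (9+1)) = 0 then (0:ℝ) else if (Fin.last 9 : Fin (9+1)) = Fin.last 9 then 0 else p.ofLp (Fin.last 9)) = 0
  rw [if_neg (by decide), if_pos rfl]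
theorem xpart_mid (p : EX) (i : Fin 8) :
    (xpart p).ofLp (Fin.castSucc i.succ) = p.ofLp (Fin.castSucc i.succ) := by
  show (if (Fin.castSucc i.succ : Fin (9+1)) = 0 then (0:ℝ) else if (Fin.castSucc i.succ : Fin (9+1)) = Fin.last 9 then 0 else p.ofLp (Fin.castSucc i.succ)) = _
  rw [if_neg (mid_ne_zero i), if_neg (mid_ne_last i)]

theorem norm_xpart_sq (p : EX) : ‖xpart p‖ ^ 2 = qf p - 1000000 := by
  rw [EuclideanSpace.norm_sq_eq, Fin.sum_univ_castSucc, Fin.sum_univ_succ]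
  rw [xpart_last]
  have : (xpart p).ofLp (Fin.castSucc 0) = 0 := xpart_zero p
  rw [this]
  unfold qf
  have : ∀ i : Fin 8, ‖(xpart p).ofLp (Fin.castSucc i.succ)‖ ^ 2 = (p.ofLp (Fin.castSucc i.succ)) ^ 2 := by
    intro i
    rw [xpart_mid, Real.norm_eq_abs, sq_abs]
  rw [Finset.sum_congr rfl (fun i _ => this i)]
  norm_num

theorem der_x (p : EX) : HasDerivAt (fun s : ℝ => FF (p + s • xpart p))
    ((qf p - 1000000) / Real.sqrt (qf p) * (thf p - 2 * Real.sqrt (qf p) * Real.exp (-Real.sqrt (qf p)))) 0 := by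
  have e : ∀ s : ℝ, FF (p + s • xpart p) =
      -(Cf p + (yf p + (1000000 + (1 + s)^2 * (qf p - 1000000))) *
        Real.exp (-Real.sqrt (1000000 + (1 + s)^2 * (qf p - 1000000)))) := by
    intro s
    have hq : qf (p + s • xpart p) = 1000000 + (1 + s)^2 * (qf p - 1000000) := by
      rw [qf_line]
      unfold qf
      rw [add_sub_cancel_left, Finset.mul_sum]
      congr 1
      apply Finset.sum_congr rfl
      intro i _
      rw [xpart_mid]
      ring
    have hy : yf (xpart p) = 0 := xpart_last p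
    rw [FF_line, hq, hy, xpart_zero]
    unfold Cf
    ring_nf
  simp_rw [e]
  have hQ : HasDerivAt (fun s : ℝ => 1000000 + (1 + s)^2 * (qf p - 1000000)) (2 * (qf p - 1000000)) 0 := by
    have h0 : HasDerivAt (fun s : ℝ => 1 + s) 1 0 := by
      simpa using (hasDerivAt_id (0:ℝ)).const_add 1
    have := (((h0.pow 2).mul_const (qf p - 1000000)).const_add 1000000)
    simpa using this
  have hQ0 : 1000000 + (1 + (0:ℝ))^2 * (qf p - 1000000) = qf p := by ring
  have hS := hQ.sqrt (by rw [hQ0]; exact (qf_pos p).ne')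
  have hE := hS.neg.exp
  have hY := hQ.const_add (yf p)
  have hall := ((hY.mul hE).const_add (Cf p)).neg
  refine hall.congr_deriv ?_
  have ht : 0 < Real.sqrt (qf p) := Real.sqrt_pos.2 (qf_pos p)
  simp only [Pi.neg_apply, hQ0]
  unfold thf
  field_simp
  ring

theorem grad_FF : ∃ c : ℝ, 0 < c ∧ ∀ p, FF p = 0 → c ≤ ‖fderiv ℝ FF p‖ := by
  refine ⟨min (Real.exp (-Real.sqrt 2000000)) (1/5), lt_min (Real.exp_pos _) (by norm_num), ?_⟩
  intro p hp
  have ht : 0 < Real.sqrt (qf p) := Real.sqrt_pos.2 (qf_pos p)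
  have ht2 : Real.sqrt (qf p) ^ 2 = qf p := Real.sq_sqrt (qf_pos p).le
  have ht1000 : 1000 ≤ Real.sqrt (qf p) := by
    apply Real.le_sqrt_of_sq_le
    have := qf_ge p
    linarith
  -- small number
  have hsmall : 2 * Real.sqrt (qf p) * Real.exp (-Real.sqrt (qf p)) ≤ 1/100 := by
    have h1 : Real.sqrt (qf p) ^ 2 / 2 ≤ Real.exp (Real.sqrt (qf p)) := by
      have := Real.pow_div_factorial_le_exp (Real.sqrt (qf p)) ht.le 2
      simpa using this
    rw [Real.exp_neg]
    rw [← div_eq_mul_inv, div_le_iff₀ (Real.exp_pos _)]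
    nlinarith
  have hsmall0 : 0 ≤ 2 * Real.sqrt (qf p) * Real.exp (-Real.sqrt (qf p)) := by positivity
  have hC : Cf p = - thf p := by
    unfold FF at hp
    linarith
  have hz := lower_of_hasDerivAt (der_z p)
  have hy := lower_of_hasDerivAt (der_y p)
  have hx := lower_of_hasDerivAt (der_x p)
  have hn0 : ‖(EuclideanSpace.single 0 (1:ℝ) : EX)‖ = 1 := by simp
  have hn9 : ‖(EuclideanSpace.single (Fin.last 9) (1:ℝ) : EX)‖ = 1 := by simp
  rw [hn0, mul_one] at hz
  rw [hn9, mul_one] at hy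
  by_cases hc : |Cf p| ≤ 1/2
  · -- z derivative is large
    apply le_trans (min_le_right _ _)
    refine le_trans ?_ hz
    have hs : Real.sin (Real.pi / 2 * p.ofLp 0) ^ 2 = 1 - Cf p ^ 2 := by
      unfold Cf
      have := Real.sin_sq_add_cos_sq (Real.pi / 2 * p.ofLp 0)
      linarith
    have hc2 : Cf p ^ 2 ≤ 1/4 := by
      have := abs_le.1 hc
      nlinarith
    have habs : 1/2 ≤ |Real.sin (Real.pi / 2 * p.ofLp 0)| := by
      by_contra hlt
      push Not at hlt
      have h2 := sq_abs (Real.sin (Real.pi / 2 * p.ofLp 0))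
      have h3 := abs_nonneg (Real.sin (Real.pi / 2 * p.ofLp 0))
      nlinarith
    rw [abs_mul, abs_of_pos (by positivity : 0 < Real.pi / 2)]
    have hpi := Real.pi_gt_three
    nlinarith [abs_nonneg (Real.sin (Real.pi / 2 * p.ofLp 0))]
  · push Not at hc
    by_cases hq : qf p ≤ 2000000
    · apply le_trans (min_le_left _ _)
      refine le_trans ?_ hy
      rw [abs_neg, abs_of_pos (Real.exp_pos _)]
      apply Real.exp_le_exp.2
      have := Real.sqrt_le_sqrt hq
      linarith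
    · push Not at hq
      apply le_trans (min_le_right _ _)
      have hth : 1/2 < |thf p| := by
        rw [hC, abs_neg] at hc
        exact hc
      have hd : 49/100 ≤ |thf p - 2 * Real.sqrt (qf p) * Real.exp (-Real.sqrt (qf p))| := by
        have h1 := abs_sub_abs_le_abs_sub (thf p) (2 * Real.sqrt (qf p) * Real.exp (-Real.sqrt (qf p)))
        rw [abs_of_nonneg hsmall0] at h1
        linarith
      have hnx := norm_xpart_sq p
      set N := ‖xpart p‖ with hN
      set t := Real.sqrt (qf p) with htdef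
      have hN0 : 0 ≤ N := norm_nonneg _
      have hNt : t ≤ 2 * N := by
        nlinarith
      have hNpos : 0 < N := by linarith
      rw [abs_mul, ← hnx, abs_of_pos (by positivity : 0 < N ^ 2 / t)] at hx
      have h5 : N / t * |thf p - 2 * t * Real.exp (-t)| ≤ ‖fderiv ℝ FF p‖ := by
        have h6 : N * (N / t * |thf p - 2 * t * Real.exp (-t)|) ≤ N * ‖fderiv ℝ FF p‖ := by
          calc N * (N / t * |thf p - 2 * t * Real.exp (-t)|) = N ^ 2 / t * |thf p - 2 * t * Real.exp (-t)| := by ring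
            _ ≤ _ := hx
            _ = _ := by ring
        exact le_of_mul_le_mul_left h6 hNpos
      refine le_trans ?_ h5
      have h7 : 1/2 ≤ N / t := by
        rw [le_div_iff₀ ht]; linarith
      have : (1/2 : ℝ) * (49/100) ≤ N / t * |thf p - 2 * t * Real.exp (-t)| :=
        mul_le_mul h7 hd (by norm_num) (by positivity)
      linarith


/-! ### TARGET 3 by compactness -/

abbrev PP : Type := (Fin 8 → ℝ) × (Fin 6 → ℝ)

/-- `Σ ω_i x_i` -/
noncomputable def Lp (Z : PP × EX) : ℝ := ∑ i : Fin 8, Z.1.1 i * Z.2.ofLp (Fin.castSucc i.succ)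
/-- `Σ x_i²` -/
noncomputable def Nx (Z : PP × EX) : ℝ := ∑ i : Fin 8, (Z.2.ofLp (Fin.castSucc i.succ)) ^ 2
noncomputable def SS (Z : PP × EX) : ℝ := 1 + 2 * Z.1.2 0 * Lp Z + Z.1.2 0 ^ 2 * Nx Z
noncomputable def HH (Z : PP × EX) : ℝ := (2 * Lp Z + Z.1.2 0 * Nx Z) / (Real.sqrt (SS Z) + 1)
noncomputable def PH (Z : PP × EX) : ℝ :=
  -((Z.1.2 4 * Real.cos (Real.pi / 2 * Z.2.ofLp 0) - Z.1.2 5 * Real.sin (Real.pi / 2 * Z.2.ofLp 0)) +
    (Z.1.2 1 + Z.1.2 2 * Z.2.ofLp (Fin.last 9) + Z.1.2 3 * SS Z) * Real.exp (-HH Z))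

theorem contDiff_Lp {n : WithTop ℕ∞} : ContDiff ℝ n Lp := by
  unfold Lp
  fun_prop
theorem contDiff_Nx {n : WithTop ℕ∞} : ContDiff ℝ n Nx := by
  unfold Nx
  fun_prop
theorem contDiff_SS {n : WithTop ℕ∞} : ContDiff ℝ n SS := by
  unfold SS
  have h1 : ContDiff ℝ n (fun Z : PP × EX => Z.1.2 0) := by fun_prop
  exact (contDiff_const.add ((contDiff_const.mul h1).mul contDiff_Lp)).add ((h1.pow 2).mul contDiff_Nx)

theorem contDiffAt_HH {n : WithTop ℕ∞} {Z : PP × EX} (hZ : 0 < SS Z) : ContDiffAt ℝ n HH Z := by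
  have h1 : ContDiff ℝ n (fun Z : PP × EX => Z.1.2 0) := by fun_prop
  have h2 : ContDiffAt ℝ n (fun Z => Real.sqrt (SS Z)) Z := contDiff_SS.contDiffAt.sqrt hZ.ne'
  have h3 : ContDiffAt ℝ n (fun Z => Real.sqrt (SS Z) + 1) Z := h2.add contDiffAt_const
  have h4 : ContDiff ℝ n (fun Z : PP × EX => 2 * Lp Z + Z.1.2 0 * Nx Z) :=
    (contDiff_const.mul contDiff_Lp).add (h1.mul contDiff_Nx)
  exact h4.contDiffAt.div h3 (by positivity)

theorem contDiffAt_PH {n : WithTop ℕ∞} {Z : PP × EX} (hZ : 0 < SS Z) : ContDiffAt ℝ n PH Z := by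
  have h1 : ContDiff ℝ n (fun Z : PP × EX =>
    (Z.1.2 4 * Real.cos (Real.pi / 2 * Z.2.ofLp 0) - Z.1.2 5 * Real.sin (Real.pi / 2 * Z.2.ofLp 0))) := by fun_prop
  have h3 : ContDiff ℝ n (fun Z : PP × EX => Z.1.2 3) := by fun_prop
  have h2 : ContDiff ℝ n (fun Z : PP × EX =>
    (Z.1.2 1 + Z.1.2 2 * Z.2.ofLp (Fin.last 9))) := by fun_prop
  have h4 : ContDiff ℝ n (fun Z : PP × EX => (Z.1.2 1 + Z.1.2 2 * Z.2.ofLp (Fin.last 9) + Z.1.2 3 * SS Z)) :=
    h2.add (h3.mul contDiff_SS)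
  exact (h1.contDiffAt.add (h4.contDiffAt.mul (contDiffAt_HH hZ).neg.exp)).neg

theorem isOpen_SS : IsOpen {Z : PP × EX | 0 < SS Z} :=
  isOpen_lt continuous_const (contDiff_SS (n := 0)).continuous

/-- The compact set of parameters and increments. -/
def KK : Set (PP × EX) :=
  ((univ.pi fun _ => Icc (-1) 1) ×ˢ (univ.pi fun j => if j = 0 then Icc 0 (1/1000) else Icc (-2) 2)) ×ˢ
    closedBall (0 : EX) 1

theorem isCompact_KK : IsCompact KK := by
  unfold KK
  refine IsCompact.prod (IsCompact.prod (isCompact_univ_pi fun _ => isCompact_Icc)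
    (isCompact_univ_pi fun j => ?_)) (isCompact_closedBall _ _)
  split_ifs
  · exact isCompact_Icc
  · exact isCompact_Icc

theorem coord_le {X : EX} (hX : ‖X‖ ≤ 1) (i : Fin (9+1)) : |X.ofLp i| ≤ 1 := by
  have := PiLp.norm_apply_le X i
  rw [Real.norm_eq_abs] at this
  linarith

theorem SS_pos_of_KK {Z : PP × EX} (hZ : Z ∈ KK) : 0 < SS Z := by
  obtain ⟨⟨h1, h2⟩, h3⟩ := hZ
  have h3' : ‖Z.2‖ ≤ 1 := by simpa using h3
  have he : Z.1.2 0 ∈ Icc (0:ℝ) (1/1000) := by
    have := h2 0 (mem_univ _)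
    simpa using this
  have hL : |Lp Z| ≤ 8 := by
    unfold Lp
    refine (Finset.abs_sum_le_sum_abs _ _).trans ?_
    have : ∀ i ∈ (Finset.univ : Finset (Fin 8)), |Z.1.1 i * Z.2.ofLp (Fin.castSucc i.succ)| ≤ 1 := by
      intro i _
      rw [abs_mul]
      have hi : |Z.1.1 i| ≤ 1 := abs_le.2 (h1 i (mem_univ _))
      have hj := coord_le h3' (Fin.castSucc i.succ)
      calc _ ≤ 1 * 1 := mul_le_mul hi hj (abs_nonneg _) zero_le_one
        _ = 1 := by ring
    refine (Finset.sum_le_sum this).trans ?_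
    simp
  have hN : 0 ≤ Nx Z := Finset.sum_nonneg (fun i _ => sq_nonneg _)
  unfold SS
  have hL' := abs_le.1 hL
  have h5 : 0 ≤ Z.1.2 0 ^ 2 * Nx Z := by positivity
  have h6 : -(16/1000) ≤ 2 * Z.1.2 0 * Lp Z := by
    have h0 : 0 ≤ Z.1.2 0 := he.1
    have h7 : Z.1.2 0 ≤ 1/1000 := he.2
    nlinarith [hL'.1, hL'.2]
  linarith

theorem exists_bound (n : ℕ) : ∃ C : ℝ, ∀ Z ∈ KK, ‖iteratedFDeriv ℝ n PH Z‖ ≤ C := by
  apply isCompact_KK.exists_bound_of_continuousOn
  intro Z hZ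
  exact ((contDiffAt_PH (n := (n : WithTop ℕ∞)) (SS_pos_of_KK hZ)).continuousAt_iteratedFDeriv le_rfl).continuousWithinAt

/-- parameters of the point `p` -/
noncomputable def par (p : EX) : PP :=
  (fun i => p.ofLp (Fin.castSucc i.succ) / Real.sqrt (qf p),
   ![1 / Real.sqrt (qf p), Real.exp (-Real.sqrt (qf p)) * yf p, Real.exp (-Real.sqrt (qf p)),
    qf p * Real.exp (-Real.sqrt (qf p)), Real.cos (Real.pi / 2 * p.ofLp 0), Real.sin (Real.pi / 2 * p.ofLp 0)])

theorem SS_par (p X : EX) : SS (par p, X) = qf (p + X) / qf p := by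
  have ht : 0 < Real.sqrt (qf p) := Real.sqrt_pos.2 (qf_pos p)
  have ht2 : Real.sqrt (qf p) ^ 2 = qf p := Real.sq_sqrt (qf_pos p).le
  have hq := qf_pos p
  rw [eq_div_iff hq.ne']
  have hL : Lp (par p, X) * Real.sqrt (qf p) = ∑ i : Fin 8, p.ofLp (Fin.castSucc i.succ) * X.ofLp (Fin.castSucc i.succ) := by
    unfold Lp par
    rw [Finset.sum_mul]
    apply Finset.sum_congr rfl
    intro i _
    field_simp
  have h0 : (par p).2 0 = 1 / Real.sqrt (qf p) := rfl
  have hqX : qf (p + X) = qf p + 2 * (∑ i : Fin 8, p.ofLp (Fin.castSucc i.succ) * X.ofLp (Fin.castSucc i.succ)) + Nx (par p, X) := by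
    unfold qf Nx
    rw [Finset.mul_sum, add_assoc, add_assoc, ← Finset.sum_add_distrib, ← Finset.sum_add_distrib]
    congr 1
    apply Finset.sum_congr rfl
    intro i _
    rw [PiLp.add_apply]
    ring
  rw [hqX, ← hL]
  unfold SS
  simp only [h0]
  have : (1 + 2 * (1 / Real.sqrt (qf p)) * Lp (par p, X) + (1 / Real.sqrt (qf p)) ^ 2 * Nx (par p, X)) * (Real.sqrt (qf p)) ^ 2 =
     (Real.sqrt (qf p)) ^ 2 + 2 * (Lp (par p, X) * Real.sqrt (qf p)) + Nx (par p, X) := by
    field_simp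
  rw [ht2] at this
  exact this

theorem SS_par_pos (p X : EX) : 0 < SS (par p, X) := by
  rw [SS_par]
  exact div_pos (qf_pos _) (qf_pos _)

theorem sqrt_diff (p X : EX) : Real.sqrt (qf (p + X)) = Real.sqrt (qf p) + HH (par p, X) := by
  have ht : 0 < Real.sqrt (qf p) := Real.sqrt_pos.2 (qf_pos p)
  have hS := SS_par p X
  have hSp := SS_par_pos p X
  have h1 : qf (p + X) = qf p * SS (par p, X) := by
    rw [hS]; field_simp [(qf_pos p).ne']
  rw [h1, Real.sqrt_mul (qf_pos p).le]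
  have hs : Real.sqrt (SS (par p, X)) ^ 2 = SS (par p, X) := Real.sq_sqrt hSp.le
  have hs0 : 0 ≤ Real.sqrt (SS (par p, X)) := Real.sqrt_nonneg _
  have h0 : (par p).2 0 = 1 / Real.sqrt (qf p) := rfl
  have h2 : SS (par p, X) - 1 = (2 * Lp (par p, X) + (par p).2 0 * Nx (par p, X)) / Real.sqrt (qf p) := by
    unfold SS
    simp only [h0]
    field_simp
    ring
  unfold HH
  have h3 : Real.sqrt (SS (par p, X)) + 1 ≠ 0 := by positivity
  have h4 : (2 * Lp (par p, X) + (par p).2 0 * Nx (par p, X)) = Real.sqrt (qf p) * (SS (par p, X) - 1) := by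
    rw [h2]; field_simp
  simp only [h4]
  rw [← sub_eq_iff_eq_add', eq_div_iff h3]
  linear_combination Real.sqrt (qf p) * hs

theorem FF_eq (p X : EX) : FF (p + X) = PH (par p, X) := by
  have hS := SS_par p X
  have h1 : qf (p + X) = qf p * SS (par p, X) := by
    rw [hS]; field_simp [(qf_pos p).ne']
  have hy : yf (p + X) = yf p + X.ofLp (Fin.last 9) := rfl
  have hz : (p + X).ofLp 0 = p.ofLp 0 + X.ofLp 0 := rfl
  have k1 : (par p).2 1 = Real.exp (-Real.sqrt (qf p)) * yf p := rfl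
  have k2 : (par p).2 2 = Real.exp (-Real.sqrt (qf p)) := rfl
  have k3 : (par p).2 3 = qf p * Real.exp (-Real.sqrt (qf p)) := rfl
  have k4 : (par p).2 4 = Real.cos (Real.pi / 2 * p.ofLp 0) := rfl
  have k5 : (par p).2 5 = Real.sin (Real.pi / 2 * p.ofLp 0) := rfl
  unfold FF Cf thf PH
  rw [sqrt_diff, h1, hy, hz]
  simp only [k1, k2, k3, k4, k5]
  have he : Real.exp (-(Real.sqrt (qf p) + HH (par p, X))) =
      Real.exp (-Real.sqrt (qf p)) * Real.exp (-HH (par p, X)) := by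
    rw [← Real.exp_add]; congr 1; ring
  rw [mul_add (Real.pi / 2), Real.cos_add, he]
  ring

theorem par_mem {p : EX} (hp : FF p = 0) {X : EX} (hX : ‖X‖ ≤ 1) : (par p, X) ∈ KK := by
  have ht : 0 < Real.sqrt (qf p) := Real.sqrt_pos.2 (qf_pos p)
  have ht2 : Real.sqrt (qf p) ^ 2 = qf p := Real.sq_sqrt (qf_pos p).le
  have ht1000 : 1000 ≤ Real.sqrt (qf p) := by
    apply Real.le_sqrt_of_sq_le
    have := qf_ge p
    linarith
  have hE1 : Real.exp (-Real.sqrt (qf p)) ≤ 1 := Real.exp_le_one_iff.2 (by linarith)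
  have hE0 := Real.exp_pos (-Real.sqrt (qf p))
  have hqE : qf p * Real.exp (-Real.sqrt (qf p)) ≤ 1 := by
    have h1 : Real.sqrt (qf p) ^ 3 / 6 ≤ Real.exp (Real.sqrt (qf p)) := by
      have := Real.pow_div_factorial_le_exp (Real.sqrt (qf p)) ht.le 3
      have h6 : ((Nat.factorial 3 : ℕ) : ℝ) = 6 := by norm_num [Nat.factorial]
      rw [h6] at this
      exact this
    rw [Real.exp_neg, ← div_eq_mul_inv, div_le_one (Real.exp_pos _)]
    refine le_trans ?_ h1
    have h2 : qf p * 1000 ≤ Real.sqrt (qf p) ^ 3 := by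
      have : Real.sqrt (qf p) ^ 3 = qf p * Real.sqrt (qf p) := by
        rw [pow_succ, ht2]
      rw [this]
      exact mul_le_mul_of_nonneg_left ht1000 (qf_pos p).le
    linarith [qf_pos p]
  have hqE0 : 0 ≤ qf p * Real.exp (-Real.sqrt (qf p)) := mul_nonneg (qf_pos p).le hE0.le
  have hth : |thf p| ≤ 1 := by
    have : thf p = - Cf p := by
      unfold FF at hp
      linarith
    rw [this, abs_neg]
    exact Real.abs_cos_le_one _
  have hth' := abs_le.1 hth
  refine ⟨⟨?_, ?_⟩, by simpa using hX⟩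
  · intro i _
    apply abs_le.1
    show |p.ofLp (Fin.castSucc i.succ) / Real.sqrt (qf p)| ≤ 1
    rw [abs_div, abs_of_pos ht, div_le_one ht]
    apply Real.abs_le_sqrt
    unfold qf
    have := Finset.single_le_sum (f := fun i : Fin 8 => (p.ofLp (Fin.castSucc i.succ)) ^ 2)
      (fun i _ => sq_nonneg _) (Finset.mem_univ i)
    simp only at this
    linarith
  · intro j _
    fin_cases j
    · show 1 / Real.sqrt (qf p) ∈ Icc (0:ℝ) (1/1000)
      refine ⟨by positivity, ?_⟩
      exact one_div_le_one_div_of_le (by norm_num) ht1000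
    · show Real.exp (-Real.sqrt (qf p)) * yf p ∈ Icc (-2:ℝ) 2
      have : Real.exp (-Real.sqrt (qf p)) * yf p = thf p - qf p * Real.exp (-Real.sqrt (qf p)) := by
        unfold thf; ring
      rw [this]
      constructor <;> linarith [hth'.1, hth'.2]
    · show Real.exp (-Real.sqrt (qf p)) ∈ Icc (-2:ℝ) 2
      constructor <;> linarith
    · show qf p * Real.exp (-Real.sqrt (qf p)) ∈ Icc (-2:ℝ) 2
      constructor <;> linarith
    · show Real.cos (Real.pi / 2 * p.ofLp 0) ∈ Icc (-2:ℝ) 2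
      have := Real.cos_le_one (Real.pi / 2 * p.ofLp 0)
      have := Real.neg_one_le_cos (Real.pi / 2 * p.ofLp 0)
      constructor <;> linarith
    · show Real.sin (Real.pi / 2 * p.ofLp 0) ∈ Icc (-2:ℝ) 2
      have := Real.sin_le_one (Real.pi / 2 * p.ofLp 0)
      have := Real.neg_one_le_sin (Real.pi / 2 * p.ofLp 0)
      constructor <;> linarith

theorem affine_deriv (a : PP) (X : EX) (i : ℕ) (hi : 1 ≤ i) :
    ‖iteratedFDeriv ℝ i (fun X : EX => (a, X)) X‖ ≤ 1 ^ i := by
  obtain ⟨n, rfl⟩ : ∃ n, i = n + 1 := ⟨i - 1, by omega⟩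
  rw [← norm_iteratedFDeriv_fderiv]
  have : fderiv ℝ (fun X : EX => (a, X)) = fun _ => ContinuousLinearMap.inr ℝ PP EX := by
    funext Y
    exact (hasFDerivAt_prodMk_right a Y).fderiv
  rw [this]
  rcases Nat.eq_zero_or_pos n with rfl | hn
  · rw [norm_iteratedFDeriv_zero]
    simp only [zero_add, pow_one]
    exact ContinuousLinearMap.norm_inr_le_one ℝ PP EX
  · rw [iteratedFDeriv_const_of_ne hn.ne']
    simp

theorem bound_all (n : ℕ) : ∃ C : ℝ, ∀ p, FF p = 0 → ∀ x ∈ ball p 1, ‖iteratedFDeriv ℝ n FF x‖ ≤ C := by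
  choose C hC using exists_bound
  obtain ⟨M, hM⟩ : ∃ M, ∀ i ≤ n, C i ≤ M := by
    refine ⟨∑ i ∈ Finset.range (n+1), |C i|, fun i hi => ?_⟩
    exact (le_abs_self _).trans (Finset.single_le_sum (f := fun i => |C i|) (fun i _ => abs_nonneg _)
      (Finset.mem_range.2 (by omega)))
  refine ⟨(n.factorial : ℝ) * M * 1 ^ n, ?_⟩
  intro p hp x hx
  have hX : ‖x - p‖ ≤ 1 := by
    rw [mem_ball, dist_eq_norm] at hx
    exact hx.le
  have e1 : iteratedFDeriv ℝ n FF x = iteratedFDeriv ℝ n (fun X => FF (p + X)) (x - p) := by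
    rw [iteratedFDeriv_comp_add_left]
    congr 1
    abel
  rw [e1]
  have e2 : (fun X => FF (p + X)) = PH ∘ (fun X : EX => (par p, X)) := by
    funext X
    exact FF_eq p X
  rw [e2]
  apply norm_iteratedFDeriv_comp_le' (t := {Z : PP × EX | 0 < SS Z}) (N := (n : WithTop ℕ∞))
  · rintro _ ⟨X, rfl⟩
    exact SS_par_pos p X
  · exact isOpen_SS.uniqueDiffOn
  · intro Z hZ
    exact (contDiffAt_PH hZ).contDiffWithinAt
  · exact contDiff_const.prodMk contDiff_id
  · exact le_rfl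
  · intro i hi
    rw [iteratedFDerivWithin_of_isOpen i isOpen_SS (SS_par_pos p (x - p))]
    exact (hC i _ (par_mem hp hX)).trans (hM i hi)
  · intro i hi _
    exact affine_deriv _ _ i hi

/-- TARGET 3 -/
theorem bound_FF : ∃ C : ℝ, ∀ p, FF p = 0 → ∀ x ∈ ball p 1, ‖fderiv ℝ FF x‖ ≤ C ∧
    ‖iteratedFDeriv ℝ 2 FF x‖ ≤ C ∧ ‖iteratedFDeriv ℝ 3 FF x‖ ≤ C := by
  obtain ⟨C1, h1⟩ := bound_all 1
  obtain ⟨C2, h2⟩ := bound_all 2
  obtain ⟨C3, h3⟩ := bound_all 3
  refine ⟨max C1 (max C2 C3), fun p hp x hx => ⟨?_, ?_, ?_⟩⟩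
  · rw [← norm_iteratedFDeriv_one]
    exact (h1 p hp x hx).trans (le_max_left _ _)
  · exact (h2 p hp x hx).trans ((le_max_left _ _).trans (le_max_right _ _))
  · exact (h3 p hp x hx).trans ((le_max_right _ _).trans (le_max_right _ _))

end DF

end Pool.Agent.H314.Dir
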