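import Pool.Agent.H314.Dir.Defs

set_option autoImplicit false
open MeasureTheory Filter Topology Set Metric

namespace Pool.Agent.H314.Dir

theorem aux663_A {E : Type*} [NormedAddCommGroup E] [NormedSpace ℝ E] [CompleteSpace E]
    (r : E → ℝ) (ν : E) (hν : ‖ν‖ = 1) (hr : ContDiff ℝ 3 r) (h1 : ∀ x, ‖fderiv ℝ r x‖ ≤ 1 / 2)
    (hlip : ∀ x y, |r x - r y| ≤ 1 / 2 * ‖x - y‖) :
    ∃ g : E → ℝ, ContDiff ℝ 3 g ∧ ∀ η, g η = r (η + g η • ν) := by
  have hnt : Nontrivial E := ⟨⟨ν, 0, by rintro rfl; simp at hν⟩⟩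
  have happ : ApproximatesLinearOn (fun x => x - r x • ν)
      ((ContinuousLinearEquiv.refl ℝ E : E ≃L[ℝ] E) : E →L[ℝ] E) univ (1 / 2) := by
    intro x _ y _
    have e : (x - r x • ν) - (y - r y • ν) -
        ((ContinuousLinearEquiv.refl ℝ E : E ≃L[ℝ] E) : E →L[ℝ] E) (x - y) = -((r x - r y) • ν) := by
      simp only [ContinuousLinearEquiv.coe_refl, ContinuousLinearMap.coe_id', id]
      module
    rw [e, norm_neg, norm_smul, hν, mul_one, Real.norm_eq_abs]
    have := hlip x y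
    simpa using this
  have hc : Subsingleton E ∨ (1 / 2 : NNReal) <
      ‖((ContinuousLinearEquiv.refl ℝ E : E ≃L[ℝ] E).symm : E →L[ℝ] E)‖₊⁻¹ := by
    right
    have : ‖((ContinuousLinearEquiv.refl ℝ E : E ≃L[ℝ] E).symm : E →L[ℝ] E)‖₊ = 1 := by
      have h := ContinuousLinearMap.norm_id (𝕜 := ℝ) (E := E)
      apply NNReal.eq
      simpa using h
    rw [this, inv_one]
    norm_num
  let φ : E ≃ₜ E := happ.toHomeomorph _ hc
  have hφ : ∀ x, φ x = x - r x • ν := fun x => rfl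
  have hd : ∀ a, HasFDerivAt r (fderiv ℝ r a) a := fun a =>
    (hr.differentiable (by norm_num) a).hasFDerivAt
  have hlt : ∀ a, 1 / 2 ≤ 1 - fderiv ℝ r a ν := by
    intro a
    have h2 := (fderiv ℝ r a).le_opNorm ν
    rw [hν, mul_one] at h2
    have h3 := le_abs_self (fderiv ℝ r a ν)
    have h4 := h1 a
    rw [Real.norm_eq_abs] at h2
    linarith
  let A : E → E ≃L[ℝ] E := fun a => ContinuousLinearEquiv.equivOfInverse
    (ContinuousLinearMap.id ℝ E - (fderiv ℝ r a).smulRight ν)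
    (ContinuousLinearMap.id ℝ E + ((1 - fderiv ℝ r a ν)⁻¹ • fderiv ℝ r a).smulRight ν)
    (by
      intro v
      have hne : (1 - fderiv ℝ r a ν) ≠ 0 := by have := hlt a; linarith
      simp only [add_apply, sub_apply,
        ContinuousLinearMap.id_apply, ContinuousLinearMap.smulRight_apply,
        smul_apply, map_sub, map_smul, smul_eq_mul]
      set t := fderiv ℝ r a v
      set s := fderiv ℝ r a ν
      have e : (1 - s)⁻¹ * t - t - t * ((1 - s)⁻¹ * s) = 0 := by
        field_simp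
        ring
      calc v + ((1 - s)⁻¹ * t) • ν - t • (ν + ((1 - s)⁻¹ * s) • ν)
          = v + ((1 - s)⁻¹ * t - t - t * ((1 - s)⁻¹ * s)) • ν := by module
        _ = v := by rw [e, zero_smul, add_zero])
    (by
      intro v
      have hne : (1 - fderiv ℝ r a ν) ≠ 0 := by have := hlt a; linarith
      simp only [add_apply, sub_apply,
        ContinuousLinearMap.id_apply, ContinuousLinearMap.smulRight_apply,
        smul_apply, map_add, map_smul, smul_eq_mul]
      set t := fderiv ℝ r a v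
      set s := fderiv ℝ r a ν
      have e : (1 - s)⁻¹ * t - t - ((1 - s)⁻¹ * t) * s = 0 := by
        field_simp
        ring
      calc v - t • ν + ((1 - s)⁻¹ * t) • (ν - s • ν)
          = v + ((1 - s)⁻¹ * t - t - ((1 - s)⁻¹ * t) * s) • ν := by module
        _ = v := by rw [e, zero_smul, add_zero])
  have hΘ : ContDiff ℝ 3 φ.symm := by
    refine Homeomorph.contDiff_symm φ (f₀' := A) (fun a => ?_) ?_
    · have : HasFDerivAt (fun x => x - r x • ν)
          (ContinuousLinearMap.id ℝ E - (fderiv ℝ r a).smulRight ν) a :=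
        (hasFDerivAt_id a).sub ((hd a).smul_const ν)
      exact this
    · have : ContDiff ℝ 3 (fun x => x - r x • ν) := contDiff_id.sub (hr.smul contDiff_const)
      exact this
  refine ⟨fun η => r (φ.symm η), hr.comp hΘ, fun η => ?_⟩
  have h2 : φ (φ.symm η) = η := φ.apply_symm_apply η
  rw [hφ] at h2
  have h3 : φ.symm η = η + r (φ.symm η) • ν := by
    nth_rewrite 2 [← h2]; abel
  simp only
  rw [← h3]

theorem aux663_C {E : Type*} [NormedAddCommGroup E] [NormedSpace ℝ E]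
    (r : E → ℝ) (ν : E) (hν : ‖ν‖ = 1) (K : ℝ) (hK : 1 ≤ K)
    (hr : ContDiff ℝ 3 r) (h1 : ∀ x, ‖fderiv ℝ r x‖ ≤ 1 / 2)
    (h2 : ∀ x, ‖iteratedFDeriv ℝ 2 r x‖ ≤ K) (h3 : ∀ x, ‖iteratedFDeriv ℝ 3 r x‖ ≤ K)
    (g : E → ℝ) (hg : ContDiff ℝ 3 g) (hgr : ∀ η, g η = r (η + g η • ν)) :
    (∀ x, ‖fderiv ℝ g x‖ ≤ 1) ∧ (∀ x, ‖iteratedFDeriv ℝ 2 g x‖ ≤ 8 * K) ∧
      (∀ x, ‖iteratedFDeriv ℝ 3 g x‖ ≤ 8 * K * (2 + 8 * K) ^ 2 + 64 * K ^ 2) := by
  set Θ : E → E := fun η => η + g η • ν with hΘ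
  have hΘc : ContDiff ℝ 3 Θ := contDiff_id.add (hg.smul contDiff_const)
  set R : E → (E →L[ℝ] ℝ) := fun η => fderiv ℝ r (Θ η) with hR
  set G : E → (E →L[ℝ] ℝ) := fun η => fderiv ℝ g η with hG
  have hDr : ContDiff ℝ 2 (fderiv ℝ r) := hr.fderiv_right (by norm_num)
  have hGc : ContDiff ℝ 2 G := hg.fderiv_right (by norm_num)
  have hRc : ContDiff ℝ 2 R := hDr.comp (hΘc.of_le (by norm_num))
  have hbc : ContDiff ℝ 2 (fun η => R η ν) := hRc.clm_apply contDiff_const
  have hgd : ∀ η, HasFDerivAt g (G η) η := fun η =>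
    (hg.differentiable (by norm_num) η).hasFDerivAt
  have hΘd : ∀ η, HasFDerivAt Θ (ContinuousLinearMap.id ℝ E + (G η).smulRight ν) η := fun η =>
    (hasFDerivAt_id η).add ((hgd η).smul_const ν)
  have hid : ∀ η, G η = R η + (R η ν) • G η := by
    intro η
    have e1 : HasFDerivAt (fun η => r (Θ η))
        ((fderiv ℝ r (Θ η)).comp (ContinuousLinearMap.id ℝ E + (G η).smulRight ν)) η :=
      ((hr.differentiable (by norm_num) (Θ η)).hasFDerivAt).comp η (hΘd η)
    have e2 : g = fun η => r (Θ η) := funext hgr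
    have e3 := (hgd η)
    rw [e2] at e3
    have e4 := e3.unique e1
    rw [e4]
    ext v
    simp only [ContinuousLinearMap.comp_apply, add_apply,
      ContinuousLinearMap.id_apply, ContinuousLinearMap.smulRight_apply, map_add, map_smul,
      smul_eq_mul, smul_apply]
    have e5 : fderiv ℝ r (Θ η) v + G η v * fderiv ℝ r (Θ η) ν = G η v := by
      have := congrArg (fun L : E →L[ℝ] ℝ => L v) e4
      simp only [ContinuousLinearMap.comp_apply, add_apply,
        ContinuousLinearMap.id_apply, ContinuousLinearMap.smulRight_apply, map_add, map_smul,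
        smul_eq_mul] at this
      exact this.symm
    rw [hR]
    simp only
    rw [e5]
    linarith [mul_comm (G η v) (fderiv ℝ r (Θ η) ν)]
  have hRn : ∀ η, ‖R η‖ ≤ 1 / 2 := fun η => h1 _
  have hbn : ∀ η, |R η ν| ≤ 1 / 2 := by
    intro η
    have := (R η).le_opNorm ν
    rw [hν, mul_one, Real.norm_eq_abs] at this
    exact this.trans (hRn η)
  have hGn : ∀ η, ‖G η‖ ≤ 1 := by
    intro η
    have e : ‖G η‖ ≤ ‖R η‖ + ‖(R η ν) • G η‖ := by
      conv_lhs => rw [hid η]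
      exact norm_add_le _ _
    rw [norm_smul, Real.norm_eq_abs] at e
    have := mul_le_mul_of_nonneg_right (hbn η) (norm_nonneg (G η))
    have := hRn η
    linarith
  -- generic bootstrapping inequality
  have boot : ∀ n : ℕ, n ≤ 2 → ∀ η, ‖iteratedFDeriv ℝ n G η‖ ≤ ‖iteratedFDeriv ℝ n R η‖ +
      ∑ i ∈ Finset.range (n + 1), (n.choose i : ℝ) * ‖iteratedFDeriv ℝ i (fun η => R η ν) η‖ *
        ‖iteratedFDeriv ℝ (n - i) G η‖ := by
    intro n hn η
    have hn' : ((n : ℕ) : WithTop ℕ∞) ≤ 2 := by exact_mod_cast hn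
    have e : G = fun η => R η + (R η ν) • G η := funext hid
    have e1 : iteratedFDeriv ℝ n G η =
        iteratedFDeriv ℝ n R η + iteratedFDeriv ℝ n (fun η => (R η ν) • G η) η := by
      conv_lhs => rw [e]
      exact fun_iteratedFDeriv_add_apply (hRc.of_le hn').contDiffAt
        ((hbc.smul hGc).of_le hn').contDiffAt
    rw [e1]
    refine (norm_add_le _ _).trans (add_le_add le_rfl ?_)
    exact norm_iteratedFDeriv_smul_le hbc hGc η hn'
  have hbi : ∀ i : ℕ, i ≤ 2 → ∀ η, ‖iteratedFDeriv ℝ i (fun η => R η ν) η‖ ≤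
      ‖iteratedFDeriv ℝ i R η‖ := by
    intro i hi η
    have hi' : ((i : ℕ) : WithTop ℕ∞) ≤ 2 := by exact_mod_cast hi
    have := norm_iteratedFDeriv_clm_apply_const (c := ν) hRc.contDiffAt (x := η) hi'
    rwa [hν, one_mul] at this
  have hDri : ∀ i : ℕ, i ≤ 2 → ∀ x, ‖iteratedFDeriv ℝ i (fderiv ℝ r) x‖ ≤ K := by
    intro i hi x
    rw [norm_iteratedFDeriv_fderiv]
    interval_cases i
    · rw [norm_iteratedFDeriv_one]; exact (h1 x).trans (by linarith)
    · exact h2 x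
    · exact h3 x
  have hΘ1 : ∀ η, ‖iteratedFDeriv ℝ 1 Θ η‖ ≤ 2 := by
    intro η
    rw [norm_iteratedFDeriv_one, (hΘd η).fderiv]
    refine (norm_add_le _ _).trans ?_
    rw [ContinuousLinearMap.norm_smulRight_apply, hν, mul_one]
    have := hGn η
    have h5 := ContinuousLinearMap.norm_id_le (𝕜 := ℝ) (E := E)
    linarith
  -- first derivative
  have hR1 : ∀ η, ‖iteratedFDeriv ℝ 1 R η‖ ≤ 2 * K := by
    intro η
    have := norm_iteratedFDeriv_comp_le (n := 1) (N := 2) hDr (hΘc.of_le (by norm_num)) (by norm_num)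
      η (C := K) (D := 2) (fun i hi => hDri i (by omega) _) (fun i h0 hi => by
        have : i = 1 := by omega
        subst this
        rw [pow_one]; exact hΘ1 η)
    have e : (Nat.factorial 1 : ℝ) * K * 2 ^ 1 = 2 * K := by norm_num; ring
    rw [e] at this
    exact this
  have hG1 : ∀ η, ‖iteratedFDeriv ℝ 1 G η‖ ≤ 8 * K := by
    intro η
    have hb := boot 1 (by norm_num) η
    rw [Finset.sum_range_succ, Finset.sum_range_succ, Finset.sum_range_zero] at hb
    have z0 : ‖iteratedFDeriv ℝ (1 - 1) G η‖ = ‖G η‖ := by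
      show ‖iteratedFDeriv ℝ 0 G η‖ = _
      exact norm_iteratedFDeriv_zero
    simp only [z0, Nat.choose_zero_right, Nat.choose_self, Nat.cast_one, one_mul, zero_add,
      norm_iteratedFDeriv_zero, Nat.sub_zero, Real.norm_eq_abs] at hb
    have a1 := hR1 η
    have a2 := (hbi 1 (by norm_num) η).trans a1
    have a3 := hGn η
    have a4 := mul_le_mul_of_nonneg_right (hbn η) (norm_nonneg (iteratedFDeriv ℝ 1 G η))
    have a5 : ‖iteratedFDeriv ℝ 1 (fun η => R η ν) η‖ * ‖G η‖ ≤ (2 * K) * 1 :=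
      mul_le_mul a2 a3 (norm_nonneg _) (by linarith)
    linarith
  have hΘ2 : ∀ η, ‖iteratedFDeriv ℝ 2 Θ η‖ ≤ 8 * K := by
    intro η
    have e0 : fderiv ℝ Θ = fun η => ContinuousLinearMap.id ℝ E + (G η).smulRight ν :=
      funext fun η => (hΘd η).fderiv
    rw [← norm_iteratedFDeriv_fderiv, e0]
    set Lν : (E →L[ℝ] ℝ) →L[ℝ] (E →L[ℝ] E) := ContinuousLinearMap.flip
      (ContinuousLinearMap.smulRightL ℝ E E) ν with hLν
    have e1 : iteratedFDeriv ℝ 1 (fun η => ContinuousLinearMap.id ℝ E + (G η).smulRight ν) η =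
        iteratedFDeriv ℝ 1 (Lν ∘ G) η := by
      have := fun_iteratedFDeriv_add_apply (𝕜 := ℝ) (i := 1) (x := η)
        (f := fun _ : E => ContinuousLinearMap.id ℝ E) (g := Lν ∘ G)
        contDiffAt_const ((Lν.contDiff.comp (hGc.of_le (by norm_num))).contDiffAt)
      have e2 : (fun η => ContinuousLinearMap.id ℝ E + (G η).smulRight ν) =
        fun η => ContinuousLinearMap.id ℝ E + (Lν ∘ G) η := by
        funext η; rfl
      rw [e2, this, iteratedFDeriv_const_of_ne (by norm_num)]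
      simp
    rw [e1]
    have h4 := Lν.norm_iteratedFDeriv_comp_left (n := 1) (N := 2) (f := G) (x := η)
      hGc.contDiffAt (by norm_num)
    have h5 : ‖Lν‖ ≤ 1 := by
      refine ContinuousLinearMap.opNorm_le_bound _ zero_le_one fun L => ?_
      have : Lν L = L.smulRight ν := rfl
      rw [this, ContinuousLinearMap.norm_smulRight_apply, hν, mul_one, one_mul]
    have h6 := hG1 η
    calc _ ≤ _ := h4
      _ ≤ 1 * (8 * K) := mul_le_mul h5 h6 (norm_nonneg _) zero_le_one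
      _ = 8 * K := one_mul _
  -- second derivative
  have hR2 : ∀ η, ‖iteratedFDeriv ℝ 2 R η‖ ≤ 2 * K * (2 + 8 * K) ^ 2 := by
    intro η
    have := norm_iteratedFDeriv_comp_le (n := 2) (N := 2) hDr (hΘc.of_le (by norm_num)) (by norm_num)
      η (C := K) (D := 2 + 8 * K) (fun i hi => hDri i hi _) (fun i h0 hi => by
        interval_cases i
        · rw [pow_one]; exact (hΘ1 η).trans (by linarith)
        · exact (hΘ2 η).trans (by nlinarith))
    have e : (Nat.factorial 2 : ℝ) * K * (2 + 8 * K) ^ 2 = 2 * K * (2 + 8 * K) ^ 2 := by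
      norm_num [Nat.factorial]
    rw [e] at this
    exact this
  have hG2 : ∀ η, ‖iteratedFDeriv ℝ 2 G η‖ ≤ 8 * K * (2 + 8 * K) ^ 2 + 64 * K ^ 2 := by
    intro η
    have hb := boot 2 le_rfl η
    rw [Finset.sum_range_succ, Finset.sum_range_succ, Finset.sum_range_succ,
      Finset.sum_range_zero] at hb
    have z0 : ‖iteratedFDeriv ℝ (2 - 2) G η‖ = ‖G η‖ := by
      show ‖iteratedFDeriv ℝ 0 G η‖ = _
      exact norm_iteratedFDeriv_zero
    have z1 : ‖iteratedFDeriv ℝ (2 - 1) G η‖ = ‖iteratedFDeriv ℝ 1 G η‖ := rfl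
    simp only [z0, z1, Nat.choose_zero_right, Nat.choose_self, Nat.cast_one, one_mul, zero_add,
      norm_iteratedFDeriv_zero, Nat.sub_zero, Real.norm_eq_abs,
      Nat.choose_one_right, Nat.cast_ofNat] at hb
    have a1 := hR2 η
    have a2 := (hbi 2 le_rfl η).trans a1
    have a2' := (hbi 1 (by norm_num) η).trans (hR1 η)
    have a3 := hGn η
    have a3' := hG1 η
    have a4 := mul_le_mul_of_nonneg_right (hbn η) (norm_nonneg (iteratedFDeriv ℝ 2 G η))
    have a5 : ‖iteratedFDeriv ℝ 2 (fun η => R η ν) η‖ * ‖G η‖ ≤ (2 * K * (2 + 8 * K) ^ 2) * 1 :=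
      mul_le_mul a2 a3 (norm_nonneg _) (by positivity)
    have a6 : ‖iteratedFDeriv ℝ 1 (fun η => R η ν) η‖ * ‖iteratedFDeriv ℝ 1 G η‖ ≤
        (2 * K) * (8 * K) :=
      mul_le_mul a2' a3' (norm_nonneg _) (by linarith)
    nlinarith
  refine ⟨hGn, fun x => ?_, fun x => ?_⟩
  · rw [← norm_iteratedFDeriv_fderiv]; exact hG1 x
  · rw [← norm_iteratedFDeriv_fderiv]; exact hG2 x

/-- TARGET. A level set `r ξ = ⟪ξ, ν⟫` with `‖D r‖ ≤ 1/2` is a graph in direction `ν` of a function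
whose derivatives up to order three are bounded by a constant that only depends on the bounds
of `r`. -/
theorem graph_fixed {d : ℕ} (C : ℝ) : ∃ M : ℝ, 0 ≤ M ∧ ∀ (r : Eu d → ℝ) (ν : Eu d), ‖ν‖ = 1 →
    ContDiff ℝ 3 r → (∀ x, |r x| ≤ C) → (∀ x, ‖fderiv ℝ r x‖ ≤ 1 / 2) →
    (∀ x, ‖iteratedFDeriv ℝ 2 r x‖ ≤ C) → (∀ x, ‖iteratedFDeriv ℝ 3 r x‖ ≤ C) →
    ∃ g : Eu d → ℝ, ContDiff ℝ 3 g ∧ (∀ x, |g x| ≤ M) ∧ (∀ x, ‖fderiv ℝ g x‖ ≤ M) ∧
      (∀ x, ‖iteratedFDeriv ℝ 2 g x‖ ≤ M) ∧ (∀ x, ‖iteratedFDeriv ℝ 3 g x‖ ≤ M) ∧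
      ∀ ξ, (r ξ < inner ℝ ξ ν ↔ g (ξ - (inner ℝ ξ ν) • ν) < inner ℝ ξ ν) := by
  set K : ℝ := |C| + 1 with hK
  have hC0 : 0 ≤ |C| := abs_nonneg C
  have hCK : C ≤ K := (le_abs_self C).trans (by linarith)
  have hK1 : 1 ≤ K := by linarith
  refine ⟨8 * K + (8 * K * (2 + 8 * K) ^ 2 + 64 * K ^ 2), by positivity, ?_⟩
  have hpos : 0 ≤ 8 * K * (2 + 8 * K) ^ 2 + 64 * K ^ 2 := by positivity
  intro r ν hν hr h0 h1 h2 h3
  have hlip : ∀ x y, |r x - r y| ≤ 1 / 2 * ‖x - y‖ := by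
    intro x y
    have := Convex.norm_image_sub_le_of_norm_fderiv_le (𝕜 := ℝ) (f := r) (s := univ)
      (fun z _ => (hr.differentiable (by norm_num)) z) (fun z _ => h1 z) convex_univ
      (mem_univ y) (mem_univ x)
    simpa using this
  obtain ⟨g, hg, hgr⟩ := aux663_A r ν hν hr h1 hlip
  obtain ⟨b1, b2, b3⟩ := aux663_C r ν hν K hK1 hr h1 (fun x => (h2 x).trans hCK)
    (fun x => (h3 x).trans hCK) g hg hgr
  refine ⟨g, hg, fun x => ?_, fun x => (b1 x).trans (by linarith),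
    fun x => (b2 x).trans (by linarith), fun x => (b3 x).trans (by linarith), fun ξ => ?_⟩
  · rw [hgr x]
    exact (h0 _).trans (by linarith)
  · set τ : ℝ := inner ℝ ξ ν with hτ
    set η := ξ - τ • ν with hη
    have hξ : ξ = η + τ • ν := by rw [hη]; abel
    have hl := hlip ξ (η + g η • ν)
    rw [← hgr η] at hl
    have e : ξ - (η + g η • ν) = (τ - g η) • ν := by
      rw [hη]; module
    rw [e, norm_smul, hν, mul_one, Real.norm_eq_abs] at hl
    constructor
    · intro h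
      by_contra hcon
      push Not at hcon
      rw [abs_of_nonpos (by linarith : τ - g η ≤ 0)] at hl
      have := (abs_le.1 hl).1
      linarith
    · intro h
      rw [abs_of_pos (by linarith : 0 < τ - g η)] at hl
      have := (abs_le.1 hl).2
      linarith

end Pool.Agent.H314.Dir
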