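import Pool.Agent.H314.Dir.Defs

set_option autoImplicit false
open MeasureTheory Filter Topology Set Metric

namespace Pool.Agent.H314.Dir

variable {d : ℕ}

theorem hasDerivAt_maxpow (m : ℕ) (t : ℝ) :
    HasDerivAt (fun t : ℝ => (max 0 t) ^ (m + 2)) ((m + 2 : ℝ) * (max 0 t) ^ (m + 1)) t := by
  have h1 : HasDerivWithinAt (fun t : ℝ => (max 0 t) ^ (m + 2)) ((m + 2 : ℝ) * (max 0 t) ^ (m + 1))
      (Iic 0) t ∨ 0 < t := by
    rcases le_or_gt t 0 with h | h
    · left
      have : HasDerivWithinAt (fun _ : ℝ => (0:ℝ)) 0 (Iic 0) t := hasDerivWithinAt_const _ _ _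
      rw [max_eq_left h, zero_pow (by omega), mul_zero]
      refine this.congr (fun x hx => ?_) ?_
      · simp only [mem_Iic] at hx
        simp [max_eq_left hx]
      · simp [max_eq_left h]
    · exact Or.inr h
  have h2 : HasDerivWithinAt (fun t : ℝ => (max 0 t) ^ (m + 2)) ((m + 2 : ℝ) * (max 0 t) ^ (m + 1))
      (Ici 0) t ∨ t < 0 := by
    rcases le_or_gt 0 t with h | h
    · left
      have : HasDerivWithinAt (fun x : ℝ => x ^ (m+2)) (((m+2 : ℕ) : ℝ) * t ^ (m+2-1)) (Ici 0) t :=
        (hasDerivAt_pow (m+2) t).hasDerivWithinAt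
      rw [max_eq_right h]
      have h3 : ((m+2 : ℕ) : ℝ) * t ^ (m+2-1) = (m + 2 : ℝ) * t ^ (m+1) := by
        push_cast; congr 1
      rw [h3] at this
      refine this.congr (fun x hx => ?_) ?_
      · simp only [mem_Ici] at hx
        simp [max_eq_right hx]
      · simp [max_eq_right h]
    · exact Or.inr h
  rcases lt_trichotomy t 0 with h | h | h
  · rcases h1 with h1 | h1
    · exact h1.hasDerivAt (Iic_mem_nhds h)
    · exact absurd h1 (by linarith)
  · rcases h1 with h1 | h1
    · rcases h2 with h2 | h2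
      · have := h1.union h2
        rw [Iic_union_Ici] at this
        exact hasDerivWithinAt_univ.mp this
      · exact absurd h2 (by linarith)
    · exact absurd h1 (by linarith)
  · rcases h2 with h2 | h2
    · exact h2.hasDerivAt (Ici_mem_nhds h)
    · exact absurd h2 (by linarith)

theorem contDiff_maxpow (m : ℕ) : ContDiff ℝ m (fun t : ℝ => (max 0 t) ^ (m + 1)) := by
  induction m with
  | zero =>
    simp only [Nat.cast_zero, zero_add, pow_one]
    exact contDiff_zero.mpr (by fun_prop)
  | succ m ih =>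
    have : ((m + 1 : ℕ) : WithTop ℕ∞) = (m : WithTop ℕ∞) + 1 := by push_cast; rfl
    rw [this, contDiff_succ_iff_deriv]
    refine ⟨fun t => (hasDerivAt_maxpow m t).differentiableAt, ?_, ?_⟩
    · intro h
      exact absurd h (by simp)
    · have h2 : deriv (fun t : ℝ => (max 0 t) ^ (m + 1 + 1)) = fun t => (m + 2 : ℝ) * (max 0 t) ^ (m + 1) := by
        funext t
        exact (hasDerivAt_maxpow m t).deriv
      rw [h2]
      exact contDiff_const.mul ih

theorem contDiff_one_sub_norm_sq (n : WithTop ℕ∞) : ContDiff ℝ n (fun y : Eu d => 1 - ‖y‖ ^ 2) :=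
  contDiff_const.sub (contDiff_norm_sq ℝ)

theorem contDiff_rho0 : ContDiff ℝ 2 (rho0 : Eu d → ℝ) := by
  have := (contDiff_maxpow 2).comp (contDiff_one_sub_norm_sq (d := d) 2)
  exact this

theorem rho0_nonneg (y : Eu d) : 0 ≤ rho0 y := by
  unfold rho0; positivity

theorem rho0_eq_zero {y : Eu d} (hy : 1 ≤ ‖y‖) : rho0 y = 0 := by
  unfold rho0
  rw [max_eq_left (by nlinarith [norm_nonneg y])]
  norm_num

theorem hasCompactSupport_rho0 : HasCompactSupport (rho0 : Eu d → ℝ) := by
  refine HasCompactSupport.intro (isCompact_closedBall 0 1) (fun y hy => ?_)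
  apply rho0_eq_zero
  simp only [mem_closedBall, dist_zero_right, not_le] at hy
  exact hy.le

theorem cst_pos (d : ℕ) : 0 < cst d := by
  unfold cst
  refine Continuous.integral_pos_of_hasCompactSupport_nonneg_nonzero (x := 0)
    contDiff_rho0.continuous hasCompactSupport_rho0 rho0_nonneg ?_
  unfold rho0
  norm_num

theorem contDiff_rho : ContDiff ℝ 2 (rho : Eu d → ℝ) := by
  exact contDiff_rho0.div_const _

theorem contDiff_sig : ContDiff ℝ 3 (sig : Eu d → ℝ) := by
  have := (contDiff_maxpow 3).comp (contDiff_one_sub_norm_sq (d := d) 3)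
  exact this.div_const _

theorem rho_nonneg (y : Eu d) : 0 ≤ rho y :=
  div_nonneg (rho0_nonneg y) (cst_pos d).le

theorem rho_pos {y : Eu d} (hy : ‖y‖ < 1) : 0 < rho y := by
  refine div_pos ?_ (cst_pos d)
  unfold rho0
  have : 0 < 1 - ‖y‖ ^ 2 := by nlinarith [norm_nonneg y]
  rw [max_eq_right this.le]
  positivity

theorem sig_nonneg (y : Eu d) : 0 ≤ sig y := by
  unfold sig
  have := cst_pos d
  positivity

theorem sig_le (y : Eu d) : sig y ≤ rho y / 8 := by
  unfold sig rho rho0
  have h := cst_pos d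
  rw [div_div, mul_comm (cst d) 8]
  apply div_le_div_of_nonneg_right _ (by positivity)
  have h0 : 0 ≤ max 0 (1 - ‖y‖ ^ 2) := le_max_left _ _
  have h1 : max 0 (1 - ‖y‖ ^ 2) ≤ 1 := max_le zero_le_one (by nlinarith [norm_nonneg y])
  exact pow_le_pow_of_le_one h0 h1 (by norm_num)

theorem rho_eq_zero {y : Eu d} (hy : 1 ≤ ‖y‖) : rho y = 0 := by
  unfold rho
  rw [rho0_eq_zero hy, zero_div]

theorem sig_eq_zero {y : Eu d} (hy : 1 ≤ ‖y‖) : sig y = 0 := by
  unfold sig
  rw [max_eq_left (by nlinarith [norm_nonneg y])]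
  norm_num

theorem hasCompactSupport_rho : HasCompactSupport (rho : Eu d → ℝ) := by
  refine HasCompactSupport.intro (isCompact_closedBall 0 1) (fun y hy => ?_)
  apply rho_eq_zero
  simp only [mem_closedBall, dist_zero_right, not_le] at hy
  exact hy.le

theorem hasCompactSupport_sig : HasCompactSupport (sig : Eu d → ℝ) := by
  refine HasCompactSupport.intro (isCompact_closedBall 0 1) (fun y hy => ?_)
  apply sig_eq_zero
  simp only [mem_closedBall, dist_zero_right, not_le] at hy
  exact hy.le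

theorem integral_rho : ∫ y : Eu d, rho y = 1 := by
  unfold rho
  rw [integral_div]
  exact div_self (cst_pos d).ne'

theorem integral_sig_pos : 0 < ∫ y : Eu d, sig y := by
  refine Continuous.integral_pos_of_hasCompactSupport_nonneg_nonzero (x := 0)
    contDiff_sig.continuous hasCompactSupport_sig sig_nonneg ?_
  unfold sig
  have := cst_pos d
  norm_num
  exact this.ne'

theorem hasFDerivAt_sig (y : Eu d) : HasFDerivAt (sig : Eu d → ℝ) ((- rho y) • innerSL ℝ y) y := by
  have h1 : HasFDerivAt (fun y : Eu d => 1 - ‖y‖ ^ 2) (-(2 • innerSL ℝ y)) y := by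
    have := (hasStrictFDerivAt_norm_sq y).hasFDerivAt
    have h2 := this.const_sub 1
    exact h2
  have h3 := (hasDerivAt_maxpow 2 (1 - ‖y‖^2)).comp_hasFDerivAt y h1
  have h4 := h3.mul_const (8 * cst d)⁻¹
  have h5 : (fun y : Eu d => ((fun t : ℝ => (max 0 t) ^ (2 + 2)) ∘ (fun y : Eu d => 1 - ‖y‖ ^ 2)) y * (8 * cst d)⁻¹) = sig := by
    funext y
    simp [sig, div_eq_mul_inv]
  rw [h5] at h4
  refine h4.congr_fderiv ?_
  ext v
  have hc := (cst_pos d).ne'
  simp only [rho, rho0]
  simp
  field_simp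
  ring

theorem fderiv_sig (y v : Eu d) : fderiv ℝ sig y v = - rho y * inner ℝ y v := by
  rw [(hasFDerivAt_sig y).fderiv]
  simp

theorem iteratedFDeriv_two_eq {κ : Eu d → ℝ} (hκ : ContDiff ℝ 2 κ) (y e : Eu d) :
    iteratedFDeriv ℝ 2 κ y (fun _ => e) = fderiv ℝ (fun z => fderiv ℝ κ z e) y e := by
  rw [iteratedFDeriv_two_apply]
  have h1 : DifferentiableAt ℝ (fderiv ℝ κ) y := by
    have : ContDiff ℝ 1 (fderiv ℝ κ) := hκ.fderiv_right (by norm_num)
    exact (this.differentiable (by norm_num)).differentiableAt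
  have h2 := (h1.hasFDerivAt.clm_apply (hasFDerivAt_const e y)).fderiv
  rw [h2]
  simp

theorem sum_coord (y : Eu d) : ∑ i : Fin d, (y i) • (EuclideanSpace.single i (1 : ℝ) : Eu d) = y := by
  have := (EuclideanSpace.basisFun (Fin d) ℝ).sum_repr y
  simpa using this

theorem lap_sig (y : Eu d) : lap sig y = - (d * rho y) - fderiv ℝ rho y y := by
  unfold lap
  have hs : ContDiff ℝ 2 (sig : Eu d → ℝ) := contDiff_sig.of_le (by norm_num)
  have hr : DifferentiableAt ℝ (rho : Eu d → ℝ) y :=
    (contDiff_rho.differentiable (by norm_num)).differentiableAt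
  have h1 : ∀ i : Fin d, iteratedFDeriv ℝ 2 (sig : Eu d → ℝ) y (fun _ => EuclideanSpace.single i (1 : ℝ)) =
      - (y i * fderiv ℝ rho y (EuclideanSpace.single i (1:ℝ))) - rho y := by
    intro i
    rw [iteratedFDeriv_two_eq hs]
    have h2 : (fun z : Eu d => fderiv ℝ sig z (EuclideanSpace.single i (1:ℝ))) =
        fun z => - rho z * inner ℝ z (EuclideanSpace.single i (1:ℝ)) := by
      funext z
      exact fderiv_sig z _
    rw [h2]
    have h3 : HasFDerivAt (fun z : Eu d => - rho z) (-(fderiv ℝ rho y)) y := hr.hasFDerivAt.neg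
    have h4 : HasFDerivAt (fun z : Eu d => inner ℝ z (EuclideanSpace.single i (1:ℝ)))
        (fderivInnerCLM ℝ (y, EuclideanSpace.single i (1:ℝ)) ∘L ((ContinuousLinearMap.id ℝ (Eu d)).prod 0)) y :=
      (hasFDerivAt_id y).inner ℝ (hasFDerivAt_const _ y)
    have h5 : HasFDerivAt (fun z : Eu d => - rho z * inner ℝ z (EuclideanSpace.single i (1:ℝ))) _ y := h3.mul h4
    rw [h5.fderiv]
    have h6 : inner ℝ y (EuclideanSpace.single i (1:ℝ)) = y i := by
      simp [EuclideanSpace.inner_single_right]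
    have h7 : inner ℝ (EuclideanSpace.single i (1:ℝ)) (EuclideanSpace.single i (1:ℝ) : Eu d) = (1:ℝ) := by
      simp [EuclideanSpace.inner_single_right]
    simp [fderivInnerCLM_apply, h6, h7]
    ring
  rw [Finset.sum_congr rfl (fun i _ => h1 i), Finset.sum_sub_distrib]
  have h5 : ∑ i : Fin d, -(y i * fderiv ℝ rho y (EuclideanSpace.single i (1:ℝ))) = - fderiv ℝ rho y y := by
    conv_rhs => rw [← sum_coord y]
    rw [map_sum, Finset.sum_neg_distrib]
    congr 1
    refine Finset.sum_congr rfl (fun i _ => ?_)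
    rw [map_smul, smul_eq_mul, sum_coord]
  rw [h5]
  simp
  ring

/-- Green's identity with a compactly supported factor. -/
theorem green {κ v : Eu d → ℝ} (hκ : ContDiff ℝ 2 κ) (hc : HasCompactSupport κ)
    (hv : ContDiff ℝ 2 v) : ∫ y, lap κ y * v y = ∫ y, κ y * lap v y := by
  have hdκ : ∀ e : Eu d, ContDiff ℝ 1 (fun z => fderiv ℝ κ z e) := fun e =>
    (hκ.fderiv_right (by norm_num)).clm_apply contDiff_const
  have hdv : ∀ e : Eu d, ContDiff ℝ 1 (fun z => fderiv ℝ v z e) := fun e =>
    (hv.fderiv_right (by norm_num)).clm_apply contDiff_const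
  have hcdκ : ∀ e : Eu d, HasCompactSupport (fun z => fderiv ℝ κ z e) := fun e =>
    hc.fderiv_apply ℝ e
  have hddκ : ∀ e : Eu d, Continuous (fun z => fderiv ℝ (fun z => fderiv ℝ κ z e) z e) := fun e =>
    ((hdκ e).continuous_fderiv (by norm_num)).clm_apply continuous_const
  have hddv : ∀ e : Eu d, Continuous (fun z => fderiv ℝ (fun z => fderiv ℝ v z e) z e) := fun e =>
    ((hdv e).continuous_fderiv (by norm_num)).clm_apply continuous_const
  have hcddκ : ∀ e : Eu d, HasCompactSupport (fun z => fderiv ℝ (fun z => fderiv ℝ κ z e) z e) := fun e =>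
    (hcdκ e).fderiv_apply ℝ e
  have i1 : ∀ e : Eu d, Integrable (fun z => fderiv ℝ (fun z => fderiv ℝ κ z e) z e * v z) := fun e =>
    ((hddκ e).mul hv.continuous).integrable_of_hasCompactSupport ((hcddκ e).mul_right)
  have i2 : ∀ e : Eu d, Integrable (fun z => fderiv ℝ κ z e * fderiv ℝ v z e) := fun e =>
    ((hdκ e).continuous.mul (hdv e).continuous).integrable_of_hasCompactSupport ((hcdκ e).mul_right)
  have i3 : ∀ e : Eu d, Integrable (fun z => fderiv ℝ κ z e * v z) := fun e =>
    ((hdκ e).continuous.mul hv.continuous).integrable_of_hasCompactSupport ((hcdκ e).mul_right)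
  have i4 : ∀ e : Eu d, Integrable (fun z => κ z * fderiv ℝ (fun z => fderiv ℝ v z e) z e) := fun e =>
    (hκ.continuous.mul (hddv e)).integrable_of_hasCompactSupport (hc.mul_right)
  have i5 : ∀ e : Eu d, Integrable (fun z => κ z * fderiv ℝ v z e) := fun e =>
    (hκ.continuous.mul (hdv e).continuous).integrable_of_hasCompactSupport (hc.mul_right)
  have key : ∀ e : Eu d, ∫ z, fderiv ℝ (fun z => fderiv ℝ κ z e) z e * v z =
      ∫ z, κ z * fderiv ℝ (fun z => fderiv ℝ v z e) z e := by
    intro e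
    have e1 := integral_mul_fderiv_eq_neg_fderiv_mul_of_integrable (i1 e) (i2 e) (i3 e)
      (fun x _ => (hdκ e).differentiable (by norm_num) x) (fun x _ => hv.differentiable (by norm_num) x)
    have e2 := integral_mul_fderiv_eq_neg_fderiv_mul_of_integrable (i2 e) (i4 e) (i5 e)
      (fun x _ => hκ.differentiable (by norm_num) x) (fun x _ => (hdv e).differentiable (by norm_num) x)
    rw [e2]
    linarith
  have l1 : ∀ y, lap κ y * v y = ∑ i : Fin d, fderiv ℝ (fun z => fderiv ℝ κ z (EuclideanSpace.single i (1:ℝ))) y (EuclideanSpace.single i (1:ℝ)) * v y := by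
    intro y
    unfold lap
    rw [Finset.sum_mul]
    exact Finset.sum_congr rfl (fun i _ => by rw [iteratedFDeriv_two_eq hκ])
  have l2 : ∀ y, κ y * lap v y = ∑ i : Fin d, κ y * fderiv ℝ (fun z => fderiv ℝ v z (EuclideanSpace.single i (1:ℝ))) y (EuclideanSpace.single i (1:ℝ)) := by
    intro y
    unfold lap
    rw [Finset.mul_sum]
    exact Finset.sum_congr rfl (fun i _ => by rw [iteratedFDeriv_two_eq hv])
  simp only [l1, l2]
  rw [integral_finsetSum _ (fun i _ => i1 _), integral_finsetSum _ (fun i _ => i4 _)]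
  exact Finset.sum_congr rfl (fun i _ => key _)

end Pool.Agent.H314.Dir
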