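import Pool.Agent.H314.Dir.Defs

set_option autoImplicit false
open MeasureTheory Filter Topology Set Metric

namespace Pool.Agent.H314.Dir

variable {d : ℕ} {G : Type*} [NormedAddCommGroup G] [NormedSpace ℝ G]

theorem BM.integrable_smul {h : Eu d → ℝ} {C : ℝ} (hh : BM h C) {κ : Eu d → G}
    (hκ : Integrable κ) (s : ℝ) (x : Eu d) : Integrable (fun y => h (x + s • y) • κ y) := by
  refine Integrable.mono' (hκ.norm.const_mul C) ?_ ?_
  · refine AEStronglyMeasurable.smul ?_ hκ.aestronglyMeasurable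
    exact (hh.meas.comp (by fun_prop)).aestronglyMeasurable
  · refine Eventually.of_forall fun y => ?_
    rw [norm_smul, Real.norm_eq_abs]
    exact mul_le_mul_of_nonneg_right (hh.bd _) (norm_nonneg _)

theorem BM.norm_J_le {h : Eu d → ℝ} {C : ℝ} (hh : BM h C) {κ : Eu d → G}
    (hκ : Integrable κ) (s : ℝ) (x : Eu d) : ‖J κ h s x‖ ≤ C * ∫ y, ‖κ y‖ := by
  rw [J, ← integral_const_mul]
  refine norm_integral_le_of_norm_le (hκ.norm.const_mul C) (Eventually.of_forall fun y => ?_)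
  rw [norm_smul, Real.norm_eq_abs]
  exact mul_le_mul_of_nonneg_right (hh.bd _) (norm_nonneg _)

theorem BM.locallyIntegrable {h : Eu d → ℝ} {C : ℝ} (hh : BM h C) : LocallyIntegrable h := by
  intro x
  refine ⟨ball x 1, ball_mem_nhds x one_pos, ?_⟩
  refine Integrable.mono' (g := fun _ => C) ?_ hh.meas.aestronglyMeasurable ?_
  · exact integrableOn_const (measure_ball_lt_top.ne)
  · exact Eventually.of_forall fun y => hh.bd y

/-- change of variables -/
theorem J_eq_conv (κ : Eu d → G) (h : Eu d → ℝ) {s : ℝ} (hs : 0 < s) (x : Eu d) :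
    J κ h s x = (s ^ d)⁻¹ • ∫ t, h t • κ (-(s⁻¹ • (x - t))) := by
  have h1 : (∫ t, h t • κ (-(s⁻¹ • (x - t)))) = ∫ t, h (x + t) • κ (s⁻¹ • t) := by
    rw [← integral_add_left_eq_self (fun t => h t • κ (-(s⁻¹ • (x - t)))) x]
    congr 1
    funext t
    congr 2
    rw [← smul_neg]; congr 1; abel
  have h2 := Measure.integral_comp_smul (volume : Measure (Eu d)) (fun t => h (x + t) • κ (s⁻¹ • t)) s
  rw [h1, J]
  have h3 : (fun y : Eu d => h (x + s • y) • κ y) = fun y => h (x + s • y) • κ (s⁻¹ • s • y) := by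
    funext y
    rw [smul_smul, inv_mul_cancel₀ hs.ne', one_smul]
  rw [h3, h2, finrank_euclideanSpace, Fintype.card_fin, abs_of_pos (by positivity)]

theorem hasFDerivAt_J [CompleteSpace G] {κ : Eu d → G} (hκ : ContDiff ℝ 1 κ) (hc : HasCompactSupport κ)
    {h : Eu d → ℝ} {C : ℝ} (hh : BM h C) {s : ℝ} (hs : 0 < s) (x : Eu d) :
    HasFDerivAt (J κ h s) (-(s⁻¹ • J (fderiv ℝ κ) h s x)) x := by
  set g : Eu d → G := fun v => κ (-(s⁻¹ • v)) with hg
  have hgc : ContDiff ℝ 1 g := hκ.comp (by fun_prop)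
  have hgs : HasCompactSupport g := by
    have := hc.comp_homeomorph (Homeomorph.smulOfNeZero (-s⁻¹) (by simp [hs.ne'] : (-s⁻¹ : ℝ) ≠ 0) :
      Eu d ≃ₜ Eu d)
    convert this using 1
    funext v
    simp [hg, neg_smul]
  have hfd : ∀ v, fderiv ℝ g v = -(s⁻¹ • fderiv ℝ κ (-(s⁻¹ • v))) := by
    intro v
    have h1 : HasFDerivAt (fun v : Eu d => -(s⁻¹ • v)) (-(s⁻¹ • ContinuousLinearMap.id ℝ (Eu d))) v :=
      ((hasFDerivAt_id v).const_smul s⁻¹).neg
    have h2 := ((hκ.differentiable one_ne_zero (-(s⁻¹ • v))).hasFDerivAt).comp v h1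
    rw [hg]
    refine (h2.fderiv).trans ?_
    ext w
    simp
  have key := hgs.hasFDerivAt_convolution_right (ContinuousLinearMap.lsmul ℝ ℝ) hh.locallyIntegrable hgc x
    (μ := volume)
  have e1 : J κ h s = fun x => (s ^ d)⁻¹ • (convolution h g (ContinuousLinearMap.lsmul ℝ ℝ) volume) x := by
    funext x
    rw [J_eq_conv κ h hs x]
    rfl
  rw [e1]
  refine (key.const_smul ((s ^ d)⁻¹)).congr_fderiv ?_
  rw [J_eq_conv (fderiv ℝ κ) h hs x, smul_comm s⁻¹ _ _, ← smul_neg, ← integral_smul, ← integral_neg]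
  congr 1
  rw [convolution_def]
  congr 1
  funext t
  rw [hfd]
  ext w
  simp [ContinuousLinearMap.precompR]

theorem stronglyMeasurable_J {κ : Eu d → G} (hκ : Continuous κ) {h : Eu d → ℝ} (hm : Measurable h)
    (x : Eu d) : StronglyMeasurable (fun s : ℝ => J κ h s x) := by
  unfold J
  apply StronglyMeasurable.integral_prod_right (f := fun (s : ℝ) (y : Eu d) => h (x + s • y) • κ y)
  have h1 : Measurable (fun p : ℝ × Eu d => h (x + p.1 • p.2)) := hm.comp (by fun_prop)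
  exact h1.stronglyMeasurable.smul (hκ.stronglyMeasurable.comp_measurable measurable_snd)

/-- averages with zero mean kernels of a function that is Lipschitz at `x` -/
theorem norm_J_le_of_integral_zero {κ : Eu d → G} (hκ : Continuous κ) (hc : HasCompactSupport κ)
    (h0 : ∫ y, κ y = 0) {h : Eu d → ℝ} {C : ℝ} (hh : BM h C) {L s : ℝ} (hs : 0 ≤ s) {x : Eu d}
    (hL : ∀ y, |h y - h x| ≤ L * ‖y - x‖) :
    ‖J κ h s x‖ ≤ s * (L * ∫ y, ‖y‖ * ‖κ y‖) := by
  have hi : Integrable κ := hκ.integrable_of_hasCompactSupport hc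
  have hi2 : Integrable (fun y => ‖y‖ * ‖κ y‖) :=
    (continuous_norm.mul hκ.norm).integrable_of_hasCompactSupport (hc.norm.mul_left)
  have e1 : J κ h s x = ∫ y, (h (x + s • y) - h x) • κ y := by
    have : (fun y => (h (x + s • y) - h x) • κ y) = fun y => h (x + s • y) • κ y - h x • κ y := by
      funext y; rw [sub_smul]
    have hi3 : Integrable (fun y => h x • κ y) := hi.smul (h x)
    rw [this, integral_sub (hh.integrable_smul hi s x) hi3, integral_smul, h0, smul_zero,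
      sub_zero, J]
  rw [e1, ← integral_const_mul, ← integral_const_mul]
  refine norm_integral_le_of_norm_le ((hi2.const_mul L).const_mul s) (Eventually.of_forall fun y => ?_)
  rw [norm_smul, Real.norm_eq_abs]
  have h1 := hL (x + s • y)
  rw [add_sub_cancel_left, norm_smul, Real.norm_eq_abs, abs_of_nonneg hs] at h1
  calc |h (x + s • y) - h x| * ‖κ y‖ ≤ (L * (s * ‖y‖)) * ‖κ y‖ :=
        mul_le_mul_of_nonneg_right h1 (norm_nonneg _)
    _ = s * (L * (‖y‖ * ‖κ y‖)) := by ring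

theorem J_one (κ : Eu d → G) (s : ℝ) (x : Eu d) : J κ (fun _ => 1) s x = ∫ y, κ y := by
  simp [J]

theorem integral_fderiv_zero [CompleteSpace G] {κ : Eu d → G} (hκ : ContDiff ℝ 1 κ)
    (hc : HasCompactSupport κ) : ∫ y, fderiv ℝ κ y = 0 := by
  have hb : BM (fun _ : Eu d => (1 : ℝ)) 1 := ⟨measurable_const, fun _ => by simp⟩
  have h1 := hasFDerivAt_J hκ hc hb one_pos (0 : Eu d)
  have h2 : HasFDerivAt (J κ (fun _ : Eu d => (1:ℝ)) 1) (0 : Eu d →L[ℝ] G) 0 := by
    have : J κ (fun _ : Eu d => (1:ℝ)) 1 = fun _ => ∫ y, κ y := by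
      funext x; exact J_one κ 1 x
    rw [this]
    exact hasFDerivAt_const _ _
  have h3 := h1.unique h2
  rw [J_one] at h3
  simpa using h3

theorem BM.intervalIntegrable {h : Eu d → ℝ} {C : ℝ} (hh : BM h C) {κ : Eu d → G}
    (hκ : Continuous κ) (hc : HasCompactSupport κ) {w : ℝ → ℝ} (hw : Continuous w) (a b : ℝ)
    (x : Eu d) : IntervalIntegrable (fun s => w s • J κ h s x) volume a b := by
  have hi : Integrable κ := hκ.integrable_of_hasCompactSupport hc
  have h1 : IntervalIntegrable (fun s => |w s| * (C * ∫ y, ‖κ y‖)) volume a b :=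
    (hw.abs.mul continuous_const).intervalIntegrable _ _
  refine h1.mono_fun ?_ ?_
  · exact (hw.stronglyMeasurable.smul (stronglyMeasurable_J hκ hh.meas x)).aestronglyMeasurable
  · refine Eventually.of_forall fun s => ?_
    have h2 := hh.norm_J_le hi s x
    have h3 : 0 ≤ C * ∫ y, ‖κ y‖ := (norm_nonneg _).trans h2
    simp only [norm_smul, Real.norm_eq_abs]
    rw [abs_of_nonneg (mul_nonneg (abs_nonneg _) h3)]
    exact mul_le_mul_of_nonneg_left h2 (abs_nonneg _)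

theorem hasFDerivAt_Pw [CompleteSpace G] {κ : Eu d → G} (hκ : ContDiff ℝ 1 κ)
    (hc : HasCompactSupport κ) {h : Eu d → ℝ} {C : ℝ} (hh : BM h C) {w : ℝ → ℝ}
    (hw : Continuous w) {ε : ℝ} (hε : 0 < ε) (x : Eu d) :
    HasFDerivAt (Pw κ (fun s => w s * s) ε h) (-(Pw (fderiv ℝ κ) w ε h x)) x := by
  have hκ' : Continuous (fderiv ℝ κ) := hκ.continuous_fderiv one_ne_zero
  have hc' : HasCompactSupport (fderiv ℝ κ) := hc.fderiv (𝕜 := ℝ)
  have hi' : Integrable (fderiv ℝ κ) := hκ'.integrable_of_hasCompactSupport hc'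
  have hws : Continuous (fun s : ℝ => w s * s) := hw.mul continuous_id
  have e : -(Pw (fderiv ℝ κ) w ε h x) =
      ∫ s in (0 : ℝ)..ε, (w s * s) • (-(s⁻¹ • J (fderiv ℝ κ) h s x)) := by
    rw [Pw, ← intervalIntegral.integral_neg]
    refine intervalIntegral.integral_congr_ae (Eventually.of_forall fun s hs => ?_)
    rw [uIoc_of_le hε.le] at hs
    have hs0 : s ≠ 0 := hs.1.ne'
    rw [smul_neg, smul_smul, mul_assoc, mul_inv_cancel₀ hs0, mul_one]
  rw [e]
  unfold Pw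
  refine intervalIntegral.hasFDerivAt_integral_of_dominated_of_fderiv_le (s := univ)
    (bound := fun s => |w s| * (C * ∫ y, ‖fderiv ℝ κ y‖))
    (F := fun x s => (w s * s) • J κ h s x)
    (F' := fun x s => (w s * s) • (-(s⁻¹ • J (fderiv ℝ κ) h s x))) univ_mem ?_ ?_ ?_ ?_ ?_ ?_
  · exact Eventually.of_forall fun y =>
      (hws.stronglyMeasurable.smul (stronglyMeasurable_J hκ.continuous hh.meas y)).aestronglyMeasurable
  · exact hh.intervalIntegrable hκ.continuous hc hws 0 ε x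
  · refine (hws.stronglyMeasurable.smul ?_).aestronglyMeasurable
    have : StronglyMeasurable (fun s : ℝ => s⁻¹) := measurable_inv.stronglyMeasurable
    exact (this.smul (stronglyMeasurable_J hκ' hh.meas x)).neg
  · refine Eventually.of_forall fun s hs y _ => ?_
    rw [uIoc_of_le hε.le] at hs
    have hs0 : 0 < s := hs.1
    have h2 := hh.norm_J_le hi' s y
    rw [smul_neg, norm_neg, smul_smul, mul_assoc, mul_inv_cancel₀ hs0.ne', mul_one, norm_smul,
      Real.norm_eq_abs]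
    exact mul_le_mul_of_nonneg_left h2 (abs_nonneg _)
  · exact (hw.abs.mul continuous_const).intervalIntegrable _ _
  · refine Eventually.of_forall fun s hs y _ => ?_
    rw [uIoc_of_le hε.le] at hs
    exact (hasFDerivAt_J hκ hc hh hs.1 y).const_smul (w s * s)

theorem continuous_Pw_fderiv [CompleteSpace G] {κ : Eu d → G} (hκ : ContDiff ℝ 1 κ)
    (hc : HasCompactSupport κ) {h : Eu d → ℝ} {C : ℝ} (hh : BM h C) {w : ℝ → ℝ}
    (hw : Continuous w) {ε : ℝ} (hε : 0 < ε) : Continuous (Pw κ w ε h) := by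
  rw [continuous_iff_continuousAt]
  intro x
  have hi : Integrable κ := hκ.continuous.integrable_of_hasCompactSupport hc
  refine intervalIntegral.continuousAt_of_dominated_interval
    (bound := fun s => |w s| * (C * ∫ y, ‖κ y‖)) ?_ ?_ ?_ ?_
  · exact Eventually.of_forall fun y =>
      (hw.stronglyMeasurable.smul (stronglyMeasurable_J hκ.continuous hh.meas y)).aestronglyMeasurable
  · refine Eventually.of_forall fun y => Eventually.of_forall fun s _ => ?_
    rw [norm_smul, Real.norm_eq_abs]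
    exact mul_le_mul_of_nonneg_left (hh.norm_J_le hi s y) (abs_nonneg _)
  · exact (hw.abs.mul continuous_const).intervalIntegrable _ _
  · refine Eventually.of_forall fun s hs => ?_
    rw [uIoc_of_le hε.le] at hs
    exact ((hasFDerivAt_J hκ hc hh hs.1 x).continuousAt).const_smul (w s)

/-- C^1 regularity of potentials of bounded functions. -/
theorem contDiff_one_Pw [CompleteSpace G] {κ : Eu d → G} (hκ : ContDiff ℝ 2 κ)
    (hc : HasCompactSupport κ) {h : Eu d → ℝ} {C : ℝ} (hh : BM h C) {w : ℝ → ℝ}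
    (hw : Continuous w) {ε : ℝ} (hε : 0 < ε) : ContDiff ℝ 1 (Pw κ (fun s => w s * s) ε h) := by
  have h1 : ContDiff ℝ 1 κ := hκ.of_le (by norm_num)
  have h2 : ContDiff ℝ 1 (fderiv ℝ κ) := hκ.fderiv_right (by norm_num)
  have h3 : fderiv ℝ (Pw κ (fun s => w s * s) ε h) = fun x => -(Pw (fderiv ℝ κ) w ε h x) := by
    funext x
    exact (hasFDerivAt_Pw h1 hc hh hw hε x).fderiv
  rw [contDiff_one_iff_fderiv]
  refine ⟨fun x => (hasFDerivAt_Pw h1 hc hh hw hε x).differentiableAt, ?_⟩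
  rw [h3]
  exact (continuous_Pw_fderiv h2 (hc.fderiv (𝕜 := ℝ)) hh hw hε).neg

/-- derivative of the singular potentials -/
noncomputable def Pv (κ : Eu d → G) (w : ℝ → ℝ) (ε : ℝ) (h : Eu d → ℝ) (x : Eu d) : G :=
  ∫ s in (0 : ℝ)..ε, (w s * s⁻¹) • J κ h s x

theorem stronglyMeasurable_Pv_integrand {κ : Eu d → G} (hκ : Continuous κ) {h : Eu d → ℝ}
    (hm : Measurable h) {w : ℝ → ℝ} (hw : Continuous w) (x : Eu d) :
    StronglyMeasurable (fun s : ℝ => (w s * s⁻¹) • J κ h s x) := by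
  have h1 : StronglyMeasurable (fun s : ℝ => w s * s⁻¹) :=
    hw.stronglyMeasurable.mul measurable_inv.stronglyMeasurable
  exact h1.smul (stronglyMeasurable_J hκ hm x)

theorem norm_Pv_integrand_le {κ : Eu d → G} (hκ : Continuous κ) (hc : HasCompactSupport κ)
    (h0 : ∫ y, κ y = 0) {h : Eu d → ℝ} {C : ℝ} (hh : BM h C) {L s : ℝ} (hs : 0 < s) {x : Eu d}
    (hL : ∀ y, |h y - h x| ≤ L * ‖y - x‖) (w : ℝ → ℝ) :
    ‖(w s * s⁻¹) • J κ h s x‖ ≤ |w s| * (L * ∫ y, ‖y‖ * ‖κ y‖) := by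
  have h2 := norm_J_le_of_integral_zero hκ hc h0 hh hs.le hL
  rw [norm_smul, norm_mul, Real.norm_eq_abs, Real.norm_eq_abs, abs_inv, abs_of_pos hs, mul_assoc]
  refine mul_le_mul_of_nonneg_left ?_ (abs_nonneg _)
  calc s⁻¹ * ‖J κ h s x‖ ≤ s⁻¹ * (s * (L * ∫ y, ‖y‖ * ‖κ y‖)) :=
        mul_le_mul_of_nonneg_left h2 (by positivity)
    _ = L * ∫ y, ‖y‖ * ‖κ y‖ := by rw [← mul_assoc, inv_mul_cancel₀ hs.ne', one_mul]

theorem hasFDerivAt_Pw_sing [CompleteSpace G] {κ : Eu d → G} (hκ : ContDiff ℝ 1 κ)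
    (hc : HasCompactSupport κ) {h : Eu d → ℝ} {C : ℝ} (hh : BM h C) {w : ℝ → ℝ}
    (hw : Continuous w) {ε : ℝ} (hε : 0 < ε) {U : Set (Eu d)} (hU : IsOpen U) {L : ℝ}
    (hL : ∀ x ∈ U, ∀ y, |h y - h x| ≤ L * ‖y - x‖) {x : Eu d} (hx : x ∈ U) :
    HasFDerivAt (Pw κ w ε h) (-(Pv (fderiv ℝ κ) w ε h x)) x := by
  have hκ' : Continuous (fderiv ℝ κ) := hκ.continuous_fderiv one_ne_zero
  have hc' : HasCompactSupport (fderiv ℝ κ) := hc.fderiv (𝕜 := ℝ)
  have h0 : ∫ y, fderiv ℝ κ y = 0 := integral_fderiv_zero hκ hc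
  have e : -(Pv (fderiv ℝ κ) w ε h x) =
      ∫ s in (0 : ℝ)..ε, (w s) • (-(s⁻¹ • J (fderiv ℝ κ) h s x)) := by
    rw [Pv, ← intervalIntegral.integral_neg]
    refine intervalIntegral.integral_congr fun s hs => ?_
    simp only [smul_neg, smul_smul]
  rw [e]
  unfold Pw
  refine intervalIntegral.hasFDerivAt_integral_of_dominated_of_fderiv_le (s := U)
    (bound := fun s => |w s| * (L * ∫ y, ‖y‖ * ‖fderiv ℝ κ y‖))
    (F := fun x s => w s • J κ h s x)
    (F' := fun x s => w s • (-(s⁻¹ • J (fderiv ℝ κ) h s x))) (hU.mem_nhds hx) ?_ ?_ ?_ ?_ ?_ ?_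
  · exact Eventually.of_forall fun y =>
      (hw.stronglyMeasurable.smul (stronglyMeasurable_J hκ.continuous hh.meas y)).aestronglyMeasurable
  · exact hh.intervalIntegrable hκ.continuous hc hw 0 ε x
  · refine (hw.stronglyMeasurable.smul ?_).aestronglyMeasurable
    have : StronglyMeasurable (fun s : ℝ => s⁻¹) := measurable_inv.stronglyMeasurable
    exact (this.smul (stronglyMeasurable_J hκ' hh.meas x)).neg
  · refine Eventually.of_forall fun s hs y hy => ?_
    rw [uIoc_of_le hε.le] at hs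
    have h2 := norm_Pv_integrand_le hκ' hc' h0 hh hs.1 (hL y hy) w
    rw [smul_neg, norm_neg, smul_smul]
    exact h2
  · exact (hw.abs.mul continuous_const).intervalIntegrable _ _
  · refine Eventually.of_forall fun s hs y _ => ?_
    rw [uIoc_of_le hε.le] at hs
    exact (hasFDerivAt_J hκ hc hh hs.1 y).const_smul (w s)

theorem continuousOn_Pv [CompleteSpace G] {κ : Eu d → G} (hκ : ContDiff ℝ 1 κ)
    (hc : HasCompactSupport κ) (h0 : ∫ y, κ y = 0) {h : Eu d → ℝ} {C : ℝ} (hh : BM h C)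
    {w : ℝ → ℝ} (hw : Continuous w) {ε : ℝ} (hε : 0 < ε) {U : Set (Eu d)} (hU : IsOpen U) {L : ℝ}
    (hL : ∀ x ∈ U, ∀ y, |h y - h x| ≤ L * ‖y - x‖) : ContinuousOn (Pv κ w ε h) U := by
  intro x hx
  refine ContinuousAt.continuousWithinAt ?_
  refine intervalIntegral.continuousAt_of_dominated_interval
    (bound := fun s => |w s| * (L * ∫ y, ‖y‖ * ‖κ y‖)) ?_ ?_ ?_ ?_
  · exact Eventually.of_forall fun y =>
      (stronglyMeasurable_Pv_integrand hκ.continuous hh.meas hw y).aestronglyMeasurable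
  · filter_upwards [hU.mem_nhds hx] with y hy
    refine Eventually.of_forall fun s hs => ?_
    rw [uIoc_of_le hε.le] at hs
    exact norm_Pv_integrand_le hκ.continuous hc h0 hh hs.1 (hL y hy) w
  · exact (hw.abs.mul continuous_const).intervalIntegrable _ _
  · refine Eventually.of_forall fun s hs => ?_
    rw [uIoc_of_le hε.le] at hs
    exact ((hasFDerivAt_J hκ hc hh hs.1 x).continuousAt).const_smul (w s * s⁻¹)

theorem LipNear.exists_open {h : Eu d → ℝ} {x0 : Eu d} (hL : LipNear h x0) :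
    ∃ L : ℝ, ∃ U : Set (Eu d), IsOpen U ∧ x0 ∈ U ∧ ∀ x ∈ U, ∀ y, |h y - h x| ≤ L * ‖y - x‖ := by
  obtain ⟨L, hL⟩ := hL
  obtain ⟨U, hU, hUo, hxU⟩ := _root_.eventually_nhds_iff.1 hL
  exact ⟨L, U, hUo, hxU, hU⟩

/-- second derivative of the potential -/
theorem contDiffAt_two_Pw [CompleteSpace G] {κ : Eu d → G} (hκ : ContDiff ℝ 3 κ)
    (hc : HasCompactSupport κ) {h : Eu d → ℝ} {C : ℝ} (hh : BM h C) {w : ℝ → ℝ}
    (hw : Continuous w) {ε : ℝ} (hε : 0 < ε) {x0 : Eu d} (hL : LipNear h x0) :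
    ContDiffAt ℝ 2 (Pw κ (fun s => w s * s) ε h) x0 ∧
    fderiv ℝ (fderiv ℝ (Pw κ (fun s => w s * s) ε h)) x0 =
      Pv (fderiv ℝ (fderiv ℝ κ)) w ε h x0 := by
  obtain ⟨L, U, hUo, hxU, hU⟩ := hL.exists_open
  have h1 : ContDiff ℝ 1 κ := hκ.of_le (by norm_num)
  have h2 : ContDiff ℝ 2 (fderiv ℝ κ) := hκ.fderiv_right (by norm_num)
  have h2' : ContDiff ℝ 1 (fderiv ℝ κ) := h2.of_le (by norm_num)
  have h3 : ContDiff ℝ 1 (fderiv ℝ (fderiv ℝ κ)) := h2.fderiv_right (by norm_num)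
  have hc1 : HasCompactSupport (fderiv ℝ κ) := hc.fderiv (𝕜 := ℝ)
  have hc2 : HasCompactSupport (fderiv ℝ (fderiv ℝ κ)) := hc1.fderiv (𝕜 := ℝ)
  have h0 : ∫ y, fderiv ℝ (fderiv ℝ κ) y = 0 := integral_fderiv_zero h2' hc1
  have hd : ∀ x ∈ U, HasFDerivAt (fun x => -(Pw (fderiv ℝ κ) w ε h x))
      (Pv (fderiv ℝ (fderiv ℝ κ)) w ε h x) x := by
    intro x hx
    have := (hasFDerivAt_Pw_sing h2' hc1 hh hw hε hUo hU hx).neg
    rwa [neg_neg] at this
  constructor
  · have e : (2 : WithTop ℕ∞) = ((1 : ℕ) : WithTop ℕ∞) + 1 := by norm_num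
    rw [e, contDiffAt_succ_iff_hasFDerivAt]
    refine ⟨fun x => -(Pw (fderiv ℝ κ) w ε h x), ⟨univ, univ_mem, fun x _ =>
      hasFDerivAt_Pw h1 hc hh hw hε x⟩, ?_⟩
    have e1 : ((1 : ℕ) : WithTop ℕ∞) = ((0 : ℕ) : WithTop ℕ∞) + 1 := by norm_num
    rw [e1, contDiffAt_succ_iff_hasFDerivAt]
    refine ⟨fun x => Pv (fderiv ℝ (fderiv ℝ κ)) w ε h x, ⟨U, hUo.mem_nhds hxU, hd⟩, ?_⟩
    rw [Nat.cast_zero, contDiffAt_zero]
    exact ⟨U, hUo.mem_nhds hxU, continuousOn_Pv h3 hc2 h0 hh hw hε hUo hU⟩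
  · have h4 : fderiv ℝ (Pw κ (fun s => w s * s) ε h) = fun x => -(Pw (fderiv ℝ κ) w ε h x) := by
      funext x
      exact (hasFDerivAt_Pw h1 hc hh hw hε x).fderiv
    rw [h4]
    exact (hd x0 hxU).fderiv

end Pool.Agent.H314.Dir
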