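import Pool.Agent.H314.Dir.Pot
import Pool.Agent.H314.Dir.Ker

set_option autoImplicit false
open MeasureTheory Filter Topology Set Metric

namespace Pool.Agent.H314.Dir

variable {d : ℕ} {G : Type*} [NormedAddCommGroup G] [NormedSpace ℝ G]

/-- averages of a function that is Lipschitz at `x` -/
theorem norm_J_sub_le {κ : Eu d → G} (hκ : Continuous κ) (hc : HasCompactSupport κ)
    {h : Eu d → ℝ} {C : ℝ} (hh : BM h C) {L s : ℝ} (hs : 0 ≤ s) {x : Eu d}
    (hL : ∀ y, |h y - h x| ≤ L * ‖y - x‖) :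
    ‖J κ h s x - h x • ∫ y, κ y‖ ≤ s * (L * ∫ y, ‖y‖ * ‖κ y‖) := by
  have hi : Integrable κ := hκ.integrable_of_hasCompactSupport hc
  have hi2 : Integrable (fun y => ‖y‖ * ‖κ y‖) :=
    (continuous_norm.mul hκ.norm).integrable_of_hasCompactSupport (hc.norm.mul_left)
  have e1 : J κ h s x - h x • ∫ y, κ y = ∫ y, (h (x + s • y) - h x) • κ y := by
    have : (fun y => (h (x + s • y) - h x) • κ y) = fun y => h (x + s • y) • κ y - h x • κ y := by
      funext y; rw [sub_smul]
    have hi3 : Integrable (fun y => h x • κ y) := hi.smul (h x)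
    rw [this, integral_sub (hh.integrable_smul hi s x) hi3, integral_smul, J]
  rw [e1, ← integral_const_mul, ← integral_const_mul]
  refine norm_integral_le_of_norm_le ((hi2.const_mul L).const_mul s) (Eventually.of_forall fun y => ?_)
  rw [norm_smul, Real.norm_eq_abs]
  have h1 := hL (x + s • y)
  rw [add_sub_cancel_left, norm_smul, Real.norm_eq_abs, abs_of_nonneg hs] at h1
  calc |h (x + s • y) - h x| * ‖κ y‖ ≤ (L * (s * ‖y‖)) * ‖κ y‖ :=
        mul_le_mul_of_nonneg_right h1 (norm_nonneg _)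
    _ = s * (L * (‖y‖ * ‖κ y‖)) := by ring

/-- derivative of the averages with respect to the radius -/
theorem hasDerivAt_J_radius {κ : Eu d → ℝ} (hκ : ContDiff ℝ 1 κ) (hc : HasCompactSupport κ)
    {h : Eu d → ℝ} {C : ℝ} (hh : BM h C) {s0 : ℝ} (hs0 : 0 < s0) (x : Eu d) :
    HasDerivAt (fun s => J κ h s x)
      (-(s0⁻¹ * (d * J κ h s0 x + J (fun y => fderiv ℝ κ y y) h s0 x))) s0 := by
  set k1 : Eu d → ℝ := fun y => fderiv ℝ κ y y with hk1
  have hk1c : Continuous k1 := (hκ.continuous_fderiv one_ne_zero).clm_apply continuous_id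
  have hk1s : HasCompactSupport k1 := by
    refine (hc.fderiv (𝕜 := ℝ)).mono fun y hy => ?_
    rw [Function.mem_support] at hy ⊢
    intro h0
    apply hy
    rw [hk1]; simp [h0]
  obtain ⟨B, hB⟩ := hk1s.exists_bound_of_continuous hk1c
  obtain ⟨R, hR⟩ := hk1s.isCompact.isBounded.subset_closedBall 0
  have hR' : ∀ y : Eu d, |R| < ‖y‖ → k1 y = 0 := by
    intro y hy
    by_contra h0
    have := hR (subset_tsupport _ (Function.mem_support.2 h0))
    rw [mem_closedBall_zero_iff] at this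
    linarith [le_abs_self R]
  have hB0 : 0 ≤ B := (norm_nonneg _).trans (hB 0)
  have hC0 : 0 ≤ C := (abs_nonneg _).trans (hh.bd 0)
  set Φ : ℝ → ℝ := fun s => ∫ t, h t * κ (-(s⁻¹ • (x - t))) with hΦ
  set F' : ℝ → Eu d → ℝ := fun s t => h t * (-(s⁻¹ * k1 (-(s⁻¹ • (x - t))))) with hF'
  have hR0 : 0 ≤ |R| := abs_nonneg _
  have key := hasDerivAt_integral_of_dominated_loc_of_deriv_le (μ := (volume : Measure (Eu d)))
    (F := fun s t => h t * κ (-(s⁻¹ • (x - t)))) (F' := F') (x₀ := s0) (s := Ioo (s0 / 2) (2 * s0))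
    (bound := indicator (closedBall x (2 * s0 * |R|)) (fun _ => C * (2 / s0 * B)))
    (Ioo_mem_nhds (by linarith) (by linarith)) ?_ ?_ ?_ ?_ ?_ ?_
  · have h2 : HasDerivAt (fun s : ℝ => (s ^ d)⁻¹) (-(d * (s0 ^ d)⁻¹ * s0⁻¹)) s0 := by
      have h3 : HasDerivAt (fun s : ℝ => s ^ d) (d * s0 ^ (d - 1)) s0 := hasDerivAt_pow d s0
      have h4 : HasDerivAt (fun s : ℝ => (s ^ d)⁻¹) (-(↑d * s0 ^ (d - 1)) / (s0 ^ d) ^ 2) s0 :=
        h3.inv (pow_ne_zero d hs0.ne')
      refine h4.congr_deriv ?_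
      rcases Nat.eq_zero_or_pos d with rfl | hd
      · simp
      · have : s0 ^ d = s0 ^ (d - 1) * s0 := by
          rw [← pow_succ, Nat.sub_add_cancel hd]
        rw [this]
        field_simp
    have h5 := h2.mul key.2
    have h6 : (fun s => J κ h s x) =ᶠ[𝓝 s0] fun s => (s ^ d)⁻¹ * Φ s := by
      filter_upwards [lt_mem_nhds hs0] with s hs
      rw [J_eq_conv κ h hs x]
      rfl
    refine (h5.congr_of_eventuallyEq h6).congr_deriv ?_
    have h7 : J κ h s0 x = (s0 ^ d)⁻¹ * ∫ t, h t * κ (-(s0⁻¹ • (x - t))) := by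
      rw [J_eq_conv κ h hs0 x]; rfl
    have h8 : J k1 h s0 x = (s0 ^ d)⁻¹ * ∫ t, h t * k1 (-(s0⁻¹ • (x - t))) := by
      rw [J_eq_conv k1 h hs0 x]; rfl
    have h9 : (∫ t, F' s0 t) = -(s0⁻¹ * ∫ t, h t * k1 (-(s0⁻¹ • (x - t)))) := by
      rw [← integral_const_mul, ← integral_neg]
      congr 1
      funext t
      simp only [hF']
      ring
    rw [h7, h8, h9]
    ring
  · refine Eventually.of_forall fun s => ?_
    refine (hh.meas.mul ?_).aestronglyMeasurable
    exact (hκ.continuous.comp (by fun_prop)).measurable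
  · have := hh.locallyIntegrable
    have h1 : HasCompactSupport (fun t => κ (-(s0⁻¹ • (x - t)))) := by
      obtain ⟨R2, hR2⟩ := hc.isCompact.isBounded.subset_closedBall 0
      refine HasCompactSupport.intro (isCompact_closedBall x (s0 * |R2|)) fun t ht => ?_
      by_contra h0
      apply ht
      have h3 := hR2 (subset_tsupport _ (Function.mem_support.2 h0))
      rw [mem_closedBall_zero_iff, norm_neg, norm_smul, norm_inv, Real.norm_eq_abs,
        abs_of_pos hs0] at h3
      rw [mem_closedBall, dist_eq_norm, norm_sub_rev]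
      rw [inv_mul_le_iff₀ hs0] at h3
      exact h3.trans (mul_le_mul_of_nonneg_left (le_abs_self _) hs0.le)
    have h2 : Continuous (fun t => κ (-(s0⁻¹ • (x - t)))) := hκ.continuous.comp (by fun_prop)
    exact this.integrable_smul_right_of_hasCompactSupport h2 h1
  · refine (hh.meas.mul ?_).aestronglyMeasurable
    exact ((hk1c.comp (by fun_prop : Continuous fun t => -(s0⁻¹ • (x - t)))).const_mul s0⁻¹ |>.neg).measurable
  · refine Eventually.of_forall fun t s hs => ?_
    have hs1 : 0 < s := by linarith [hs.1]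
    simp only [hF']
    by_cases ht : t ∈ closedBall x (2 * s0 * |R|)
    · rw [indicator_of_mem ht, norm_mul, norm_neg, norm_mul]
      have h1 : ‖s⁻¹‖ ≤ 2 / s0 := by
        rw [Real.norm_eq_abs, abs_of_pos (inv_pos.2 hs1), inv_le_comm₀ hs1 (by positivity), inv_div]
        exact hs.1.le
      exact mul_le_mul (hh.bd t) (mul_le_mul h1 (hB _) (norm_nonneg _) (by positivity))
        (by positivity) hC0
    · rw [indicator_of_notMem ht]
      have : k1 (-(s⁻¹ • (x - t))) = 0 := by
        apply hR'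
        rw [norm_neg, norm_smul, norm_inv, Real.norm_eq_abs, abs_of_pos hs1, lt_inv_mul_iff₀ hs1]
        rw [mem_closedBall, dist_eq_norm, norm_sub_rev, not_le] at ht
        refine lt_of_le_of_lt ?_ ht
        exact mul_le_mul_of_nonneg_right hs.2.le hR0
      rw [this]; simp
  · rw [integrable_indicator_iff measurableSet_closedBall]
    exact integrableOn_const (measure_closedBall_lt_top.ne)
  · refine Eventually.of_forall fun t s hs => ?_
    have hs1 : 0 < s := by linarith [hs.1]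
    have h1 : HasDerivAt (fun s : ℝ => -(s⁻¹ • (x - t))) (-((-(s ^ 2)⁻¹) • (x - t))) s :=
      ((hasDerivAt_inv hs1.ne').smul_const (x - t)).neg
    have h2 := ((hκ.differentiable one_ne_zero (-(s⁻¹ • (x - t)))).hasFDerivAt).comp_hasDerivAt s h1
    refine (h2.const_mul (h t)).congr_deriv ?_
    simp only [hF', hk1]
    congr 1
    have : -((-(s ^ 2)⁻¹) • (x - t)) = (-s⁻¹) • (-(s⁻¹ • (x - t))) := by
      rw [smul_neg, smul_smul]
      congr 2
      rw [neg_mul]
      congr 1
      field_simp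
    rw [this, map_smul, smul_eq_mul]
    ring

theorem J_clm {G' : Type*} [NormedAddCommGroup G'] [NormedSpace ℝ G'] [CompleteSpace G]
    [CompleteSpace G'] (T : G →L[ℝ] G') {κ : Eu d → G} (hκ : Integrable κ) {h : Eu d → ℝ} {C : ℝ}
    (hh : BM h C) (s : ℝ) (x : Eu d) : J (fun y => T (κ y)) h s x = T (J κ h s x) := by
  rw [J, J, ← ContinuousLinearMap.integral_comp_comm T (hh.integrable_smul hκ s x)]
  congr 1
  funext y
  rw [map_smul]

/-- the trace of the second derivative as a continuous linear map -/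
noncomputable def lapT (d : ℕ) : (Eu d →L[ℝ] (Eu d →L[ℝ] ℝ)) →L[ℝ] ℝ :=
  ∑ i : Fin d, (ContinuousLinearMap.apply ℝ ℝ (EuclideanSpace.single i (1 : ℝ) : Eu d)).comp
    (ContinuousLinearMap.apply ℝ (Eu d →L[ℝ] ℝ) (EuclideanSpace.single i (1 : ℝ) : Eu d))

theorem lap_eq_lapT (u : Eu d → ℝ) (x : Eu d) : lap u x = lapT d (fderiv ℝ (fderiv ℝ u) x) := by
  rw [lap, lapT, _root_.sum_apply]
  refine Finset.sum_congr rfl fun i _ => ?_
  rw [iteratedFDeriv_two_apply]
  rfl

theorem intervalIntegrable_Pv {κ : Eu d → G} (hκ : Continuous κ) (hc : HasCompactSupport κ)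
    (h0 : ∫ y, κ y = 0) {h : Eu d → ℝ} {C : ℝ} (hh : BM h C) {w : ℝ → ℝ} (hw : Continuous w)
    {ε : ℝ} (hε : 0 < ε) {L : ℝ} {x : Eu d} (hL : ∀ y, |h y - h x| ≤ L * ‖y - x‖) :
    IntervalIntegrable (fun s : ℝ => (w s * s⁻¹) • J κ h s x) volume 0 ε := by
  have hb : IntervalIntegrable (fun s => |w s| * (L * ∫ y, ‖y‖ * ‖κ y‖)) volume 0 ε :=
    (hw.abs.mul continuous_const).intervalIntegrable _ _
  refine hb.mono_fun (stronglyMeasurable_Pv_integrand hκ hh.meas hw x).aestronglyMeasurable ?_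
  refine (ae_restrict_iff' measurableSet_uIoc).2 (Eventually.of_forall fun s hs => ?_)
  rw [uIoc_of_le hε.le] at hs
  refine (norm_Pv_integrand_le hκ hc h0 hh hs.1 hL w).trans ?_
  exact le_abs_self _

theorem Pv_clm [CompleteSpace G] (T : G →L[ℝ] ℝ) {κ : Eu d → G} (hκ : Continuous κ)
    (hc : HasCompactSupport κ) (h0 : ∫ y, κ y = 0) {h : Eu d → ℝ} {C : ℝ} (hh : BM h C)
    {w : ℝ → ℝ} (hw : Continuous w) {ε : ℝ} (hε : 0 < ε) {L : ℝ} {x : Eu d}
    (hL : ∀ y, |h y - h x| ≤ L * ‖y - x‖) :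
    Pv (fun y => T (κ y)) w ε h x = T (Pv κ w ε h x) := by
  rw [Pv, Pv, ← ContinuousLinearMap.intervalIntegral_comp_comm T
    (intervalIntegrable_Pv hκ hc h0 hh hw hε hL)]
  congr 1
  funext s
  rw [map_smul, J_clm T (hκ.integrable_of_hasCompactSupport hc) hh]

theorem integrable_rho : Integrable (rho : Eu d → ℝ) :=
  contDiff_rho.continuous.integrable_of_hasCompactSupport hasCompactSupport_rho

theorem integrable_sig : Integrable (sig : Eu d → ℝ) :=
  contDiff_sig.continuous.integrable_of_hasCompactSupport hasCompactSupport_sig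

theorem J_add_kernel {κ κ' : Eu d → ℝ} (hκ : Integrable κ) (hκ' : Integrable κ') {h : Eu d → ℝ}
    {C : ℝ} (hh : BM h C) (s : ℝ) (x : Eu d) :
    J (fun y => κ y + κ' y) h s x = J κ h s x + J κ' h s x := by
  rw [J, J, J, ← integral_add (hh.integrable_smul hκ s x) (hh.integrable_smul hκ' s x)]
  congr 1
  funext y
  rw [smul_add]

theorem J_const_mul_kernel (c : ℝ) (κ : Eu d → ℝ) (h : Eu d → ℝ) (s : ℝ) (x : Eu d) :
    J (fun y => c * κ y) h s x = c * J κ h s x := by
  rw [J, J, ← integral_const_mul]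
  congr 1
  funext y
  simp only [smul_eq_mul]
  ring

theorem J_lap_sig {h : Eu d → ℝ} {C : ℝ} (hh : BM h C) (s : ℝ) (x : Eu d) :
    J (lap (sig : Eu d → ℝ)) h s x =
      -(d * J rho h s x + J (fun y => fderiv ℝ rho y y) h s x) := by
  have h1 : Integrable (fun y : Eu d => fderiv ℝ rho y y) := by
    have hc := hasCompactSupport_rho (d := d)
    refine ((contDiff_rho.continuous_fderiv (by norm_num)).clm_apply
      continuous_id).integrable_of_hasCompactSupport ((hc.fderiv (𝕜 := ℝ)).mono fun y hy => ?_)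
    rw [Function.mem_support] at hy ⊢
    intro h0
    apply hy
    simp [h0]
  have e : (lap (sig : Eu d → ℝ)) = fun y => -((fun y => d * rho y + fderiv ℝ rho y y) y) := by
    funext y
    rw [lap_sig]
    ring
  have e2 : J (fun y : Eu d => -((fun y => d * rho y + fderiv ℝ rho y y) y)) h s x =
      -(J (fun y : Eu d => d * rho y + fderiv ℝ rho y y) h s x) := by
    rw [J, J, ← integral_neg]
    congr 1
    funext y
    rw [smul_neg]
  rw [e, e2, J_add_kernel (integrable_rho.const_mul (d : ℝ)) h1 hh, J_const_mul_kernel]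

theorem hasDerivAt_J_rho {h : Eu d → ℝ} {C : ℝ} (hh : BM h C) {s0 : ℝ} (hs0 : 0 < s0) (x : Eu d) :
    HasDerivAt (fun s => J rho h s x) (s0⁻¹ * J (lap (sig : Eu d → ℝ)) h s0 x) s0 := by
  refine (hasDerivAt_J_radius (contDiff_rho.of_le (by norm_num)) hasCompactSupport_rho hh hs0
    x).congr_deriv ?_
  rw [J_lap_sig hh]
  ring

theorem hasCompactSupport_lap_sig : HasCompactSupport (lap (sig : Eu d → ℝ)) := by
  have h1 : HasCompactSupport (fderiv ℝ (fderiv ℝ (sig : Eu d → ℝ))) :=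
    (hasCompactSupport_sig.fderiv (𝕜 := ℝ)).fderiv (𝕜 := ℝ)
  refine h1.mono fun y hy => ?_
  rw [Function.mem_support] at hy ⊢
  intro h0
  apply hy
  rw [lap_eq_lapT, h0, map_zero]

theorem continuous_lap_sig : Continuous (lap (sig : Eu d → ℝ)) := by
  have h1 : ContDiff ℝ 2 (fderiv ℝ (sig : Eu d → ℝ)) := contDiff_sig.fderiv_right (by norm_num)
  have h2 : Continuous (fderiv ℝ (fderiv ℝ (sig : Eu d → ℝ))) := h1.continuous_fderiv (by norm_num)
  have : lap (sig : Eu d → ℝ) = fun x => lapT d (fderiv ℝ (fderiv ℝ (sig : Eu d → ℝ)) x) := by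
    funext x; exact lap_eq_lapT _ x
  rw [this]
  exact (lapT d).continuous.comp h2

theorem integral_fderiv2_sig : ∫ y, fderiv ℝ (fderiv ℝ (sig : Eu d → ℝ)) y = 0 :=
  integral_fderiv_zero ((contDiff_sig.fderiv_right (by norm_num) :
    ContDiff ℝ 2 (fderiv ℝ (sig : Eu d → ℝ))).of_le (by norm_num)) (hasCompactSupport_sig.fderiv (𝕜 := ℝ))

theorem integral_lap_sig : ∫ y, lap (sig : Eu d → ℝ) y = 0 := by
  have h1 : ContDiff ℝ 2 (fderiv ℝ (sig : Eu d → ℝ)) := contDiff_sig.fderiv_right (by norm_num)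
  have h2 := (h1.continuous_fderiv (by norm_num)).integrable_of_hasCompactSupport
    (μ := (volume : Measure (Eu d))) ((hasCompactSupport_sig.fderiv (𝕜 := ℝ)).fderiv (𝕜 := ℝ))
  have h3 : (∫ y, lap (sig : Eu d → ℝ) y) = ∫ y, lapT d (fderiv ℝ (fderiv ℝ (sig : Eu d → ℝ)) y) := by
    congr 1; funext y; exact lap_eq_lapT _ y
  rw [h3, ContinuousLinearMap.integral_comp_comm _ h2, integral_fderiv2_sig, map_zero]

/-- integration of the radial derivative -/
theorem ftc_J (c : ℝ) {ε : ℝ} (hε : 0 < ε) {h : Eu d → ℝ} {C : ℝ} (hh : BM h C) {L : ℝ} {x : Eu d}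
    (hL : ∀ y, |h y - h x| ≤ L * ‖y - x‖) :
    Pv (lap (sig : Eu d → ℝ)) (fun s => 1 - c * s ^ 2) ε h x =
      (1 - c * ε ^ 2) * J rho h ε x - h x + 2 * c * ∫ s in (0 : ℝ)..ε, s * J rho h s x := by
  have hw : Continuous (fun s : ℝ => 1 - c * s ^ 2) := by fun_prop
  have hi1 := intervalIntegrable_Pv continuous_lap_sig hasCompactSupport_lap_sig integral_lap_sig
    hh hw hε hL
  have hi2 : IntervalIntegrable (fun s => (-(2 * c * s)) * J rho h s x) volume 0 ε := by
    have := hh.intervalIntegrable contDiff_rho.continuous hasCompactSupport_rho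
      (by fun_prop : Continuous (fun s : ℝ => -(2 * c * s))) 0 ε x
    simpa using this
  set f : ℝ → ℝ := fun s => (1 - c * s ^ 2) * J rho h s x with hf
  have hder : ∀ s, 0 < s → HasDerivAt f ((-(2 * c * s)) * J rho h s x +
      ((1 - c * s ^ 2) * s⁻¹) • J (lap (sig : Eu d → ℝ)) h s x) s := by
    intro s hs
    have h1 : HasDerivAt (fun s : ℝ => 1 - c * s ^ 2) (-(2 * c * s)) s := by
      have := ((hasDerivAt_pow 2 s).const_mul c).const_sub 1
      refine this.congr_deriv ?_
      norm_num; ring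
    refine (h1.mul (hasDerivAt_J_rho hh hs x)).congr_deriv ?_
    rw [smul_eq_mul]; ring
  have hf0 : f 0 = h x := by
    have : J rho h 0 x = h x := by
      have e : J rho h 0 x = ∫ y : Eu d, h x • rho y := by
        rw [J]; congr 1; funext y; rw [zero_smul, add_zero]
      rw [e, integral_smul, integral_rho, smul_eq_mul, mul_one]
    simp [hf, this]
  have hcont : ContinuousOn f (Icc 0 ε) := by
    intro s hs
    rcases hs.1.eq_or_lt with h0 | h0
    · subst h0
      refine ContinuousWithinAt.mul (by fun_prop) ?_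
      rw [Metric.continuousWithinAt_iff]
      intro η hη
      set M : ℝ := L * ∫ y : Eu d, ‖y‖ * ‖rho y‖ with hM
      refine ⟨η / (|M| + 1), by positivity, fun s hs hsd => ?_⟩
      have h1 := norm_J_sub_le contDiff_rho.continuous hasCompactSupport_rho hh hs.1 hL
      rw [integral_rho, smul_eq_mul, mul_one] at h1
      have h2 : J rho h 0 x = h x := by
        have := hf0
        simpa [hf] using this
      rw [Real.dist_eq, sub_zero, abs_of_nonneg hs.1] at hsd
      rw [Real.dist_eq, h2, ← Real.norm_eq_abs]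
      refine h1.trans_lt ?_
      rw [← hM]
      calc s * M ≤ s * |M| := mul_le_mul_of_nonneg_left (le_abs_self _) hs.1
        _ ≤ s * (|M| + 1) := mul_le_mul_of_nonneg_left (by linarith) hs.1
        _ < η := by rwa [lt_div_iff₀ (by positivity)] at hsd
    · exact (hder s h0).continuousAt.continuousWithinAt
  have key := intervalIntegral.integral_eq_sub_of_hasDerivAt_of_le hε.le hcont
    (fun s hs => hder s hs.1) (hi2.add hi1)
  rw [intervalIntegral.integral_add hi2 hi1, hf0] at key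
  have e3 : (∫ s in (0 : ℝ)..ε, (-(2 * c * s)) * J rho h s x) =
      -(2 * c * ∫ s in (0 : ℝ)..ε, s * J rho h s x) := by
    rw [← intervalIntegral.integral_const_mul, ← intervalIntegral.integral_neg]
    congr 1
    funext s
    ring
  rw [e3] at key
  rw [Pv]
  simp only [hf] at key
  linarith

/-- The local potential with weight `1 - c s ^ 2`. -/
noncomputable def Npot (c ε : ℝ) (h : Eu d → ℝ) (x : Eu d) : ℝ :=
  Pw sig (fun s => (1 - c * s ^ 2) * s) ε h x

theorem contDiff_Npot {c ε C : ℝ} (hε : 0 < ε) {h : Eu d → ℝ} (hh : BM h C) :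
    ContDiff ℝ 1 (Npot c ε h) :=
  contDiff_one_Pw (contDiff_sig.of_le (by norm_num)) hasCompactSupport_sig hh
    (by fun_prop : Continuous (fun s : ℝ => 1 - c * s ^ 2)) hε

theorem contDiffAt_Npot {c ε C : ℝ} (hε : 0 < ε) {h : Eu d → ℝ} (hh : BM h C) {x0 : Eu d}
    (hL : LipNear h x0) :
    ContDiffAt ℝ 2 (Npot c ε h) x0 ∧
    lap (Npot c ε h) x0 = (1 - c * ε ^ 2) * J rho h ε x0 - h x0 +
      2 * c * ∫ s in (0 : ℝ)..ε, s * J rho h s x0 := by
  have hw : Continuous (fun s : ℝ => 1 - c * s ^ 2) := by fun_prop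
  obtain ⟨h1, h2⟩ := contDiffAt_two_Pw contDiff_sig hasCompactSupport_sig hh hw hε hL
  refine ⟨h1, ?_⟩
  obtain ⟨L, U, hUo, hxU, hU⟩ := hL.exists_open
  have hL' := hU x0 hxU
  rw [← ftc_J c hε hh hL', lap_eq_lapT]
  have e : Npot c ε h = Pw sig (fun s => (1 - c * s ^ 2) * s) ε h := rfl
  rw [e, h2, ← Pv_clm (lapT d) ?_ ?_ integral_fderiv2_sig hh hw hε hL']
  · congr 1
    funext y
    exact (lap_eq_lapT _ y).symm
  · exact (contDiff_sig.fderiv_right (by norm_num) : ContDiff ℝ 2 (fderiv ℝ (sig : Eu d → ℝ))).continuous_fderiv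
      (by norm_num)
  · exact (hasCompactSupport_sig.fderiv (𝕜 := ℝ)).fderiv (𝕜 := ℝ)

end Pool.Agent.H314.Dir
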