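import Pool.Agent.H314.Dir.Pot2

set_option autoImplicit false
open MeasureTheory Filter Topology Set Metric

namespace Pool.Agent.H314.Dir

variable {d : ℕ} {G : Type*} [NormedAddCommGroup G] [NormedSpace ℝ G]

theorem lipNear_of_lipschitzOn {h : Eu d → ℝ} {C : ℝ} (hb : ∀ x, |h x| ≤ C) {x0 : Eu d}
    {K : NNReal} {U : Set (Eu d)} (hU : U ∈ 𝓝 x0) (hK : LipschitzOnWith K h U) :
    LipNear h x0 := by
  obtain ⟨r, hr, hrU⟩ := Metric.mem_nhds_iff.1 hU
  have hC0 : 0 ≤ C := (abs_nonneg _).trans (hb 0)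
  refine ⟨max K (2 * C / (r / 2)), ?_⟩
  filter_upwards [ball_mem_nhds x0 (half_pos hr)] with x hx y
  by_cases hy : y ∈ ball x0 r
  · have h1 := hK.dist_le_mul y (hrU hy) x (hrU (ball_subset_ball (by linarith) hx))
    rw [Real.dist_eq, dist_eq_norm] at h1
    exact h1.trans (mul_le_mul_of_nonneg_right (le_max_left _ _) (norm_nonneg _))
  · have h1 : r / 2 ≤ ‖y - x‖ := by
      rw [← dist_eq_norm]
      rw [mem_ball] at hx hy
      have := dist_triangle y x x0
      linarith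
    have h2 : |h y - h x| ≤ 2 * C := by
      calc |h y - h x| ≤ |h y| + |h x| := abs_sub _ _
        _ ≤ 2 * C := by linarith [hb x, hb y]
    calc |h y - h x| ≤ 2 * C := h2
      _ = (2 * C / (r / 2)) * (r / 2) := by field_simp
      _ ≤ (2 * C / (r / 2)) * ‖y - x‖ := mul_le_mul_of_nonneg_left h1 (by positivity)
      _ ≤ max (K : ℝ) (2 * C / (r / 2)) * ‖y - x‖ :=
        mul_le_mul_of_nonneg_right (le_max_right _ _) (norm_nonneg _)

theorem lipNear_of_locallyLipschitz {h : Eu d → ℝ} {C : ℝ} (hb : ∀ x, |h x| ≤ C)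
    (hL : LocallyLipschitz h) (x0 : Eu d) : LipNear h x0 := by
  obtain ⟨K, U, hU, hK⟩ := hL x0
  exact lipNear_of_lipschitzOn hb hU hK

theorem contDiff_J_rho {h : Eu d → ℝ} {C : ℝ} (hh : BM h C) {ε : ℝ} (hε : 0 < ε) :
    ContDiff ℝ 2 (J rho h ε) := by
  set g : Eu d → ℝ := fun v => rho (-(ε⁻¹ • v)) with hg
  have hgc : ContDiff ℝ 2 g := contDiff_rho.comp (by fun_prop)
  have hgs : HasCompactSupport g := by
    have := (hasCompactSupport_rho (d := d)).comp_homeomorph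
      (Homeomorph.smulOfNeZero (-ε⁻¹) (by simp [hε.ne'] : (-ε⁻¹ : ℝ) ≠ 0) : Eu d ≃ₜ Eu d)
    convert this using 1
    funext v
    simp [hg, neg_smul]
  have e1 : J rho h ε = fun x => (ε ^ d)⁻¹ •
      (convolution h g (ContinuousLinearMap.lsmul ℝ ℝ) volume) x := by
    funext x
    rw [J_eq_conv rho h hε x]
    rfl
  rw [e1]
  exact (hgs.contDiff_convolution_right (ContinuousLinearMap.lsmul ℝ ℝ) hh.locallyIntegrable
    hgc).const_smul _

theorem lap_J_rho {h : Eu d → ℝ} {C : ℝ} (hh : BM h C) {ε : ℝ} (hε : 0 < ε) (x : Eu d) :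
    lap (J rho h ε) x = (ε⁻¹ * ε⁻¹) * J (lap (rho : Eu d → ℝ)) h ε x := by
  have h1 : ContDiff ℝ 1 (rho : Eu d → ℝ) := contDiff_rho.of_le (by norm_num)
  have h2 : ContDiff ℝ 1 (fderiv ℝ (rho : Eu d → ℝ)) := contDiff_rho.fderiv_right (by norm_num)
  have hc := hasCompactSupport_rho (d := d)
  have hc1 := hc.fderiv (𝕜 := ℝ)
  have hc2 := hc1.fderiv (𝕜 := ℝ)
  have e1 : fderiv ℝ (J rho h ε) = fun x => -(ε⁻¹ • J (fderiv ℝ (rho : Eu d → ℝ)) h ε x) := by
    funext x
    exact (hasFDerivAt_J h1 hc hh hε x).fderiv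
  have e2 : fderiv ℝ (fderiv ℝ (J rho h ε)) x =
      (ε⁻¹ * ε⁻¹) • J (fderiv ℝ (fderiv ℝ (rho : Eu d → ℝ))) h ε x := by
    rw [e1]
    have := ((hasFDerivAt_J h2 hc1 hh hε x).const_smul ε⁻¹).neg.fderiv
    rw [smul_neg, neg_neg, smul_smul] at this
    exact this
  have hi := (h2.continuous_fderiv one_ne_zero).integrable_of_hasCompactSupport
    (μ := (volume : Measure (Eu d))) hc2
  have e3 := J_clm (lapT d) hi hh ε x
  rw [lap_eq_lapT, e2, map_smul, smul_eq_mul, ← e3]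
  congr 2
  funext y
  exact (lap_eq_lapT _ y).symm

theorem J_tendsto {κ : Eu d → G} (hκ : Integrable κ) {hn : ℕ → Eu d → ℝ} {h : Eu d → ℝ} {C : ℝ}
    (hh : ∀ n, BM (hn n) C) (hlim : ∀ x, Tendsto (fun n => hn n x) atTop (𝓝 (h x))) (s : ℝ)
    (x : Eu d) : Tendsto (fun n => J κ (hn n) s x) atTop (𝓝 (J κ h s x)) := by
  unfold J
  refine tendsto_integral_of_dominated_convergence (fun y => C * ‖κ y‖) ?_ (hκ.norm.const_mul C)
    ?_ ?_
  · exact fun n => ((hh n).integrable_smul hκ s x).aestronglyMeasurable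
  · refine fun n => Eventually.of_forall fun y => ?_
    rw [norm_smul, Real.norm_eq_abs]
    exact mul_le_mul_of_nonneg_right ((hh n).bd _) (norm_nonneg _)
  · exact Eventually.of_forall fun y => (hlim _).smul_const _

theorem Pw_tendsto {κ : Eu d → G} (hκ : Continuous κ) (hc : HasCompactSupport κ)
    {hn : ℕ → Eu d → ℝ} {h : Eu d → ℝ} {C : ℝ}
    (hh : ∀ n, BM (hn n) C) (hlim : ∀ x, Tendsto (fun n => hn n x) atTop (𝓝 (h x)))
    {w : ℝ → ℝ} (hw : Continuous w) (ε : ℝ) (x : Eu d) :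
    Tendsto (fun n => Pw κ w ε (hn n) x) atTop (𝓝 (Pw κ w ε h x)) := by
  have hi : Integrable κ := hκ.integrable_of_hasCompactSupport hc
  unfold Pw
  refine intervalIntegral.tendsto_integral_filter_of_dominated_convergence
    (fun s => |w s| * (C * ∫ y, ‖κ y‖)) ?_ ?_ ?_ ?_
  · exact Eventually.of_forall fun n =>
      (hw.stronglyMeasurable.smul (stronglyMeasurable_J hκ (hh n).meas x)).aestronglyMeasurable
  · refine Eventually.of_forall fun n => Eventually.of_forall fun s _ => ?_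
    rw [norm_smul, Real.norm_eq_abs]
    exact mul_le_mul_of_nonneg_left ((hh n).norm_J_le hi s x) (abs_nonneg _)
  · exact (hw.abs.mul continuous_const).intervalIntegrable _ _
  · exact Eventually.of_forall fun s _ => (J_tendsto hi hh hlim s x).const_smul (w s)

theorem BM.of_tendsto {hn : ℕ → Eu d → ℝ} {h : Eu d → ℝ} {C : ℝ}
    (hh : ∀ n, BM (hn n) C) (hlim : ∀ x, Tendsto (fun n => hn n x) atTop (𝓝 (h x))) : BM h C :=
  ⟨measurable_of_tendsto_metrizable (fun n => (hh n).meas) (tendsto_pi_nhds.2 hlim),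
    fun x => le_of_tendsto (hlim x).abs (Eventually.of_forall fun n => (hh n).bd x)⟩

theorem J_congr {κ : Eu d → G} (hκ : ∀ y, 1 ≤ ‖y‖ → κ y = 0) {h h' : Eu d → ℝ} {s ε : ℝ}
    (hs : 0 ≤ s) (hsε : s ≤ ε) {x : Eu d} (he : ∀ y ∈ closedBall x ε, h y = h' y) :
    J κ h s x = J κ h' s x := by
  unfold J
  congr 1
  funext y
  rcases le_or_gt 1 ‖y‖ with hy | hy
  · rw [hκ y hy, smul_zero, smul_zero]
  · rw [he]
    rw [mem_closedBall, dist_eq_norm, add_sub_cancel_left, norm_smul, Real.norm_eq_abs,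
      abs_of_nonneg hs]
    nlinarith [norm_nonneg y]

theorem Pw_congr {κ : Eu d → G} (hκ : ∀ y, 1 ≤ ‖y‖ → κ y = 0) {h h' : Eu d → ℝ} {w : ℝ → ℝ}
    {ε : ℝ} (hε : 0 ≤ ε) {x : Eu d} (he : ∀ y ∈ closedBall x ε, h y = h' y) :
    Pw κ w ε h x = Pw κ w ε h' x := by
  unfold Pw
  refine intervalIntegral.integral_congr fun s hs => ?_
  rw [uIcc_of_le hε] at hs
  rw [J_congr hκ hs.1 hs.2 he]

theorem hasFDerivAt_affine (x y : Eu d) (s : ℝ) :
    HasFDerivAt (fun y : Eu d => x + s • y) (s • ContinuousLinearMap.id ℝ (Eu d)) y :=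
  ((hasFDerivAt_id y).const_smul s).const_add x

theorem lap_comp_affine {u : Eu d → ℝ} (hu : ContDiff ℝ 2 u) (x y : Eu d) (s : ℝ) :
    lap (fun y => u (x + s • y)) y = s ^ 2 * lap u (x + s • y) := by
  have h1 : fderiv ℝ (fun y => u (x + s • y)) = fun y => s • fderiv ℝ u (x + s • y) := by
    funext y
    have := ((hu.differentiable (by norm_num) (x + s • y)).hasFDerivAt).comp y
      (hasFDerivAt_affine x y s)
    refine this.fderiv.trans ?_
    ext v
    simp
  have h2 : fderiv ℝ (fderiv ℝ (fun y => u (x + s • y))) y =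
      (s ^ 2) • fderiv ℝ (fderiv ℝ u) (x + s • y) := by
    rw [h1]
    have hd : DifferentiableAt ℝ (fderiv ℝ u) (x + s • y) :=
      (hu.fderiv_right (by norm_num : (1 : WithTop ℕ∞) + 1 ≤ 2)).differentiable one_ne_zero _
    have := (hd.hasFDerivAt.comp y (hasFDerivAt_affine x y s)).const_smul s
    refine this.fderiv.trans ?_
    ext v w
    simp [smul_smul, pow_two]
  rw [lap_eq_lapT, h2, map_smul, smul_eq_mul, lap_eq_lapT]

theorem J_lap_eq {κ u : Eu d → ℝ} (hκ : ContDiff ℝ 2 κ) (hc : HasCompactSupport κ)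
    (hu : ContDiff ℝ 2 u) (s : ℝ) (x : Eu d) :
    J (lap κ) u s x = s ^ 2 * J κ (lap u) s x := by
  have hv : ContDiff ℝ 2 (fun y => u (x + s • y)) := hu.comp (by fun_prop)
  have := green hκ hc hv
  rw [J, J, ← integral_const_mul]
  calc (∫ y, u (x + s • y) • lap κ y) = ∫ y, lap κ y * u (x + s • y) := by
        congr 1; funext y; rw [smul_eq_mul, mul_comm]
    _ = ∫ y, κ y * lap (fun y => u (x + s • y)) y := this
    _ = ∫ y, s ^ 2 * (lap u (x + s • y) • κ y) := by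
        congr 1; funext y; rw [lap_comp_affine hu, smul_eq_mul]; ring

theorem lipNear_of_contDiff {u : Eu d → ℝ} {C : ℝ} (hb : ∀ x, |u x| ≤ C) (hu : ContDiff ℝ 1 u)
    (x0 : Eu d) : LipNear u x0 :=
  lipNear_of_locallyLipschitz hb hu.locallyLipschitz x0

/-- representation formula -/
theorem represent {u : Eu d → ℝ} (hu : ContDiff ℝ 2 u) {C : ℝ} (hb : ∀ x, |u x| ≤ C)
    {ε : ℝ} (hε : 0 < ε) (x : Eu d) :
    u x = J rho u ε x + Npot 0 ε (fun y => - lap u y) x := by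
  have hh : BM u C := ⟨hu.continuous.measurable, hb⟩
  obtain ⟨L, U, -, hxU, hU⟩ := (lipNear_of_contDiff hb (hu.of_le (by norm_num)) x).exists_open
  have h1 := ftc_J 0 hε hh (hU x hxU)
  have h2 : Pv (lap (sig : Eu d → ℝ)) (fun s => 1 - 0 * s ^ 2) ε u x =
      - Npot 0 ε (fun y => - lap u y) x := by
    rw [Pv, Npot, Pw, ← intervalIntegral.integral_neg]
    refine intervalIntegral.integral_congr_ae (Eventually.of_forall fun s hs => ?_)
    rw [uIoc_of_le hε.le] at hs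
    rw [J_lap_eq (contDiff_sig.of_le (by norm_num)) hasCompactSupport_sig hu]
    have : J (sig : Eu d → ℝ) (fun y => - lap u y) s x = - J (sig : Eu d → ℝ) (lap u) s x := by
      rw [J, J, ← integral_neg]
      congr 1; funext y; rw [neg_smul]
    rw [this]
    have hs0 : s ≠ 0 := hs.1.ne'
    simp only [smul_eq_mul]
    field_simp
  rw [h2] at h1
  linarith

theorem lap_J_rho_comm {u : Eu d → ℝ} (hu : ContDiff ℝ 2 u) {C : ℝ} (hb : ∀ x, |u x| ≤ C)
    {ε : ℝ} (hε : 0 < ε) (x : Eu d) : lap (J rho u ε) x = J rho (lap u) ε x := by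
  rw [lap_J_rho ⟨hu.continuous.measurable, hb⟩ hε, J_lap_eq contDiff_rho hasCompactSupport_rho hu]
  have : ε ≠ 0 := hε.ne'
  field_simp

end Pool.Agent.H314.Dir
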