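import Pool.Agent.H314.Dir.Dom

set_option autoImplicit false
open MeasureTheory Filter Topology Set Metric

namespace Pool.Agent.H314.Dir

namespace Re

theorem lam_bounds : 2.46 < lam ∧ lam < 2.5 := by
  have h1 := Real.pi_gt_d2
  have h2 := Real.pi_lt_d2
  unfold lam
  constructor <;> nlinarith

theorem hasDerivAt_sq (t : ℝ) :
    HasDerivAt (fun t : ℝ => (max 0 (t - 1 / 2)) ^ 2) (2 * max 0 (t - 1 / 2)) t := by
  rcases lt_trichotomy t (1 / 2) with h | h | h
  · have h1 : (fun t : ℝ => (max 0 (t - 1 / 2)) ^ 2) =ᶠ[𝓝 t] fun _ => 0 := by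
      filter_upwards [Iio_mem_nhds h] with x hx
      rw [mem_Iio] at hx
      rw [max_eq_left (by linarith)]
      ring
    have h2 : max 0 (t - 1 / 2) = 0 := max_eq_left (by linarith)
    rw [h2, mul_zero]
    exact (hasDerivAt_const t (0 : ℝ)).congr_of_eventuallyEq h1
  · subst h
    have h2 : max 0 ((1 / 2 : ℝ) - 1 / 2) = 0 := by norm_num
    rw [h2, mul_zero, hasDerivAt_iff_isLittleO_nhds_zero]
    have h3 : (fun h : ℝ => (max 0 (1 / 2 + h - 1 / 2)) ^ 2 - (max 0 ((1 / 2 : ℝ) - 1 / 2)) ^ 2 - h • (0 : ℝ))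
        = fun h => (max 0 h) ^ 2 := by
      funext h
      rw [h2]
      have : 1 / 2 + h - 1 / 2 = h := by ring
      rw [this]
      simp
    rw [h3]
    rw [Asymptotics.isLittleO_iff]
    intro c hc
    filter_upwards [Metric.ball_mem_nhds (0 : ℝ) hc] with h hh
    rw [mem_ball_zero_iff, Real.norm_eq_abs] at hh
    rw [Real.norm_eq_abs, Real.norm_eq_abs, abs_of_nonneg (sq_nonneg _)]
    have h4 : max 0 h ≤ |h| := max_le (abs_nonneg h) (le_abs_self h)
    have h5 : 0 ≤ max 0 h := le_max_left _ _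
    nlinarith [abs_nonneg h]
  · have h1 : (fun t : ℝ => (max 0 (t - 1 / 2)) ^ 2) =ᶠ[𝓝 t] fun t => (t - 1 / 2) ^ 2 := by
      filter_upwards [Ioi_mem_nhds h] with x hx
      rw [mem_Ioi] at hx
      rw [max_eq_right (by linarith)]
    have h2 : max 0 (t - 1 / 2) = t - 1 / 2 := max_eq_right (by linarith)
    rw [h2]
    have h3 : HasDerivAt (fun t : ℝ => (t - 1 / 2) ^ 2) (2 * (t - 1 / 2)) t := by
      have := ((hasDerivAt_id t).sub_const (1 / 2)).fun_pow 2
      simpa using this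
    exact h3.congr_of_eventuallyEq h1

theorem hasDerivAt_ff (t : ℝ) : HasDerivAt ff (lam * (1 - 8 * max 0 (t - 1 / 2))) t := by
  have h1 := ((hasDerivAt_id t).sub ((hasDerivAt_sq t).const_mul 4)).const_mul lam
  have h2 : lam * (1 - 8 * max 0 (t - 1 / 2)) = lam * (1 - 4 * (2 * max 0 (t - 1 / 2))) := by ring
  rw [h2]
  exact h1

theorem deriv_ff_eq : deriv ff = fun t => lam * (1 - 8 * max 0 (t - 1 / 2)) := by
  funext t
  exact (hasDerivAt_ff t).deriv

theorem contDiff_ff : ContDiff ℝ 1 ff := by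
  rw [contDiff_one_iff_deriv]
  refine ⟨fun t => (hasDerivAt_ff t).differentiableAt, ?_⟩
  rw [deriv_ff_eq]
  fun_prop

theorem deriv_ff_lip (x y : ℝ) : |deriv ff x - deriv ff y| ≤ 8 * lam * |x - y| := by
  have hl : 0 < lam := by have := lam_bounds.1; linarith
  rw [deriv_ff_eq]
  simp only
  have h1 : lam * (1 - 8 * max 0 (x - 1 / 2)) - lam * (1 - 8 * max 0 (y - 1 / 2)) =
      -(8 * lam * (max 0 (x - 1 / 2) - max 0 (y - 1 / 2))) := by ring
  rw [h1, abs_neg, abs_mul, abs_of_pos (by positivity : 0 < 8 * lam)]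
  have h2 : |max 0 (x - 1 / 2) - max 0 (y - 1 / 2)| ≤ |x - y| := by
    have := abs_max_sub_max_le_max 0 (x - 1 / 2) 0 (y - 1 / 2)
    simpa using this
  exact mul_le_mul_of_nonneg_left h2 (by positivity)

theorem holder_ff : ∀ R : ℝ, ∃ C : NNReal, HolderOnWith C (1 / 2) (deriv ff) (Set.Icc (-R) R) := by
  intro R
  have hl : 0 < lam := by have := lam_bounds.1; linarith
  refine ⟨⟨8 * lam * (2 * |R|) ^ (1 / 2 : ℝ), by positivity⟩, ?_⟩
  intro x hx y hy
  have hxy : |x - y| ≤ 2 * |R| := by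
    have h1 := hx.1
    have h2 := hx.2
    have h3 := hy.1
    have h4 := hy.2
    have h5 := le_abs_self R
    rw [abs_le]
    constructor <;> linarith
  have h0 := abs_nonneg (x - y)
  have h6 : |x - y| ^ (1 / 2 : ℝ) * |x - y| ^ (1 / 2 : ℝ) = |x - y| := by
    rw [← Real.rpow_add_of_nonneg h0 (by norm_num) (by norm_num)]
    norm_num
  have h7 : |x - y| ^ (1 / 2 : ℝ) ≤ (2 * |R|) ^ (1 / 2 : ℝ) :=
    Real.rpow_le_rpow h0 hxy (by norm_num)
  have h8 : |deriv ff x - deriv ff y| ≤ 8 * lam * (2 * |R|) ^ (1 / 2 : ℝ) * |x - y| ^ (1 / 2 : ℝ) := by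
    refine (deriv_ff_lip x y).trans ?_
    have h9 : 0 ≤ |x - y| ^ (1 / 2 : ℝ) := Real.rpow_nonneg h0 _
    calc 8 * lam * |x - y| = 8 * lam * (|x - y| ^ (1 / 2 : ℝ) * |x - y| ^ (1 / 2 : ℝ)) := by rw [h6]
      _ ≤ 8 * lam * ((2 * |R|) ^ (1 / 2 : ℝ) * |x - y| ^ (1 / 2 : ℝ)) := by gcongr
      _ = _ := by ring
  rw [edist_dist, edist_dist, Real.dist_eq, Real.dist_eq,
    ENNReal.ofReal_rpow_of_nonneg h0 (by positivity), ENNReal.coe_nnreal_eq,
    ← ENNReal.ofReal_mul (by positivity)]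
  apply ENNReal.ofReal_le_ofReal
  refine h8.trans (le_of_eq ?_)
  have h10 : ((1 / 2 : NNReal) : ℝ) = 1 / 2 := by push_cast; norm_num
  rw [h10]
  rfl

theorem ff_zero : ff 0 = 0 := by
  unfold ff
  rw [max_eq_left (by norm_num)]
  ring

theorem ff_one : ff 1 = 0 := by
  unfold ff
  rw [max_eq_right (by norm_num)]
  ring

theorem ff_eq_of_ge {s : ℝ} (hs : 1 / 2 ≤ s) : ff s = lam * ((1 - s) * (4 * s - 1)) := by
  unfold ff
  rw [max_eq_right (by linarith)]
  ring

theorem ff_neg (s : ℝ) (hs : 1 < s) : ff s < 0 := by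
  have hl : 0 < lam := by have := lam_bounds.1; linarith
  rw [ff_eq_of_ge (by linarith)]
  have h1 : (1 - s) * (4 * s - 1) < 0 := by nlinarith
  exact mul_neg_of_pos_of_neg hl h1

theorem deriv_ff_one : deriv ff 1 < 0 := by
  have hl : 0 < lam := by have := lam_bounds.1; linarith
  rw [deriv_ff_eq]
  simp only
  rw [max_eq_right (by norm_num)]
  nlinarith

theorem ff_eq {s : ℝ} (hs : s ≤ 1 / 2) : ff s = lam * s := by
  unfold ff
  rw [max_eq_left (by linarith)]
  ring

theorem ff_pos (s : ℝ) (hs : s ∈ Ioo (0 : ℝ) 1) : 0 < ff s := by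
  have hl : 0 < lam := by have := lam_bounds.1; linarith
  rcases le_total s (1 / 2) with h | h
  · rw [ff_eq h]
    exact mul_pos hl hs.1
  · rw [ff_eq_of_ge h]
    have h1 := hs.2
    have h2 : 0 < (1 - s) * (4 * s - 1) := mul_pos (by linarith) (by linarith)
    exact mul_pos hl h2

theorem deriv_ff_zero : 0 < deriv ff 0 := by
  have hl : 0 < lam := by have := lam_bounds.1; linarith
  rw [deriv_ff_eq]
  simp only
  rw [max_eq_left (by norm_num)]
  nlinarith

theorem ff_nonneg (s : ℝ) (hs : s ∈ Icc (0 : ℝ) 1) : 0 ≤ ff s := by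
  rcases hs.1.eq_or_lt with h | h
  · rw [← h, ff_zero]
  · rcases hs.2.eq_or_lt with h' | h'
    · rw [h', ff_one]
    · exact (ff_pos s ⟨h, h'⟩).le

theorem ff_le (s : ℝ) : ff s ≤ lam * s := by
  have hl : 0 < lam := by have := lam_bounds.1; linarith
  unfold ff
  apply mul_le_mul_of_nonneg_left _ hl.le
  have := sq_nonneg (max 0 (s - 1 / 2))
  linarith

theorem locallyLipschitz_ff : LocallyLipschitz ff :=
  fun x => contDiff_ff.locallyLipschitz x

theorem monotone_ff : MonotoneOn (fun t => ff t + 8 * t) (Icc 0 1) := by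
  have hl : 0 < lam := by have := lam_bounds.1; linarith
  have hl2 : lam < 2.5 := lam_bounds.2
  have hd : ∀ t : ℝ, HasDerivAt (fun t => ff t + 8 * t)
      (lam * (1 - 8 * max 0 (t - 1 / 2)) + 8) t := by
    intro t
    have h1 := (hasDerivAt_ff t).fun_add ((hasDerivAt_id t).const_mul 8)
    simpa using h1
  apply monotoneOn_of_deriv_nonneg (convex_Icc 0 1)
  · exact fun t _ => (hd t).continuousAt.continuousWithinAt
  · exact fun t _ => (hd t).differentiableAt.differentiableWithinAt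
  · intro t ht
    rw [interior_Icc] at ht
    rw [(hd t).deriv]
    have h1 : max 0 (t - 1 / 2) ≤ 1 / 2 := max_le (by norm_num) (by linarith [ht.2])
    have h2 : 0 ≤ max 0 (t - 1 / 2) := le_max_left _ _
    nlinarith

end Re

end Pool.Agent.H314.Dir
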