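import Pool.Agent.H314.Dir.Dom
import Pool.Agent.H314.Dir.Lap

set_option autoImplicit false
open MeasureTheory Filter Topology Set Metric

namespace Pool.Agent.H314.Dir

namespace Sb

theorem j2887_coord (X : EX) (t : ℝ) (k j : Fin (9 + 1)) :
    (X + t • (EuclideanSpace.single j (1 : ℝ) : EX)).ofLp k =
      X.ofLp k + t * (if k = j then 1 else 0) := by
  simp

theorem j2887_qpos (X : EX) : 0 < qf X := by
  unfold qf
  have : 0 ≤ ∑ i : Fin 8, (X.ofLp (Fin.castSucc i.succ)) ^ 2 :=
    Finset.sum_nonneg fun i _ => sq_nonneg _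
  linarith

theorem j2887_q0 (X : EX) (t : ℝ) :
    qf (X + t • (EuclideanSpace.single 0 (1 : ℝ) : EX)) = qf X := by
  unfold qf
  congr 1
  apply Finset.sum_congr rfl
  intro i _
  rw [j2887_coord, if_neg, mul_zero, add_zero]
  intro h
  have := congrArg Fin.val h
  simp at this

theorem j2887_ql (X : EX) (t : ℝ) :
    qf (X + t • (EuclideanSpace.single (Fin.last 9) (1 : ℝ) : EX)) = qf X := by
  unfold qf
  congr 1
  apply Finset.sum_congr rfl
  intro i _
  rw [j2887_coord, if_neg, mul_zero, add_zero]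
  intro h
  have := congrArg Fin.val h
  simp at this
  omega

theorem j2887_qi (X : EX) (t : ℝ) (j : Fin 8) :
    qf (X + t • (EuclideanSpace.single (Fin.castSucc j.succ) (1 : ℝ) : EX)) =
      qf X + 2 * t * X.ofLp (Fin.castSucc j.succ) + t ^ 2 := by
  unfold qf
  have h1 : ∀ i : Fin 8,
      ((X + t • (EuclideanSpace.single (Fin.castSucc j.succ) (1 : ℝ) : EX)).ofLp
        (Fin.castSucc i.succ)) ^ 2 = (X.ofLp (Fin.castSucc i.succ)) ^ 2 +
        (if i = j then 2 * t * X.ofLp (Fin.castSucc j.succ) + t ^ 2 else 0) := by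
    intro i
    rw [j2887_coord]
    by_cases h : i = j
    · subst h
      rw [if_pos rfl, if_pos rfl]
      ring
    · rw [if_neg h, if_neg]
      · ring
      · intro h'
        apply h
        exact Fin.succ_injective _ (Fin.castSucc_injective _ h')
  rw [Finset.sum_congr rfl (fun i _ => h1 i), Finset.sum_add_distrib, Finset.sum_ite_eq']
  simp
  ring

/-- TARGET 1. Laplacian of a function with separated variables. -/
theorem lap_sep {A A' A'' B B' B'' D D' D'' : ℝ → ℝ} (X : EX)
    (hA : ∀ z, HasDerivAt A (A' z) z) (hA' : ∀ z, HasDerivAt A' (A'' z) z)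
    (hB : ∀ q, 0 < q → HasDerivAt B (B' q) q) (hB' : ∀ q, 0 < q → HasDerivAt B' (B'' q) q)
    (hD : ∀ y, HasDerivAt D (D' y) y) (hD' : ∀ y, HasDerivAt D' (D'' y) y)
    (hC : ContDiffAt ℝ 2 (fun X : EX => A (X.ofLp 0) * B (qf X) * D (yf X)) X) :
    lap (fun X : EX => A (X.ofLp 0) * B (qf X) * D (yf X)) X =
      A'' (X.ofLp 0) * B (qf X) * D (yf X) +
      A (X.ofLp 0) * (4 * (qf X - 1000000) * B'' (qf X) + 16 * B' (qf X)) * D (yf X) +
      A (X.ofLp 0) * B (qf X) * D'' (yf X) := by
  set u : EX → ℝ := fun X : EX => A (X.ofLp 0) * B (qf X) * D (yf X) with hu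
  have hq := j2887_qpos X
  -- direction 0
  have l0 : iteratedFDeriv ℝ 2 u X (fun _ => EuclideanSpace.single 0 (1 : ℝ)) =
      A'' (X.ofLp 0) * B (qf X) * D (yf X) := by
    apply iteratedFDeriv_two_of_line hC
      (g := fun t => A' (X.ofLp 0 + t) * B (qf X) * D (yf X))
    · refine Filter.Eventually.of_forall fun t => ?_
      have h1 : (fun t : ℝ => u (X + t • (EuclideanSpace.single 0 (1 : ℝ) : EX))) =
          fun t => A (X.ofLp 0 + t) * B (qf X) * D (yf X) := by
        funext t
        simp only [hu]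
        rw [j2887_q0]
        have h2 : yf (X + t • (EuclideanSpace.single 0 (1 : ℝ) : EX)) = yf X := by
          unfold yf
          rw [j2887_coord, if_neg (by decide), mul_zero, add_zero]
        rw [h2, j2887_coord, if_pos rfl, mul_one]
      rw [h1]
      exact ((hA _).comp_const_add _ _).mul_const _ |>.mul_const _
    · have := ((hA' (X.ofLp 0 + 0)).comp_const_add (X.ofLp 0) 0).mul_const (B (qf X))
        |>.mul_const (D (yf X))
      rw [add_zero] at this
      exact this
  -- last direction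
  have ll : iteratedFDeriv ℝ 2 u X (fun _ => EuclideanSpace.single (Fin.last 9) (1 : ℝ)) =
      A (X.ofLp 0) * B (qf X) * D'' (yf X) := by
    apply iteratedFDeriv_two_of_line hC
      (g := fun t => A (X.ofLp 0) * B (qf X) * D' (yf X + t))
    · refine Filter.Eventually.of_forall fun t => ?_
      have h1 : (fun t : ℝ => u (X + t • (EuclideanSpace.single (Fin.last 9) (1 : ℝ) : EX))) =
          fun t => A (X.ofLp 0) * B (qf X) * D (yf X + t) := by
        funext t
        simp only [hu]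
        rw [j2887_ql]
        have h2 : yf (X + t • (EuclideanSpace.single (Fin.last 9) (1 : ℝ) : EX)) = yf X + t := by
          unfold yf
          rw [j2887_coord, if_pos rfl, mul_one]
        rw [h2, j2887_coord, if_neg (by decide), mul_zero, add_zero]
      rw [h1]
      exact ((hD _).comp_const_add _ _).const_mul _
    · have := ((hD' (yf X + 0)).comp_const_add (yf X) 0).const_mul (A (X.ofLp 0) * B (qf X))
      rw [add_zero] at this
      exact this
  -- middle directions
  have li : ∀ j : Fin 8, iteratedFDeriv ℝ 2 u X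
      (fun _ => EuclideanSpace.single (Fin.castSucc j.succ) (1 : ℝ)) =
      A (X.ofLp 0) * (B'' (qf X) * (2 * X.ofLp (Fin.castSucc j.succ)) ^ 2 + B' (qf X) * 2) *
        D (yf X) := by
    intro j
    set x := X.ofLp (Fin.castSucc j.succ) with hx
    have hqt : ∀ t : ℝ, 0 < qf X + 2 * t * x + t ^ 2 := by
      intro t
      rw [← j2887_qi]
      exact j2887_qpos _
    have hpoly : ∀ t : ℝ, HasDerivAt (fun t : ℝ => qf X + 2 * t * x + t ^ 2) (2 * x + 2 * t) t := by
      intro t
      have h1 : HasDerivAt (fun t : ℝ => 2 * t * x) (2 * x) t := by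
        have := ((hasDerivAt_id t).const_mul 2).mul_const x
        simpa using this
      have h2 : HasDerivAt (fun t : ℝ => t ^ 2) (2 * t) t := by
        simpa using hasDerivAt_pow 2 t
      exact (((hasDerivAt_const t (qf X)).add h1).add h2).congr_deriv (by ring)
    apply iteratedFDeriv_two_of_line hC
      (g := fun t => A (X.ofLp 0) * (B' (qf X + 2 * t * x + t ^ 2) * (2 * x + 2 * t)) * D (yf X))
    · refine Filter.Eventually.of_forall fun t => ?_
      have h1 : (fun t : ℝ => u (X + t • (EuclideanSpace.single (Fin.castSucc j.succ) (1 : ℝ) :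
          EX))) = fun t => A (X.ofLp 0) * B (qf X + 2 * t * x + t ^ 2) * D (yf X) := by
        funext t
        simp only [hu]
        rw [j2887_qi]
        have h2 : yf (X + t • (EuclideanSpace.single (Fin.castSucc j.succ) (1 : ℝ) : EX)) =
            yf X := by
          unfold yf
          rw [j2887_coord, if_neg, mul_zero, add_zero]
          intro h
          have := congrArg Fin.val h
          simp at this
          omega
        rw [h2, j2887_coord, if_neg, mul_zero, add_zero]
        intro h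
        have := congrArg Fin.val h
        simp at this
      rw [h1]
      exact (((hB _ (hqt t)).comp t (hpoly t)).const_mul _).mul_const _
    · have h3 : HasDerivAt (fun t : ℝ => 2 * x + 2 * t) 2 0 := by
        have := ((hasDerivAt_id (0 : ℝ)).const_mul 2).const_add (2 * x)
        simpa using this
      have h4 := ((hB' _ (hqt 0)).comp 0 (hpoly 0)).mul h3
      have h5 := (h4.const_mul (A (X.ofLp 0))).mul_const (D (yf X))
      refine h5.congr_deriv ?_
      have h6 : qf X + 2 * 0 * x + 0 ^ 2 = qf X := by ring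
      simp only [Function.comp_apply]
      rw [h6]
      ring
  unfold lap
  rw [Fin.sum_univ_castSucc, Fin.sum_univ_succ, Fin.castSucc_zero, l0, ll,
    Finset.sum_congr rfl (fun j _ => li j), ← Finset.sum_mul, ← Finset.mul_sum,
    Finset.sum_add_distrib, ← Finset.mul_sum]
  have h6 : ∑ i : Fin 8, (2 * X.ofLp (Fin.castSucc i.succ)) ^ 2 = 4 * (qf X - 1000000) := by
    unfold qf
    rw [add_sub_cancel_left, Finset.mul_sum]
    apply Finset.sum_congr rfl
    intro i _
    ring
  rw [h6]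
  simp only [Finset.sum_const, Finset.card_univ, Fintype.card_fin, nsmul_eq_mul]
  push_cast
  ring

/-- TARGET 2 -/
theorem Vf_locallyLipschitz (c : ℝ) : LocallyLipschitz (Vf c) := by
  have hmul : ∀ f g : EX → ℝ, LocallyLipschitz f → LocallyLipschitz g →
      LocallyLipschitz (fun X => f X * g X) := by
    intro f g hf hg
    have h1 : ContDiff ℝ 1 (fun p : ℝ × ℝ => p.1 * p.2) := contDiff_fst.mul contDiff_snd
    exact h1.locallyLipschitz.comp (hf.prodMk hg)
  have hqc : ContDiff ℝ 1 qf := by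
    unfold qf
    fun_prop
  have hyc : ContDiff ℝ 1 yf := by
    unfold yf
    fun_prop
  have hCc : ContDiff ℝ 1 Cf := by
    unfold Cf
    fun_prop
  have hbc : ContDiff ℝ 1 bf := by
    unfold bf
    exact (hqc.inv fun X => (j2887_qpos X).ne').add
      ((hyc.pow 2).mul ((hqc.pow 2).inv fun X => (pow_pos (j2887_qpos X) 2).ne'))
  unfold Vf
  apply hmul
  · apply hmul
    · exact (contDiff_const : ContDiff ℝ 1 (fun _ : EX => c)).locallyLipschitz
    · exact hCc.locallyLipschitz.const_max 0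
  · exact (contDiff_const.sub hbc).locallyLipschitz.const_max 0

/-- TARGET 3 -/
theorem Vf_nonneg {c : ℝ} (hc : 0 ≤ c) (X : EX) : 0 ≤ Vf c X := by
  unfold Vf
  positivity

/-- TARGET 4 -/
theorem Vf_le {c : ℝ} (hc : 0 ≤ c) (X : EX) : Vf c X ≤ c := by
  unfold Vf
  have h1 : max 0 (Cf X) ≤ 1 := max_le zero_le_one (Real.cos_le_one _)
  have hb : 0 ≤ bf X := by
    unfold bf
    have := j2887_qpos X
    positivity
  have h2 : max 0 (1 - bf X) ≤ 1 := max_le zero_le_one (by linarith)
  have h3 : (0 : ℝ) ≤ max 0 (Cf X) := le_max_left _ _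
  have h4 : (0 : ℝ) ≤ max 0 (1 - bf X) := le_max_left _ _
  calc c * max 0 (Cf X) * max 0 (1 - bf X) ≤ c * 1 * 1 := by gcongr
    _ = c := by ring

theorem j2887_pos {c : ℝ} (hc : 0 ≤ c) {X : EX} (h : 0 < Vf c X) :
    0 < c ∧ 0 < Cf X ∧ 0 < 1 - bf X := by
  unfold Vf at h
  have h3 : (0 : ℝ) ≤ max 0 (Cf X) := le_max_left _ _
  have h4 : (0 : ℝ) ≤ max 0 (1 - bf X) := le_max_left _ _
  refine ⟨?_, ?_, ?_⟩
  · rcases hc.eq_or_lt with h0 | h0
    · rw [← h0] at h
      simp at h
    · exact h0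
  · by_contra hcon
    push Not at hcon
    rw [max_eq_left hcon] at h
    simp at h
  · by_contra hcon
    push Not at hcon
    rw [max_eq_left hcon] at h
    simp at h

/-- TARGET 5: the subsolution lives in the domain -/
theorem FF_neg_of_Vf_pos {c : ℝ} (hc : 0 ≤ c) {X : EX} (h : 0 < Vf c X) : FF X < 0 := by
  obtain ⟨_, h1, h2⟩ := j2887_pos hc h
  have hq := j2887_qpos X
  have h3 : (yf X) ^ 2 < (qf X) ^ 2 := by
    unfold bf at h2
    have h4 : (yf X) ^ 2 * ((qf X) ^ 2)⁻¹ < 1 := by
      have : 0 < (qf X)⁻¹ := by positivity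
      linarith
    rwa [← div_eq_mul_inv, div_lt_one (by positivity)] at h4
  have h5 : |yf X| < qf X := by
    rw [← abs_of_pos hq]
    exact sq_lt_sq.1 h3
  have h6 : 0 < yf X + qf X := by
    have := (abs_lt.1 h5).1
    linarith
  unfold FF thf
  have h7 : 0 < (yf X + qf X) * Real.exp (-Real.sqrt (qf X)) := mul_pos h6 (Real.exp_pos _)
  linarith

/-- TARGET 6 -/
theorem Vf_sub {c : ℝ} (hc : 0 ≤ c) {X : EX} (h : 0 < Vf c X) :
    ContDiffAt ℝ 2 (Vf c) X ∧ - lap (Vf c) X ≤ lam * Vf c X := by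
  obtain ⟨hc0, h1, h2⟩ := j2887_pos hc h
  have hq := j2887_qpos X
  have hqc : ContDiff ℝ 2 qf := by
    unfold qf
    fun_prop
  have hyc : ContDiff ℝ 2 yf := by
    unfold yf
    fun_prop
  have hCc : ContDiff ℝ 2 Cf := by
    unfold Cf
    fun_prop
  have hbc : ContDiff ℝ 2 bf := by
    unfold bf
    exact (hqc.inv fun X => (j2887_qpos X).ne').add
      ((hyc.pow 2).mul ((hqc.pow 2).inv fun X => (pow_pos (j2887_qpos X) 2).ne'))
  -- the three separated pieces
  set F1 : EX → ℝ := fun X => (fun z => c * Real.cos (Real.pi / 2 * z)) (X.ofLp 0) *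
    (fun _ => (1 : ℝ)) (qf X) * (fun _ => (1 : ℝ)) (yf X) with hF1
  set F2 : EX → ℝ := fun X => (fun z => -(c * Real.cos (Real.pi / 2 * z))) (X.ofLp 0) *
    (fun q : ℝ => q⁻¹) (qf X) * (fun _ => (1 : ℝ)) (yf X) with hF2
  set F3 : EX → ℝ := fun X => (fun z => -(c * Real.cos (Real.pi / 2 * z))) (X.ofLp 0) *
    (fun q : ℝ => (q ^ 2)⁻¹) (qf X) * (fun y : ℝ => y ^ 2) (yf X) with hF3
  have hz : ContDiff ℝ 2 (fun X : EX => Real.cos (Real.pi / 2 * X.ofLp 0)) := by fun_prop
  have d1 : ContDiff ℝ 2 F1 := by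
    simp only [hF1]
    exact ((contDiff_const.mul hz).mul contDiff_const).mul contDiff_const
  have d2 : ContDiff ℝ 2 F2 := by
    simp only [hF2]
    exact ((contDiff_const.mul hz).neg.mul (hqc.inv fun X => (j2887_qpos X).ne')).mul
      contDiff_const
  have d3 : ContDiff ℝ 2 F3 := by
    simp only [hF3]
    exact ((contDiff_const.mul hz).neg.mul
      ((hqc.pow 2).inv fun X => (pow_pos (j2887_qpos X) 2).ne')).mul (hyc.pow 2)
  have heq : Vf c =ᶠ[𝓝 X] fun Y => F1 Y + (F2 Y + F3 Y) := by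
    have e1 : ∀ᶠ Y in 𝓝 X, 0 < Cf Y := hCc.continuous.continuousAt.eventually (lt_mem_nhds h1)
    have e2 : ∀ᶠ Y in 𝓝 X, bf Y < 1 :=
      hbc.continuous.continuousAt.eventually (gt_mem_nhds (by linarith))
    filter_upwards [e1, e2] with Y hY1 hY2
    unfold Vf
    rw [max_eq_right hY1.le, max_eq_right (by linarith)]
    simp only [hF1, hF2, hF3]
    unfold Cf bf
    ring
  have hcos : ∀ z : ℝ, HasDerivAt (fun z => c * Real.cos (Real.pi / 2 * z))
      (-(c * (Real.pi / 2) * Real.sin (Real.pi / 2 * z))) z := by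
    intro z
    have h3 : HasDerivAt (fun z : ℝ => Real.pi / 2 * z) (Real.pi / 2) z := by
      simpa using (hasDerivAt_id z).const_mul (Real.pi / 2)
    have h4 := (h3.cos).const_mul c
    refine h4.congr_deriv ?_
    ring
  have hsin : ∀ z : ℝ, HasDerivAt (fun z => -(c * (Real.pi / 2) * Real.sin (Real.pi / 2 * z)))
      (-(lam * (c * Real.cos (Real.pi / 2 * z)))) z := by
    intro z
    have h3 : HasDerivAt (fun z : ℝ => Real.pi / 2 * z) (Real.pi / 2) z := by
      simpa using (hasDerivAt_id z).const_mul (Real.pi / 2)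
    have h4 := ((h3.sin).const_mul (c * (Real.pi / 2))).neg
    refine h4.congr_deriv ?_
    unfold lam
    ring
  have hinv : ∀ q : ℝ, 0 < q → HasDerivAt (fun q : ℝ => q⁻¹) (-(q ^ 2)⁻¹) q := fun q hq =>
    hasDerivAt_inv hq.ne'
  have hinv2 : ∀ q : ℝ, 0 < q → HasDerivAt (fun q : ℝ => (q ^ 2)⁻¹) (-2 * (q ^ 3)⁻¹) q := by
    intro q hq
    have h3 : HasDerivAt (fun q : ℝ => q ^ 2) (2 * q) q := by
      simpa using hasDerivAt_pow 2 q
    have h4 := h3.inv (pow_pos hq 2).ne'
    refine h4.congr_deriv ?_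
    field_simp
  have hinv3 : ∀ q : ℝ, 0 < q → HasDerivAt (fun q : ℝ => -2 * (q ^ 3)⁻¹) (6 * (q ^ 4)⁻¹) q := by
    intro q hq
    have h3 : HasDerivAt (fun q : ℝ => q ^ 3) (3 * q ^ 2) q := by
      simpa using hasDerivAt_pow 3 q
    have h4 := (h3.inv (pow_pos hq 3).ne').const_mul (-2)
    refine h4.congr_deriv ?_
    field_simp
    norm_num
  have hsq : ∀ y : ℝ, HasDerivAt (fun y : ℝ => y ^ 2) (2 * y) y := by
    intro y
    simpa using hasDerivAt_pow 2 y
  have hsq' : ∀ y : ℝ, HasDerivAt (fun y : ℝ => 2 * y) 2 y := by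
    intro y
    simpa using (hasDerivAt_id y).const_mul 2
  have l1 : lap F1 X = _ := lap_sep (A := fun z => c * Real.cos (Real.pi / 2 * z))
    (B := fun _ => (1 : ℝ)) (D := fun _ => (1 : ℝ)) X hcos hsin
    (fun q _ => hasDerivAt_const q 1) (fun q _ => hasDerivAt_const q 0)
    (fun y => hasDerivAt_const y 1) (fun y => hasDerivAt_const y 0) d1.contDiffAt
  have l2 : lap F2 X = _ := lap_sep (A := fun z => -(c * Real.cos (Real.pi / 2 * z)))
    (B := fun q : ℝ => q⁻¹) (D := fun _ => (1 : ℝ)) X (fun z => (hcos z).neg)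
    (fun z => (hsin z).neg) hinv
    (fun q hq => (hinv2 q hq).neg)
    (fun y => hasDerivAt_const y 1) (fun y => hasDerivAt_const y 0) d2.contDiffAt
  have l3 : lap F3 X = _ := lap_sep (A := fun z => -(c * Real.cos (Real.pi / 2 * z)))
    (B := fun q : ℝ => (q ^ 2)⁻¹) (D := fun y : ℝ => y ^ 2) X (fun z => (hcos z).neg)
    (fun z => (hsin z).neg) hinv2 hinv3 hsq hsq' d3.contDiffAt
  refine ⟨(d1.add (d2.add d3)).contDiffAt.congr_of_eventuallyEq heq, ?_⟩
  rw [lap_congr heq, lap_add d1.contDiffAt (d2.add d3).contDiffAt,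
    lap_add d2.contDiffAt d3.contDiffAt, l1, l2, l3, heq.eq_of_nhds]
  simp only [hF1, hF2, hF3]
  have hCX : Cf X = Real.cos (Real.pi / 2 * X.ofLp 0) := rfl
  rw [← hCX]
  set q := qf X with hqd
  set y := yf X with hyd
  set K := Cf X with hKd
  have key : 0 ≤ c * K * (6 * (q ^ 2)⁻¹ + 8000000 * (q ^ 3)⁻¹ +
      y ^ 2 * (8 * (q ^ 3)⁻¹ + 24000000 * (q ^ 4)⁻¹)) := by positivity
  have e1 : q * (q ^ 3)⁻¹ = (q ^ 2)⁻¹ := by field_simp
  have e2 : q * (q ^ 4)⁻¹ = (q ^ 3)⁻¹ := by field_simp
  refine le_of_sub_nonneg ?_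
  convert key using 1
  linear_combination -(8 * c * K) * e1 - (24 * c * K * y ^ 2) * e2

/-- TARGET 7 -/
theorem Vf_zero : Vf (1 / 2) 0 = 1 / 2 * (1 - 1 / 1000000) := by
  have h1 : qf 0 = 1000000 := by
    unfold qf
    simp
  have h2 : yf 0 = 0 := by
    unfold yf
    simp
  have h3 : Cf 0 = 1 := by
    unfold Cf
    simp
  have h4 : bf 0 = 1 / 1000000 := by
    unfold bf
    rw [h1, h2]
    norm_num
  unfold Vf
  rw [h3, h4, max_eq_right zero_le_one, max_eq_right (by norm_num)]
  ring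

end Sb

end Pool.Agent.H314.Dir
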