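import Pool.Agent.H314.Dir.Sub

set_option autoImplicit false
open MeasureTheory Filter Topology Set Metric

namespace Pool.Agent.H314.Dir

namespace Sp

open Sb (lap_sep)

theorem qf_ge (X : EX) : 1000000 ≤ qf X := by
  unfold qf
  have : 0 ≤ ∑ i : Fin 8, (X.ofLp (Fin.castSucc i.succ)) ^ 2 := Finset.sum_nonneg (fun _ _ => sq_nonneg _)
  linarith

theorem qf_pos (X : EX) : 0 < qf X := by have := qf_ge X; linarith

theorem contDiff_coord (i : Fin (9+1)) : ContDiff ℝ 2 (fun X : EX => X.ofLp i) :=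
  (EuclideanSpace.proj i : EX →L[ℝ] ℝ).contDiff

theorem contDiff_qf : ContDiff ℝ 2 qf := by
  unfold qf
  refine contDiff_const.add (ContDiff.sum (fun i _ => (contDiff_coord _).pow 2))

theorem contDiff_yf : ContDiff ℝ 2 yf := contDiff_coord _

theorem contDiff_Cf : ContDiff ℝ 2 Cf := by
  unfold Cf
  exact Real.contDiff_cos.comp (contDiff_const.mul (contDiff_coord _))

theorem contDiff_qinv : ContDiff ℝ 2 (fun X => (qf X)⁻¹) :=
  contDiff_qf.inv (fun X => (qf_pos X).ne')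

theorem contDiff_bf : ContDiff ℝ 2 bf := by
  unfold bf
  exact contDiff_qinv.add ((contDiff_yf.pow 2).mul ((contDiff_qf.pow 2).inv
    (fun X => (pow_pos (qf_pos X) 2).ne')))

theorem contDiff_gf : ContDiff ℝ 2 gf := by
  unfold gf
  exact contDiff_bf.div contDiff_qf (fun X => (qf_pos X).ne')

theorem contDiff_S0 : ContDiff ℝ 2 S0 := by
  unfold S0
  exact (contDiff_Cf.mul (contDiff_const.add contDiff_bf)).add
    ((contDiff_const.sub (contDiff_Cf.pow 2)).mul contDiff_gf)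

theorem contDiff_thf : ContDiff ℝ 2 thf := by
  unfold thf
  exact (contDiff_yf.add contDiff_qf).mul (Real.contDiff_exp.comp
    (contDiff_qf.sqrt (fun X => (qf_pos X).ne')).neg)

theorem contDiff_E : ContDiff ℝ 2 (fun X => 16 * (qf X) ^ 2 * thf X - 1) :=
  ((contDiff_const.mul (contDiff_qf.pow 2)).mul contDiff_thf).sub contDiff_const

/-- TARGET 1 -/
theorem Sf_locallyLipschitz : LocallyLipschitz Sf := by
  unfold Sf
  have h1 : LocallyLipschitz S0 := (contDiff_S0.of_le (by norm_num)).locallyLipschitz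
  have h2 : LocallyLipschitz (fun X => 16 * (qf X) ^ 2 * thf X - 1) :=
    (contDiff_E.of_le (by norm_num)).locallyLipschitz
  exact ((LocallyLipschitz.const 1).min h1).max
    ((LocallyLipschitz.const 0).max ((LocallyLipschitz.const 1).min h2))

/-- TARGET 2 -/
theorem Sf_le_one (X : EX) : Sf X ≤ 1 := by
  unfold Sf
  exact max_le (min_le_left _ _) (max_le (by norm_num) (min_le_left _ _))

theorem Cf_le (X : EX) : Cf X ≤ 1 := Real.cos_le_one _
theorem Cf_ge (X : EX) : -1 ≤ Cf X := Real.neg_one_le_cos _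

theorem bf_pos (X : EX) : 0 < bf X := by
  unfold bf
  have := qf_pos X
  positivity

theorem gf_pos (X : EX) : 0 < gf X := div_pos (bf_pos X) (qf_pos X)

theorem bf_eq (X : EX) : bf X = qf X * gf X := by
  unfold gf
  rw [mul_div_cancel₀ _ (qf_pos X).ne']

theorem gf_ge (X : EX) : 1 / (qf X) ^ 2 ≤ gf X := by
  unfold gf bf
  have h := qf_pos X
  rw [div_le_div_iff₀ (by positivity) h]
  have h2 : ((qf X)⁻¹ + yf X ^ 2 * (qf X ^ 2)⁻¹) * qf X ^ 2 = qf X + yf X ^ 2 := by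
    field_simp
  rw [h2]
  nlinarith [sq_nonneg (yf X)]

/-- TARGET 3 -/
theorem Vf_le_Sf (X : EX) : Vf (1 / 4) X ≤ Sf X := by
  have hS : 0 ≤ Sf X := by
    unfold Sf
    exact le_max_of_le_right (le_max_left _ _)
  unfold Vf
  by_cases hC : Cf X ≤ 0
  · rw [max_eq_left hC]; simpa using hS
  by_cases hb : 1 - bf X ≤ 0
  · rw [max_eq_left hb]; simpa using hS
  push Not at hC hb
  rw [max_eq_right hC.le, max_eq_right hb.le]
  unfold Sf
  refine le_max_of_le_left (le_min ?_ ?_)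
  · have h1 := Cf_le X
    have h2 := bf_pos X
    nlinarith
  · unfold S0
    have h1 := Cf_le X
    have h2 := bf_pos X
    have h3 := gf_pos X
    have h4 : 0 ≤ (1 - Cf X ^ 2) * gf X := mul_nonneg (by nlinarith) h3.le
    nlinarith

theorem small {X : EX} (hX : FF X < 0) (h2 : 8 * (qf X) ^ 2 * thf X < 1) (_hC : Cf X < 0) :
    -Cf X < 1 / (8 * (qf X) ^ 2) := by
  unfold FF at hX
  have hq := qf_pos X
  have h3 : thf X < 1 / (8 * (qf X) ^ 2) := by
    rw [lt_div_iff₀ (by positivity)]; linarith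
  linarith

theorem small' {X : EX} (hX : FF X < 0) (h2 : 8 * (qf X) ^ 2 * thf X < 1) (hC : Cf X < 0) :
    -Cf X * qf X ≤ 1 / 1000000 ∧ -Cf X ≤ 1 / 1000000 := by
  have h := small hX h2 hC
  have hq := qf_ge X
  have hq0 := qf_pos X
  have h3 : -Cf X * (8 * (qf X) ^ 2) < 1 := by
    rwa [lt_div_iff₀ (by positivity)] at h
  have h5 : 0 < -Cf X := by linarith
  have h4 : -Cf X * qf X ≤ 1 / 1000000 := by
    have h6 : 8000000 * (-Cf X * qf X) ≤ -Cf X * (8 * (qf X) ^ 2) := by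
      have : 0 ≤ -Cf X * qf X * (qf X - 1000000) := mul_nonneg (by positivity) (by linarith)
      nlinarith
    linarith
  refine ⟨h4, ?_⟩
  have h7 : -Cf X ≤ -Cf X * qf X := by nlinarith
  linarith

/-- TARGET 4: far up in the slot `S0` is large -/
theorem one_le_S0 {X : EX} (hX : FF X < 0) (h1 : 1 ≤ 16 * (qf X) ^ 2 * thf X)
    (h2 : 8 * (qf X) ^ 2 * thf X < 1) : 1 ≤ S0 X := by
  have hq := qf_ge X
  have hq0 := qf_pos X
  set t := Real.sqrt (qf X) with ht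
  have ht2 : t ^ 2 = qf X := Real.sq_sqrt hq0.le
  have ht1 : 1000 ≤ t := by
    rw [ht]
    apply Real.le_sqrt_of_sq_le
    norm_num
    exact hq
  have hexp : 16 * t ^ 6 + 32 * t ^ 7 ≤ Real.exp t := by
    have h3 := Real.pow_div_factorial_le_exp t (by linarith) 10
    refine le_trans ?_ h3
    rw [le_div_iff₀ (by positivity)]
    have hf : ((Nat.factorial 10 : ℕ) : ℝ) = 3628800 := by norm_num [Nat.factorial]
    rw [hf]
    have h6 : 0 < t ^ 6 := by positivity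
    have h4 : (16 + 32 * t) * 3628800 ≤ t ^ 4 := by
      have : 1000 ^ 3 * t ≤ t ^ 3 * t := by gcongr
      nlinarith
    calc (16 * t ^ 6 + 32 * t ^ 7) * 3628800 = t ^ 6 * ((16 + 32 * t) * 3628800) := by ring
      _ ≤ t ^ 6 * t ^ 4 := by gcongr
      _ = t ^ 10 := by ring
  have hy : 2 * t ^ 3 ≤ yf X := by
    have h3 : Real.exp t ≤ 16 * t ^ 4 * (yf X + qf X) := by
      have h4 : thf X = (yf X + qf X) * (Real.exp t)⁻¹ := by
        unfold thf
        rw [← Real.exp_neg]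
      rw [h4, ← ht2] at h1
      have h5 : 16 * (t ^ 2) ^ 2 * ((yf X + t ^ 2) * (Real.exp t)⁻¹)
          = (16 * t ^ 4 * (yf X + t ^ 2)) / Real.exp t := by
        field_simp
        try ring
      rw [h5, le_div_iff₀ (Real.exp_pos t), one_mul] at h1
      rw [← ht2]
      exact h1
    have h5 : t ^ 4 * (16 * t ^ 2 + 32 * t ^ 3) ≤ t ^ 4 * (16 * (yf X + qf X)) := by
      calc t ^ 4 * (16 * t ^ 2 + 32 * t ^ 3) = 16 * t ^ 6 + 32 * t ^ 7 := by ring
        _ ≤ _ := hexp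
        _ ≤ _ := h3
        _ = _ := by ring
    have h6 := le_of_mul_le_mul_left h5 (by positivity)
    rw [← ht2] at h6
    linarith
  have hg : 4 ≤ gf X := by
    unfold gf bf
    rw [le_div_iff₀ hq0]
    have h3 : 4 * (qf X) ^ 3 ≤ yf X ^ 2 := by
      have h4 : (2 * t ^ 3) ^ 2 ≤ yf X ^ 2 := pow_le_pow_left₀ (by positivity) hy 2
      calc 4 * (qf X) ^ 3 = (2 * t ^ 3) ^ 2 := by rw [← ht2]; ring
        _ ≤ _ := h4
    have h4 : 4 * qf X = 4 * (qf X) ^ 3 * ((qf X) ^ 2)⁻¹ := by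
      field_simp
    calc 4 * qf X = 4 * (qf X) ^ 3 * ((qf X) ^ 2)⁻¹ := h4
      _ ≤ yf X ^ 2 * ((qf X) ^ 2)⁻¹ := by gcongr
      _ ≤ _ := by
        have : 0 < (qf X)⁻¹ := by positivity
        linarith
  unfold S0
  rw [bf_eq]
  rcases le_or_gt 0 (Cf X) with hC | hC
  · have hC1 := Cf_le X
    have h3 : Cf X * gf X ≤ Cf X * (qf X * gf X) := by
      have : gf X ≤ qf X * gf X := by nlinarith
      gcongr
    nlinarith
  · obtain ⟨h3, h4⟩ := small' hX h2 hC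
    have h5 : -Cf X * qf X * gf X ≤ 1 / 1000000 * gf X := by gcongr
    have h6 : (Cf X) ^ 2 ≤ 1 / 1000000 := by nlinarith
    have h7 : Cf X ^ 2 * gf X ≤ 1 / 1000000 * gf X := by gcongr
    nlinarith

/-- TARGET 5: `S0` is positive in the slot -/
theorem S0_pos {X : EX} (hX : FF X < 0) (h2 : 8 * (qf X) ^ 2 * thf X < 1) : 0 < S0 X := by
  have hq := qf_ge X
  have hq0 := qf_pos X
  have hg := gf_pos X
  unfold S0
  rw [bf_eq]
  rcases le_or_gt 0 (Cf X) with hC | hC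
  · have hC1 := Cf_le X
    rcases hC.eq_or_lt with h0 | h0
    · rw [← h0]; simpa using hg
    · have h3 : 0 < Cf X * (1 / 4 + qf X * gf X) := by positivity
      have h4 : 0 ≤ (1 - Cf X ^ 2) * gf X := mul_nonneg (by nlinarith) hg.le
      linarith
  · obtain ⟨h3, h4⟩ := small' hX h2 hC
    have h5 : -Cf X * qf X * gf X ≤ 1 / 1000000 * gf X := by gcongr
    have h6 : (Cf X) ^ 2 ≤ 1 / 1000000 := by nlinarith
    have h7 : Cf X ^ 2 * gf X ≤ 1 / 1000000 * gf X := by gcongr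
    have h8 := small hX h2 hC
    have h9 := gf_ge X
    have h10 : 1 / (8 * (qf X) ^ 2) = 1 / (qf X) ^ 2 / 8 := by field_simp
    rw [h10] at h8
    nlinarith

theorem hasDerivAt_ipow (n : ℕ) (q : ℝ) (hq : 0 < q) :
    HasDerivAt (fun q : ℝ => (q ^ (n+1))⁻¹) (-((n+1 : ℕ) : ℝ) * (q ^ (n+2))⁻¹) q := by
  have h := (hasDerivAt_pow (n+1) q).inv (pow_pos hq (n+1)).ne'
  refine h.congr_deriv ?_
  have : q ≠ 0 := hq.ne'
  simp only [Nat.add_sub_cancel]
  field_simp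
  try ring

theorem hasDerivAt_ipow' (c : ℝ) (n : ℕ) (q : ℝ) (hq : 0 < q) :
    HasDerivAt (fun q : ℝ => c * (q ^ (n+1))⁻¹) (c * (-((n+1 : ℕ) : ℝ) * (q ^ (n+2))⁻¹)) q :=
  (hasDerivAt_ipow n q hq).const_mul c

/-- `cos (π z/2)` in one variable -/
noncomputable def A0 (z : ℝ) : ℝ := Real.cos (Real.pi / 2 * z)

theorem A0_deriv (z : ℝ) : HasDerivAt A0 (-(Real.pi / 2) * Real.sin (Real.pi / 2 * z)) z := by
  unfold A0
  have h1 : HasDerivAt (fun z : ℝ => Real.pi / 2 * z) (Real.pi / 2) z := by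
    simpa using (hasDerivAt_id z).const_mul (Real.pi / 2)
  refine (h1.cos).congr_deriv ?_
  ring

theorem A0_deriv2 (z : ℝ) : HasDerivAt (fun z => -(Real.pi / 2) * Real.sin (Real.pi / 2 * z))
    (-lam * Real.cos (Real.pi / 2 * z)) z := by
  have h1 : HasDerivAt (fun z : ℝ => Real.pi / 2 * z) (Real.pi / 2) z := by
    simpa using (hasDerivAt_id z).const_mul (Real.pi / 2)
  refine (h1.sin.const_mul (-(Real.pi / 2))).congr_deriv ?_
  unfold lam
  ring

/-- `1 - cos² (π z/2)` in one variable -/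
noncomputable def A1 (z : ℝ) : ℝ := 1 - (Real.cos (Real.pi / 2 * z)) ^ 2

theorem A1_deriv (z : ℝ) : HasDerivAt A1
    (Real.pi * (Real.cos (Real.pi / 2 * z) * Real.sin (Real.pi / 2 * z))) z := by
  unfold A1
  have h := ((A0_deriv z).pow 2).const_sub 1
  refine h.congr_deriv ?_
  unfold A0
  norm_num
  ring

theorem A1_deriv2 (z : ℝ) : HasDerivAt
    (fun z => Real.pi * (Real.cos (Real.pi / 2 * z) * Real.sin (Real.pi / 2 * z)))
    (4 * lam * (Real.cos (Real.pi / 2 * z)) ^ 2 - 2 * lam) z := by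
  have h1 : HasDerivAt (fun z : ℝ => Real.pi / 2 * z) (Real.pi / 2) z := by
    simpa using (hasDerivAt_id z).const_mul (Real.pi / 2)
  refine ((h1.cos.mul h1.sin).const_mul Real.pi).congr_deriv ?_
  have h2 := Real.sin_sq_add_cos_sq (Real.pi / 2 * z)
  have h3 : Real.sin (Real.pi / 2 * z) ^ 2 = 1 - Real.cos (Real.pi / 2 * z) ^ 2 := by linarith
  have h4 : Real.pi * (-Real.sin (Real.pi / 2 * z) * (Real.pi / 2) * Real.sin (Real.pi / 2 * z) +
      Real.cos (Real.pi / 2 * z) * (Real.cos (Real.pi / 2 * z) * (Real.pi / 2)))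
      = Real.pi ^ 2 / 2 * (Real.cos (Real.pi / 2 * z) ^ 2 - Real.sin (Real.pi / 2 * z) ^ 2) := by
    ring
  rw [h4, h3]
  unfold lam
  ring

theorem one_deriv (y : ℝ) : HasDerivAt (fun _ : ℝ => (1:ℝ)) 0 y := hasDerivAt_const y 1
theorem zero_deriv (y : ℝ) : HasDerivAt (fun _ : ℝ => (0:ℝ)) 0 y := hasDerivAt_const y 0
theorem sq_deriv (y : ℝ) : HasDerivAt (fun y : ℝ => y ^ 2) (2 * y) y := by
  simpa using hasDerivAt_pow 2 y
theorem two_deriv (y : ℝ) : HasDerivAt (fun y : ℝ => 2 * y) 2 y := by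
  simpa using (hasDerivAt_id y).const_mul 2

theorem contDiff_A1 : ContDiff ℝ 2 (fun X : EX => A1 (X.ofLp 0)) := by
  unfold A1
  exact contDiff_const.sub (contDiff_Cf.pow 2)

theorem contDiff_ipow (n : ℕ) : ContDiff ℝ 2 (fun X : EX => ((qf X) ^ n)⁻¹) :=
  (contDiff_qf.pow n).inv (fun X => (pow_pos (qf_pos X) n).ne')

theorem S0_lap (X : EX) : lap S0 X =
    (-lam * Cf X) * (1 / 4) + ((-lam * Cf X) * ((qf X) ^ 1)⁻¹ +
      Cf X * (4 * (qf X - 1000000) * (2 * ((qf X) ^ 3)⁻¹) + 16 * (-((qf X) ^ 2)⁻¹)))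
    + ((-lam * Cf X) * ((qf X) ^ 2)⁻¹ * (yf X) ^ 2 +
      Cf X * (4 * (qf X - 1000000) * (6 * ((qf X) ^ 4)⁻¹) + 16 * (-2 * ((qf X) ^ 3)⁻¹)) * (yf X) ^ 2
      + Cf X * ((qf X) ^ 2)⁻¹ * 2)
    + ((4 * lam * (Cf X) ^ 2 - 2 * lam) * ((qf X) ^ 2)⁻¹ +
      (1 - (Cf X) ^ 2) * (4 * (qf X - 1000000) * (6 * ((qf X) ^ 4)⁻¹) + 16 * (-2 * ((qf X) ^ 3)⁻¹)))
    + ((4 * lam * (Cf X) ^ 2 - 2 * lam) * ((qf X) ^ 3)⁻¹ * (yf X) ^ 2 +
      (1 - (Cf X) ^ 2) * (4 * (qf X - 1000000) * (12 * ((qf X) ^ 5)⁻¹) + 16 * (-3 * ((qf X) ^ 4)⁻¹))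
        * (yf X) ^ 2
      + (1 - (Cf X) ^ 2) * ((qf X) ^ 3)⁻¹ * 2) := by
  have c1 : ContDiff ℝ 2 (fun X : EX => A0 (X.ofLp 0) * (fun _ => (1/4:ℝ)) (qf X) * (fun _ => (1:ℝ)) (yf X)) :=
    (contDiff_Cf.mul contDiff_const).mul contDiff_const
  have c2 : ContDiff ℝ 2 (fun X : EX => A0 (X.ofLp 0) * (fun q => (q ^ (0+1))⁻¹) (qf X) * (fun _ => (1:ℝ)) (yf X)) :=
    (contDiff_Cf.mul (contDiff_ipow 1)).mul contDiff_const
  have c3 : ContDiff ℝ 2 (fun X : EX => A0 (X.ofLp 0) * (fun q => (q ^ (1+1))⁻¹) (qf X) * (fun y => y ^ 2) (yf X)) :=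
    (contDiff_Cf.mul (contDiff_ipow 2)).mul (contDiff_yf.pow 2)
  have c4 : ContDiff ℝ 2 (fun X : EX => A1 (X.ofLp 0) * (fun q => (q ^ (1+1))⁻¹) (qf X) * (fun _ => (1:ℝ)) (yf X)) :=
    (contDiff_A1.mul (contDiff_ipow 2)).mul contDiff_const
  have c5 : ContDiff ℝ 2 (fun X : EX => A1 (X.ofLp 0) * (fun q => (q ^ (2+1))⁻¹) (qf X) * (fun y => y ^ 2) (yf X)) :=
    (contDiff_A1.mul (contDiff_ipow 3)).mul (contDiff_yf.pow 2)
  have e1 := lap_sep (A := A0) (B := fun _ => (1/4:ℝ)) (D := fun _ => (1:ℝ)) X A0_deriv A0_deriv2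
    (fun q _ => hasDerivAt_const q _) (fun q _ => hasDerivAt_const q (0:ℝ)) one_deriv zero_deriv
    c1.contDiffAt
  have e2 := lap_sep (A := A0) (B := fun q => (q ^ (0+1))⁻¹) (D := fun _ => (1:ℝ)) X A0_deriv A0_deriv2
    (fun q hq => hasDerivAt_ipow 0 q hq) (fun q hq => hasDerivAt_ipow' _ 1 q hq) one_deriv zero_deriv
    c2.contDiffAt
  have e3 := lap_sep (A := A0) (B := fun q => (q ^ (1+1))⁻¹) (D := fun y => y ^ 2) X A0_deriv A0_deriv2
    (fun q hq => hasDerivAt_ipow 1 q hq) (fun q hq => hasDerivAt_ipow' _ 2 q hq) sq_deriv two_deriv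
    c3.contDiffAt
  have e4 := lap_sep (A := A1) (B := fun q => (q ^ (1+1))⁻¹) (D := fun _ => (1:ℝ)) X A1_deriv A1_deriv2
    (fun q hq => hasDerivAt_ipow 1 q hq) (fun q hq => hasDerivAt_ipow' _ 2 q hq) one_deriv zero_deriv
    c4.contDiffAt
  have e5 := lap_sep (A := A1) (B := fun q => (q ^ (2+1))⁻¹) (D := fun y => y ^ 2) X A1_deriv A1_deriv2
    (fun q hq => hasDerivAt_ipow 2 q hq) (fun q hq => hasDerivAt_ipow' _ 3 q hq) sq_deriv two_deriv
    c5.contDiffAt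
  have hS : S0 = fun X => (((A0 (X.ofLp 0) * (fun _ => (1/4:ℝ)) (qf X) * (fun _ => (1:ℝ)) (yf X)
      + A0 (X.ofLp 0) * (fun q => (q ^ (0+1))⁻¹) (qf X) * (fun _ => (1:ℝ)) (yf X))
      + A0 (X.ofLp 0) * (fun q => (q ^ (1+1))⁻¹) (qf X) * (fun y => y ^ 2) (yf X))
      + A1 (X.ofLp 0) * (fun q => (q ^ (1+1))⁻¹) (qf X) * (fun _ => (1:ℝ)) (yf X))
      + A1 (X.ofLp 0) * (fun q => (q ^ (2+1))⁻¹) (qf X) * (fun y => y ^ 2) (yf X) := by
    funext X
    have hq := (qf_pos X).ne'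
    have h0 : A0 (X.ofLp 0) = Cf X := rfl
    have h1 : A1 (X.ofLp 0) = 1 - (Cf X) ^ 2 := rfl
    rw [h0, h1]
    unfold S0 gf bf
    field_simp
    ring
  have hq := (qf_pos X).ne'
  have h0 : A0 (X.ofLp 0) = Cf X := rfl
  have h1 : A1 (X.ofLp 0) = 1 - (Cf X) ^ 2 := rfl
  have h2 : Real.cos (Real.pi / 2 * X.ofLp 0) = Cf X := rfl
  rw [hS]
  rw [lap_add (((c1.add c2).add c3).add c4).contDiffAt c5.contDiffAt,
    lap_add ((c1.add c2).add c3).contDiffAt c4.contDiffAt,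
    lap_add (c1.add c2).contDiffAt c3.contDiffAt,
    lap_add c1.contDiffAt c2.contDiffAt, e1, e2, e3, e4, e5, h0, h1, h2]
  push_cast
  field_simp
  ring

theorem lam_bounds : 2.46 < lam ∧ lam < 2.5 := by
  unfold lam
  have h1 := Real.pi_gt_d4
  have h2 := Real.pi_lt_d4
  constructor <;> nlinarith

/-- minus the Laplacian of `b` -/
noncomputable def nb (X : EX) : ℝ := 6 * ((qf X)⁻¹) ^ 2 + 8000000 * ((qf X)⁻¹) ^ 3 +
  (yf X) ^ 2 * (8 * ((qf X)⁻¹) ^ 3 + 24000000 * ((qf X)⁻¹) ^ 4)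

/-- minus the Laplacian of `g` -/
noncomputable def ng (X : EX) : ℝ := 6 * ((qf X)⁻¹) ^ 3 + 24000000 * ((qf X)⁻¹) ^ 4 +
  48000000 * (yf X) ^ 2 * ((qf X)⁻¹) ^ 5

theorem S0_lap' (X : EX) : - lap S0 X - lam * S0 X =
    lam * (1 - 3 * (Cf X) ^ 2) * gf X + Cf X * nb X + (1 - (Cf X) ^ 2) * ng X := by
  have hq := (qf_pos X).ne'
  rw [S0_lap]
  unfold S0 gf bf nb ng
  field_simp
  ring

theorem gf_eq (X : EX) : gf X = ((qf X)⁻¹) ^ 2 + (yf X) ^ 2 * ((qf X)⁻¹) ^ 3 := by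
  have hq := (qf_pos X).ne'
  unfold gf bf
  field_simp

theorem nb_bounds (X : EX) : 6 * gf X ≤ nb X ∧ nb X ≤ 32 * gf X := by
  rw [gf_eq]
  unfold nb
  have hq := qf_pos X
  set w := (qf X)⁻¹ with hw
  have hw0 : 0 < w := inv_pos.2 hq
  have hw1 : 1000000 * w ≤ 1 := by
    rw [hw, ← div_eq_mul_inv, div_le_one hq]; exact qf_ge X
  have hy := sq_nonneg (yf X)
  have a3 : 0 < w ^ 3 := by positivity
  have a2 : 0 < w ^ 2 := by positivity
  have a4 : 0 < w ^ 4 := by positivity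
  have b1 : 1000000 * w ^ 3 ≤ w ^ 2 := by
    calc 1000000 * w ^ 3 = (1000000 * w) * w ^ 2 := by ring
      _ ≤ 1 * w ^ 2 := by gcongr
      _ = w ^ 2 := one_mul _
  have b2 : 1000000 * w ^ 4 ≤ w ^ 3 := by
    calc 1000000 * w ^ 4 = (1000000 * w) * w ^ 3 := by ring
      _ ≤ 1 * w ^ 3 := by gcongr
      _ = w ^ 3 := one_mul _
  have b3 : yf X ^ 2 * (1000000 * w ^ 4) ≤ yf X ^ 2 * w ^ 3 := by gcongr
  have b4 : 0 ≤ yf X ^ 2 * w ^ 3 := by positivity
  have b5 : 0 ≤ yf X ^ 2 * w ^ 4 := by positivity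
  constructor <;> nlinarith

theorem ng_nonneg (X : EX) : 0 ≤ ng X := by
  unfold ng
  have hq := qf_pos X
  positivity

/-- TARGET 6: the differential inequality for `S0` -/
theorem S0_super {X : EX} (hX : FF X < 0) (h2 : 8 * (qf X) ^ 2 * thf X < 1) :
    ContDiffAt ℝ 2 S0 X ∧ lam * S0 X ≤ - lap S0 X := by
  refine ⟨contDiff_S0.contDiffAt, ?_⟩
  have h := S0_lap' X
  obtain ⟨n1, n2⟩ := nb_bounds X
  have n3 := ng_nonneg X
  obtain ⟨l1, l2⟩ := lam_bounds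
  have hg := gf_pos X
  have hC1 := Cf_le X
  have hC2 := Cf_ge X
  have hsq : 0 ≤ 1 - Cf X ^ 2 := by nlinarith
  have n4 : 0 ≤ (1 - Cf X ^ 2) * ng X := mul_nonneg hsq n3
  suffices hs : 0 ≤ lam * (1 - 3 * (Cf X) ^ 2) * gf X + Cf X * nb X by linarith
  rcases le_or_gt 0 (Cf X) with hC | hC
  · have h3 : Cf X * (6 * gf X) ≤ Cf X * nb X := by gcongr
    have h4 : 0 ≤ (lam * (1 - 3 * (Cf X) ^ 2) + 6 * Cf X) * gf X := by
      refine mul_nonneg ?_ hg.le
      nlinarith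
    nlinarith
  · obtain ⟨h5, h6⟩ := small' hX h2 hC
    have h3 : -Cf X * nb X ≤ -Cf X * (32 * gf X) := by
      have : 0 ≤ -Cf X := by linarith
      gcongr
    have h7 : (Cf X) ^ 2 ≤ 1 / 1000000 := by nlinarith
    have h4 : 0 ≤ (lam * (1 - 3 * (Cf X) ^ 2) + 32 * Cf X) * gf X := by
      refine mul_nonneg ?_ hg.le
      nlinarith
    nlinarith

/-- TARGET 7: the supersolution property -/
theorem Sf_super {X : EX} (hX : FF X < 0) (h : Sf X < 1) :
    ContDiffAt ℝ 2 Sf X ∧ lam * Sf X ≤ - lap Sf X := by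
  have hm1 : min 1 (16 * (qf X) ^ 2 * thf X - 1) < 1 := by
    refine lt_of_le_of_lt ?_ h
    unfold Sf
    exact le_max_of_le_right (le_max_right _ _)
  have hm2 : min 1 (S0 X) < 1 := by
    refine lt_of_le_of_lt ?_ h
    unfold Sf
    exact le_max_left _ _
  have h16 : 16 * (qf X) ^ 2 * thf X - 1 < 1 := by
    rcases min_lt_iff.1 hm1 with h1 | h1
    · exact absurd h1 (lt_irrefl _)
    · exact h1
  have hS1 : S0 X < 1 := by
    rcases min_lt_iff.1 hm2 with h1 | h1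
    · exact absurd h1 (lt_irrefl _)
    · exact h1
  have h8 : 8 * (qf X) ^ 2 * thf X < 1 := by linarith
  have hneg : 16 * (qf X) ^ 2 * thf X - 1 < 0 := by
    by_contra hcon
    push Not at hcon
    have := one_le_S0 hX (by linarith) h8
    linarith
  have hpos := S0_pos hX h8
  have e1 : ∀ᶠ Y in 𝓝 X, 16 * (qf Y) ^ 2 * thf Y - 1 < 0 :=
    (contDiff_E.continuous.continuousAt).eventually_lt_const hneg
  have e2 : ∀ᶠ Y in 𝓝 X, S0 Y < 1 :=
    (contDiff_S0.continuous.continuousAt).eventually_lt_const hS1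
  have e3 : ∀ᶠ Y in 𝓝 X, 0 < S0 Y :=
    (contDiff_S0.continuous.continuousAt).eventually_const_lt hpos
  have heq : Sf =ᶠ[𝓝 X] S0 := by
    filter_upwards [e1, e2, e3] with Y h1 h2 h3
    unfold Sf
    rw [min_eq_right h2.le, min_eq_right (h1.trans one_pos).le, max_eq_left h1.le,
      max_eq_left h3.le]
  obtain ⟨c1, c2⟩ := S0_super hX h8
  refine ⟨c1.congr_of_eventuallyEq heq, ?_⟩
  rw [lap_congr heq, heq.eq_of_nhds]
  exact c2

/-- TARGET 8 -/
theorem Sf_zero : Sf 0 < 1 / 2 * (1 - 1 / 1000000) := by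
  have hq : qf 0 = 1000000 := by
    unfold qf; simp
  have hy : yf 0 = 0 := by
    unfold yf; simp
  have hC : Cf 0 = 1 := by
    unfold Cf; simp
  have hb : bf 0 = 1 / 1000000 := by
    unfold bf; rw [hq, hy]; norm_num
  have hsqrt : Real.sqrt 1000000 = 1000 := by
    rw [show (1000000:ℝ) = 1000 ^ 2 by norm_num, Real.sqrt_sq (by norm_num)]
  have hth : thf 0 = 1000000 * Real.exp (-1000) := by
    unfold thf; rw [hq, hy, hsqrt]; norm_num
  have hexp : 16 * 1000000 ^ 2 * (1000000 * Real.exp (-1000)) ≤ 1 := by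
    have h3 := Real.pow_div_factorial_le_exp 1000 (by norm_num) 10
    have hf : ((Nat.factorial 10 : ℕ) : ℝ) = 3628800 := by norm_num [Nat.factorial]
    rw [hf] at h3
    rw [Real.exp_neg]
    have h4 : (16 * 1000000 ^ 2 * 1000000 : ℝ) ≤ Real.exp 1000 := by
      refine le_trans ?_ h3
      norm_num
    calc (16:ℝ) * 1000000 ^ 2 * (1000000 * (Real.exp 1000)⁻¹)
        = (16 * 1000000 ^ 2 * 1000000) / Real.exp 1000 := by ring
      _ ≤ 1 := by rw [div_le_one (Real.exp_pos _)]; exact h4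
  unfold Sf
  have h5 : 16 * (qf 0) ^ 2 * thf 0 - 1 ≤ 0 := by
    rw [hq, hth]; linarith
  have h6 : S0 0 = 1 / 4 + 1 / 1000000 := by
    unfold S0; rw [hC, hb]; norm_num
  rw [h6]
  rw [max_lt_iff]
  constructor
  · exact lt_of_le_of_lt (min_le_right _ _) (by norm_num)
  · rw [max_lt_iff]
    exact ⟨by norm_num, lt_of_le_of_lt (min_le_right _ _) (lt_of_le_of_lt h5 (by norm_num))⟩

end Sp

end Pool.Agent.H314.Dir
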