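import Pool.Agent.H314.Dir.Graph

set_option autoImplicit false
open MeasureTheory Filter Topology Set Metric

namespace Pool.Agent.H314.Dir

theorem dr_norm2 {d : ℕ} (F : Eu d → ℝ) (x : Eu d) :
    ‖fderiv ℝ (fderiv ℝ F) x‖ = ‖iteratedFDeriv ℝ 2 F x‖ := by
  rw [← norm_iteratedFDeriv_one, norm_iteratedFDeriv_fderiv]

theorem dr_mv {d : ℕ} (F : Eu d → ℝ) (hF : ContDiff ℝ 3 F) (C : ℝ) (p : Eu d) (hFp : F p = 0)
    (hb : ∀ x ∈ ball p 1, ‖iteratedFDeriv ℝ 2 F x‖ ≤ C) (ξ : Eu d) (hξ : ‖ξ‖ < 1) :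
    ‖fderiv ℝ F (p + ξ) - fderiv ℝ F p‖ ≤ C * ‖ξ‖ ∧
      |F (p + ξ) - fderiv ℝ F p ξ| ≤ C * ‖ξ‖ ^ 2 := by
  have hd1 : ∀ x, DifferentiableAt ℝ (fderiv ℝ F) x := fun x =>
    ((hF.fderiv_right (m := 2) (by norm_num)).differentiable (by norm_num)) x
  have hdF : ∀ x, DifferentiableAt ℝ F x := fun x => (hF.differentiable (by norm_num)) x
  have hC : 0 ≤ C := (norm_nonneg _).trans (hb p (mem_ball_self one_pos))
  have h1 : ∀ η : Eu d, ‖η‖ < 1 → ‖fderiv ℝ F (p + η) - fderiv ℝ F p‖ ≤ C * ‖η‖ := by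
    intro η hη
    have := Convex.norm_image_sub_le_of_norm_fderiv_le (𝕜 := ℝ) (f := fderiv ℝ F)
      (s := ball p 1) (C := C) (x := p) (y := p + η) (fun x _ => hd1 x)
      (fun x hx => by rw [dr_norm2]; exact hb x hx) (convex_ball _ _) (mem_ball_self one_pos)
      (by rw [mem_ball, dist_eq_norm, add_sub_cancel_left]; exact hη)
    rwa [add_sub_cancel_left] at this
  refine ⟨h1 ξ hξ, ?_⟩
  have h2 := Convex.norm_image_sub_le_of_norm_fderiv_le (𝕜 := ℝ)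
    (f := fun x => F x - fderiv ℝ F p x)
    (s := closedBall p ‖ξ‖) (C := C * ‖ξ‖) (x := p) (y := p + ξ)
    (fun x _ => (hdF x).sub (fderiv ℝ F p).differentiableAt)
    (fun x hx => by
      rw [fderiv_fun_sub (hdF x) (fderiv ℝ F p).differentiableAt, ContinuousLinearMap.fderiv]
      rw [mem_closedBall, dist_eq_norm] at hx
      have h3 := h1 (x - p) (hx.trans_lt hξ)
      rw [add_sub_cancel] at h3
      exact h3.trans (mul_le_mul_of_nonneg_left hx hC)) (convex_closedBall _ _)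
    (mem_closedBall_self (norm_nonneg _))
    (by rw [mem_closedBall, dist_eq_norm, add_sub_cancel_left])
  rw [add_sub_cancel_left, Real.norm_eq_abs] at h2
  have h3 : F (p + ξ) - fderiv ℝ F p (p + ξ) - (F p - fderiv ℝ F p p) =
      F (p + ξ) - fderiv ℝ F p ξ := by
    rw [map_add, hFp]; ring
  rw [h3] at h2
  calc _ ≤ C * ‖ξ‖ * ‖ξ‖ := h2
    _ = _ := by ring

theorem dr_R_iter {d : ℕ} (F : Eu d → ℝ) (hF : ContDiff ℝ 3 F) (p ξ : Eu d) (L : Eu d →L[ℝ] ℝ)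
    (n : ℕ) : ‖iteratedFDeriv ℝ (n + 2) (fun ξ => F (p + ξ) - L ξ) ξ‖ =
      ‖iteratedFDeriv ℝ (n + 2) F (p + ξ)‖ := by
  have hdF : ∀ x, DifferentiableAt ℝ F x := fun x => (hF.differentiable (by norm_num)) x
  have hdG : ∀ ξ, DifferentiableAt ℝ (fun ξ => F (p + ξ)) ξ := fun ξ =>
    (hdF (p + ξ)).comp ξ ((differentiableAt_const p).add differentiableAt_id)
  have h1 : fderiv ℝ (fun ξ => F (p + ξ) - L ξ) = fun ξ => fderiv ℝ (fun ξ => F (p + ξ)) ξ - L := by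
    funext x
    rw [fderiv_fun_sub (hdG x) L.differentiableAt, ContinuousLinearMap.fderiv]
  have h2 : fderiv ℝ (fderiv ℝ (fun ξ => F (p + ξ) - L ξ)) =
      fderiv ℝ (fderiv ℝ (fun ξ => F (p + ξ))) := by
    rw [h1]
    funext x
    rw [fderiv_sub_const]
  rw [← norm_iteratedFDeriv_fderiv, ← norm_iteratedFDeriv_fderiv, h2, norm_iteratedFDeriv_fderiv,
    norm_iteratedFDeriv_fderiv, iteratedFDeriv_comp_add_left]

theorem dr_holder {d : ℕ} (g : Eu d → ℝ) (hg : ContDiff ℝ 3 g) (M' : ℝ) (hM : 0 ≤ M')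
    (h2 : ∀ x, ‖iteratedFDeriv ℝ 2 g x‖ ≤ M') (h3 : ∀ x, ‖iteratedFDeriv ℝ 3 g x‖ ≤ M')
    (γ : NNReal) (hγ0 : 0 < γ) (hγ1 : γ < 1) :
    HolderWith ⟨2 * M', by positivity⟩ γ (iteratedFDeriv ℝ 2 g) := by
  have hlip : LipschitzWith ⟨M', hM⟩ (iteratedFDeriv ℝ 2 g) := by
    refine lipschitzWith_of_nnnorm_fderiv_le
      (hg.differentiable_iteratedFDeriv (m := 2) (by norm_num)) fun x => ?_
    have h4 := h3 x
    rw [← norm_fderiv_iteratedFDeriv] at h4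
    exact h4
  have hdist : ∀ x y, dist (iteratedFDeriv ℝ 2 g x) (iteratedFDeriv ℝ 2 g y) ≤
      (2 * M') * dist x y ^ (γ : ℝ) := by
    intro x y
    have hγ0' : (0 : ℝ) < γ := by exact_mod_cast hγ0
    have hγ1' : (γ : ℝ) < 1 := by exact_mod_cast hγ1
    rcases le_or_gt (dist x y) 1 with h4 | h4
    · have h5 := hlip.dist_le_mul x y
      have h6 : dist x y ≤ dist x y ^ (γ : ℝ) := by
        rcases (dist_nonneg (x := x) (y := y)).eq_or_lt with h7 | h7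
        · rw [← h7, Real.zero_rpow hγ0'.ne']
        · have := Real.rpow_le_rpow_of_exponent_ge h7 h4 hγ1'.le
          rwa [Real.rpow_one] at this
      calc _ ≤ M' * dist x y := h5
        _ ≤ M' * dist x y ^ (γ : ℝ) := mul_le_mul_of_nonneg_left h6 hM
        _ ≤ (2 * M') * dist x y ^ (γ : ℝ) := by
          refine mul_le_mul_of_nonneg_right (by linarith) (Real.rpow_nonneg dist_nonneg _)
    · have h5 : dist (iteratedFDeriv ℝ 2 g x) (iteratedFDeriv ℝ 2 g y) ≤ 2 * M' := by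
        rw [dist_eq_norm]
        refine (norm_sub_le _ _).trans ?_
        linarith [h2 x, h2 y]
      have h6 : 1 ≤ dist x y ^ (γ : ℝ) := Real.one_le_rpow h4.le hγ0'.le
      calc _ ≤ (2 * M') * 1 := by linarith
        _ ≤ _ := mul_le_mul_of_nonneg_left h6 (by positivity)
  intro x y
  have hγ0' : (0 : ℝ) ≤ γ := γ.2
  rw [edist_dist, edist_dist, ENNReal.ofReal_rpow_of_nonneg dist_nonneg hγ0']
  have hK0 : 0 ≤ 2 * M' := by positivity
  set K : NNReal := ⟨2 * M', hK0⟩ with hK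
  have h4 : (K : ENNReal) = ENNReal.ofReal (2 * M') := by
    have h5 : (K : ℝ) = 2 * M' := rfl
    rw [← h5, ENNReal.ofReal_coe_nnreal]
  rw [h4, ← ENNReal.ofReal_mul (by positivity)]
  exact ENNReal.ofReal_le_ofReal (hdist x y)

/-- the scaled cut off function -/
theorem dr_cut (d : ℕ) : ∃ B : ℝ, 0 ≤ B ∧ ∀ r : ℝ, 0 < r → ∃ χ : Eu d → ℝ, ∃ B' : ℝ, 0 ≤ B' ∧
    ContDiff ℝ 3 χ ∧ (∀ x, |χ x| ≤ 1) ∧ (∀ x, ‖fderiv ℝ χ x‖ ≤ B / r) ∧
    (∀ x, ‖x‖ < r → χ x = 1) ∧ (∀ n ≤ 3, ∀ x, ‖iteratedFDeriv ℝ n χ x‖ ≤ B') ∧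
    (∀ x, 2 * r < ‖x‖ → ∀ n, iteratedFDeriv ℝ n χ x = 0) := by
  let chi : ContDiffBump (0 : Eu d) := ⟨1, 2, one_pos, one_lt_two⟩
  have hchi3 : ContDiff ℝ 3 chi := by exact_mod_cast (chi.contDiff (n := 3))
  obtain ⟨B, hB⟩ := (chi.hasCompactSupport.fderiv (𝕜 := ℝ)).exists_bound_of_continuous
    (hchi3.continuous_fderiv (by norm_num))
  have hB0 : 0 ≤ B := (norm_nonneg _).trans (hB 0)
  refine ⟨B, hB0, fun r hr => ?_⟩
  set χ : Eu d → ℝ := fun ξ => chi (r⁻¹ • ξ) with hχ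
  have hc3 : ContDiff ℝ 3 χ := hchi3.comp (contDiff_const_smul r⁻¹)
  have hnorm : ∀ x : Eu d, ‖r⁻¹ • x‖ = r⁻¹ * ‖x‖ := by
    intro x
    rw [norm_smul, Real.norm_of_nonneg (by positivity)]
  have hsupp : Function.support χ ⊆ closedBall 0 (2 * r) := by
    intro x hx
    rw [mem_closedBall, dist_zero_right]
    by_contra hcon
    push Not at hcon
    apply hx
    show chi (r⁻¹ • x) = 0
    apply chi.zero_of_le_dist
    show 2 ≤ dist (r⁻¹ • x) 0
    rw [dist_zero_right, hnorm, ← div_eq_inv_mul, le_div_iff₀ hr]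
    exact hcon.le
  have htsupp : tsupport χ ⊆ closedBall 0 (2 * r) := closure_minimal hsupp isClosed_closedBall
  have hcs : HasCompactSupport χ :=
    HasCompactSupport.of_support_subset_isCompact (isCompact_closedBall 0 (2 * r)) hsupp
  have hbk : ∀ k : ℕ, k ≤ 3 → ∃ b : ℝ, ∀ x, ‖iteratedFDeriv ℝ k χ x‖ ≤ b := by
    intro k hk
    refine (hcs.iteratedFDeriv k).exists_bound_of_continuous ?_
    exact hc3.continuous_iteratedFDeriv (by exact_mod_cast hk)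
  obtain ⟨b0, hb0⟩ := hbk 0 (by norm_num)
  obtain ⟨b1, hb1⟩ := hbk 1 (by norm_num)
  obtain ⟨b2, hb2⟩ := hbk 2 (by norm_num)
  obtain ⟨b3, hb3⟩ := hbk 3 (by norm_num)
  have p0 := (norm_nonneg _).trans (hb0 0)
  have p1 := (norm_nonneg _).trans (hb1 0)
  have p2 := (norm_nonneg _).trans (hb2 0)
  have p3 := (norm_nonneg _).trans (hb3 0)
  refine ⟨χ, b0 + b1 + b2 + b3, by linarith, hc3, ?_, ?_, ?_, ?_, ?_⟩
  · intro x
    rw [abs_le]
    exact ⟨by linarith [chi.nonneg (x := r⁻¹ • x)], chi.le_one⟩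
  · intro x
    have h1 : HasFDerivAt χ ((fderiv ℝ chi (r⁻¹ • x)).comp
        (r⁻¹ • ContinuousLinearMap.id ℝ (Eu d))) x := by
      have h2 : HasFDerivAt (fun y : Eu d => r⁻¹ • y) (r⁻¹ • ContinuousLinearMap.id ℝ (Eu d)) x :=
        (hasFDerivAt_id x).const_smul r⁻¹
      have h3 : HasFDerivAt chi (fderiv ℝ chi (r⁻¹ • x)) (r⁻¹ • x) :=
        (hchi3.differentiable (by norm_num) _).hasFDerivAt
      exact h3.comp x h2
    rw [h1.fderiv]
    refine (ContinuousLinearMap.opNorm_comp_le _ _).trans ?_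
    have h4 : ‖r⁻¹ • ContinuousLinearMap.id ℝ (Eu d)‖ ≤ r⁻¹ := by
      rw [norm_smul, Real.norm_of_nonneg (by positivity)]
      exact mul_le_of_le_one_right (by positivity) ContinuousLinearMap.norm_id_le
    calc _ ≤ B * r⁻¹ := mul_le_mul (hB _) h4 (norm_nonneg _) hB0
      _ = B / r := by rw [div_eq_mul_inv]
  · intro x hx
    apply chi.one_of_mem_closedBall
    rw [mem_closedBall, dist_zero_right, hnorm]
    show r⁻¹ * ‖x‖ ≤ 1
    rw [← div_eq_inv_mul, div_le_one hr]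
    exact hx.le
  · intro n hn x
    interval_cases n
    · linarith [hb0 x]
    · linarith [hb1 x]
    · linarith [hb2 x]
    · linarith [hb3 x]
  · intro x hx n
    by_contra hcon
    have h1 := support_iteratedFDeriv_subset (𝕜 := ℝ) (f := χ) n hcon
    have h2 := htsupp h1
    rw [mem_closedBall, dist_zero_right] at h2
    linarith

/-- TARGET 1. A sublevel set of a function with bounded derivatives and nondegenerate gradient has
a uniformly smooth boundary. -/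
theorem unif_graph {d : ℕ} (F : Eu d → ℝ) (hF : ContDiff ℝ 3 F) (c C : ℝ) (hc : 0 < c)
    (hgrad : ∀ p, F p = 0 → c ≤ ‖fderiv ℝ F p‖)
    (hbd : ∀ p, F p = 0 → ∀ x ∈ ball p 1, ‖fderiv ℝ F x‖ ≤ C ∧ ‖iteratedFDeriv ℝ 2 F x‖ ≤ C ∧
      ‖iteratedFDeriv ℝ 3 F x‖ ≤ C) (γ : NNReal) (hγ0 : 0 < γ) (hγ1 : γ < 1) :
    ∃ r : ℝ, 0 < r ∧ ∃ M : NNReal, ∀ p, F p = 0 →
      ∃ ν : Eu d, ‖ν‖ = 1 ∧ ∃ g : Eu d → ℝ, ContDiff ℝ 2 g ∧
        (∀ x, abs (g x) ≤ (M : ℝ) ∧ ‖fderiv ℝ g x‖ ≤ (M : ℝ) ∧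
          ‖iteratedFDeriv ℝ 2 g x‖ ≤ (M : ℝ)) ∧
        HolderWith M γ (iteratedFDeriv ℝ 2 g) ∧
        ∀ q ∈ ball p r,
          (F q < 0 ↔ g (q - p - (inner ℝ (q - p) ν) • ν) < inner ℝ (q - p) ν) := by
  obtain ⟨B, hB0, hcut⟩ := dr_cut d
  set C1 := max C 1 with hC1
  have hC1pos : 0 < C1 := lt_of_lt_of_le one_pos (le_max_right _ _)
  have hCC1 : C ≤ C1 := le_max_left _ _
  set r := min (1 / 4) (c / (2 * ((4 * B + 2) * C1))) with hr
  have hden : 0 < 2 * ((4 * B + 2) * C1) := by positivity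
  have hr0 : 0 < r := lt_min (by norm_num) (by positivity)
  have hr4 : r ≤ 1 / 4 := min_le_left _ _
  have hrc : (4 * B + 2) * C1 * r ≤ c / 2 := by
    have h1 : r ≤ c / (2 * ((4 * B + 2) * C1)) := min_le_right _ _
    rw [le_div_iff₀ hden] at h1
    linarith
  obtain ⟨χ, B', hB'0, hχ3, hχ1, hχd, hχone, hχn, hχout⟩ := hcut r hr0
  set C' := c⁻¹ * (8 * B' * C1) with hC'
  obtain ⟨M', hM'0, hM'⟩ := graph_fixed (d := d) C'
  refine ⟨r, hr0, ⟨2 * M', by positivity⟩, fun p hp => ?_⟩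
  set L := fderiv ℝ F p with hL
  have hLc : c ≤ ‖L‖ := hgrad p hp
  have hLpos : 0 < ‖L‖ := lt_of_lt_of_le hc hLc
  set m := (InnerProductSpace.toDual ℝ (Eu d)).symm L with hm
  have hmn : ‖m‖ = ‖L‖ := by rw [hm]; exact LinearIsometryEquiv.norm_map _ _
  have hLm : ∀ ξ, L ξ = inner ℝ m ξ := fun ξ => (InnerProductSpace.toDual_symm_apply).symm
  set ν : Eu d := (-‖L‖⁻¹) • m with hν
  have hν1 : ‖ν‖ = 1 := by
    rw [hν, norm_smul, norm_neg, norm_inv, norm_norm, hmn, inv_mul_cancel₀ hLpos.ne']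
  have hLν : ∀ ξ, L ξ = -(‖L‖ * inner ℝ ξ ν) := by
    intro ξ
    rw [hν, inner_smul_right, real_inner_comm, ← hLm]
    field_simp
  set R : Eu d → ℝ := fun ξ => F (p + ξ) - L ξ with hR
  have hR3 : ContDiff ℝ 3 R := (hF.comp (contDiff_const.add contDiff_id)).sub L.contDiff
  have hmv := fun ξ hξ => dr_mv F hF C1 p hp (fun x hx => (hbd p hp x hx).2.1.trans hCC1) ξ hξ
  have hdF : ∀ x, DifferentiableAt ℝ F x := fun x => (hF.differentiable (by norm_num)) x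
  have hRd : ∀ ξ, fderiv ℝ R ξ = fderiv ℝ F (p + ξ) - L := by
    intro ξ
    have h1 : DifferentiableAt ℝ (fun ξ => F (p + ξ)) ξ :=
      (hdF (p + ξ)).comp ξ ((differentiableAt_const p).add differentiableAt_id)
    rw [hR, fderiv_fun_sub h1 L.differentiableAt, ContinuousLinearMap.fderiv, fderiv_comp_add_left]
  have hRb : ∀ ξ : Eu d, ‖ξ‖ ≤ 2 * r → ∀ k ≤ 3, ‖iteratedFDeriv ℝ k R ξ‖ ≤ C1 := by
    intro ξ hξ k hk
    have hξ1 : ‖ξ‖ < 1 := by linarith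
    have hin : p + ξ ∈ ball p 1 := by
      rw [mem_ball, dist_eq_norm, add_sub_cancel_left]; exact hξ1
    have hξ0 := norm_nonneg ξ
    interval_cases k
    · rw [norm_iteratedFDeriv_zero, Real.norm_eq_abs]
      refine (hmv ξ hξ1).2.trans ?_
      have : ‖ξ‖ ^ 2 ≤ 1 := by nlinarith
      nlinarith
    · rw [norm_iteratedFDeriv_one, hRd]
      refine (hmv ξ hξ1).1.trans ?_
      nlinarith
    · rw [hR, dr_R_iter F hF p ξ L 0]
      exact (hbd p hp _ hin).2.1.trans hCC1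
    · rw [hR, dr_R_iter F hF p ξ L 1]
      exact (hbd p hp _ hin).2.2.trans hCC1
  set rr : Eu d → ℝ := ‖L‖⁻¹ • (fun ξ => χ ξ * R ξ) with hrr
  have hprod3 : ContDiff ℝ 3 (fun ξ => χ ξ * R ξ) := hχ3.mul hR3
  have hrr3 : ContDiff ℝ 3 rr := by
    have h0 : ContDiff ℝ 3 (fun y => ‖L‖⁻¹ • (χ y * R y)) := hprod3.const_smul _
    exact h0
  have hinv : ‖L‖⁻¹ ≤ c⁻¹ := inv_anti₀ hc hLc
  have hrrn : ∀ n : ℕ, n ≤ 3 → ∀ x, ‖iteratedFDeriv ℝ n rr x‖ =
      ‖L‖⁻¹ * ‖iteratedFDeriv ℝ n (fun ξ => χ ξ * R ξ) x‖ := by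
    intro n hn x
    rw [hrr, iteratedFDeriv_const_smul_apply ((hprod3.of_le (by exact_mod_cast hn)).contDiffAt),
      norm_smul, Real.norm_of_nonneg (by positivity)]
  have hprodn : ∀ n : ℕ, n ≤ 3 → ∀ x, ‖iteratedFDeriv ℝ n (fun ξ => χ ξ * R ξ) x‖ ≤
      8 * B' * C1 := by
    intro n hn x
    have h1 := norm_iteratedFDeriv_mul_le (𝕜 := ℝ) (N := 3) hχ3 hR3 x (n := n) (by exact_mod_cast hn)
    refine h1.trans ?_
    rcases le_or_gt ‖x‖ (2 * r) with h2 | h2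
    · have h3 : ∑ i ∈ Finset.range (n + 1), (n.choose i : ℝ) * ‖iteratedFDeriv ℝ i χ x‖ *
          ‖iteratedFDeriv ℝ (n - i) R x‖ ≤ ∑ i ∈ Finset.range (n + 1), (n.choose i : ℝ) * (B' * C1) := by
        refine Finset.sum_le_sum fun i hi => ?_
        have hi' := Finset.mem_range.mp hi
        rw [mul_assoc]
        refine mul_le_mul_of_nonneg_left ?_ (Nat.cast_nonneg _)
        exact mul_le_mul (hχn i (by omega) x) (hRb x h2 (n - i) (by omega)) (norm_nonneg _) hB'0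
      refine h3.trans ?_
      rw [← Finset.sum_mul]
      have h4 : ∑ i ∈ Finset.range (n + 1), (n.choose i : ℝ) = 2 ^ n := by
        exact_mod_cast Nat.sum_range_choose n
      rw [h4]
      have h5 : (2 : ℝ) ^ n ≤ 2 ^ 3 := pow_le_pow_right₀ (by norm_num) hn
      have h6 : 0 ≤ B' * C1 := by positivity
      nlinarith
    · have h3 : ∑ i ∈ Finset.range (n + 1), (n.choose i : ℝ) * ‖iteratedFDeriv ℝ i χ x‖ *
          ‖iteratedFDeriv ℝ (n - i) R x‖ = 0 := by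
        refine Finset.sum_eq_zero fun i _ => ?_
        rw [hχout x h2 i, norm_zero, mul_zero, zero_mul]
      rw [h3]
      positivity
  have hrrb : ∀ n : ℕ, n ≤ 3 → ∀ x, ‖iteratedFDeriv ℝ n rr x‖ ≤ C' := by
    intro n hn x
    rw [hrrn n hn x, hC']
    exact mul_le_mul hinv (hprodn n hn x) (norm_nonneg _) (by positivity)
  have hrr1 : ∀ x, ‖fderiv ℝ rr x‖ ≤ 1 / 2 := by
    intro x
    rw [← norm_iteratedFDeriv_one, hrrn 1 (by norm_num) x]
    have h1 := norm_iteratedFDeriv_mul_le (𝕜 := ℝ) (N := 3) hχ3 hR3 x (n := 1) (by norm_num)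
    rw [Finset.sum_range_succ, Finset.sum_range_one] at h1
    simp only [Nat.choose_zero_right, Nat.choose_self, Nat.cast_one, one_mul, Nat.sub_zero,
      norm_iteratedFDeriv_zero, norm_iteratedFDeriv_one] at h1
    rw [show (1 - 1 : ℕ) = 0 from rfl, norm_iteratedFDeriv_zero] at h1
    have h2 : ‖iteratedFDeriv ℝ 1 (fun ξ => χ ξ * R ξ) x‖ ≤ c / 2 := by
      rw [norm_iteratedFDeriv_one]
      refine h1.trans ?_
      rcases le_or_gt ‖x‖ (2 * r) with h2 | h2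
      · have hx1 : ‖x‖ < 1 := by linarith
        have e1 : ‖χ x‖ ≤ 1 := hχ1 x
        have e2 : ‖fderiv ℝ R x‖ ≤ C1 * (2 * r) := by
          rw [hRd]
          exact (hmv x hx1).1.trans (mul_le_mul_of_nonneg_left h2 hC1pos.le)
        have e3 : ‖R x‖ ≤ C1 * (2 * r) ^ 2 := by
          rw [Real.norm_eq_abs]
          exact (hmv x hx1).2.trans (mul_le_mul_of_nonneg_left
            (pow_le_pow_left₀ (norm_nonneg _) h2 2) hC1pos.le)
        have e4 : ‖χ x‖ * ‖fderiv ℝ R x‖ ≤ 1 * (C1 * (2 * r)) :=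
          mul_le_mul e1 e2 (norm_nonneg _) zero_le_one
        have e5 : ‖fderiv ℝ χ x‖ * ‖R x‖ ≤ (B / r) * (C1 * (2 * r) ^ 2) :=
          mul_le_mul (hχd x) e3 (norm_nonneg _) (by positivity)
        have e6 : (B / r) * (C1 * (2 * r) ^ 2) = 4 * B * C1 * r := by
          field_simp
          ring
        rw [e6] at e5
        linarith
      · have e1 : ‖χ x‖ = 0 := by
          rw [← norm_iteratedFDeriv_zero (𝕜 := ℝ), hχout x h2 0, norm_zero]
        have e2 : ‖fderiv ℝ χ x‖ = 0 := by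
          rw [← norm_iteratedFDeriv_one, hχout x h2 1, norm_zero]
        rw [e1, e2, zero_mul, zero_mul, add_zero]
        positivity
    calc ‖L‖⁻¹ * ‖iteratedFDeriv ℝ 1 (fun ξ => χ ξ * R ξ) x‖ ≤ c⁻¹ * (c / 2) :=
          mul_le_mul hinv h2 (norm_nonneg _) (by positivity)
      _ = 1 / 2 := by field_simp
  obtain ⟨g, hg3, hg0, hg1, hg2, hg3b, hgiff⟩ := hM' rr ν hν1 hrr3
    (fun x => by
      have := hrrb 0 (by norm_num) x
      rwa [norm_iteratedFDeriv_zero, Real.norm_eq_abs] at this) hrr1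
    (fun x => hrrb 2 (by norm_num) x) (fun x => hrrb 3 (by norm_num) x)
  refine ⟨ν, hν1, g, hg3.of_le (by norm_num), ?_, dr_holder g hg3 M' hM'0 hg2 hg3b γ hγ0 hγ1, ?_⟩
  · intro x
    show |g x| ≤ 2 * M' ∧ ‖fderiv ℝ g x‖ ≤ 2 * M' ∧ ‖iteratedFDeriv ℝ 2 g x‖ ≤ 2 * M'
    refine ⟨?_, ?_, ?_⟩
    · linarith [hg0 x]
    · linarith [hg1 x]
    · linarith [hg2 x]
  · intro q hq
    set ξ := q - p with hξ
    have hξr : ‖ξ‖ < r := by
      rw [mem_ball, dist_eq_norm] at hq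
      exact hq
    have hqp : q = p + ξ := by rw [hξ, add_sub_cancel]
    rw [← hgiff ξ]
    have h1 : rr ξ = ‖L‖⁻¹ * R ξ := by
      rw [hrr]
      show ‖L‖⁻¹ • (χ ξ * R ξ) = _
      rw [hχone ξ hξr, one_mul, smul_eq_mul]
    have h2 : F q = R ξ - ‖L‖ * inner ℝ ξ ν := by
      have := hLν ξ
      rw [hqp]
      show F (p + ξ) = (F (p + ξ) - L ξ) - ‖L‖ * inner ℝ ξ ν
      linarith
    rw [h1, h2, ← div_eq_inv_mul, div_lt_iff₀ hLpos]
    constructor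
    · intro h; linarith
    · intro h; linarith

/-- TARGET 2. Exterior ball. -/
theorem ext_ball {d : ℕ} (F : Eu d → ℝ) (hF : ContDiff ℝ 3 F) (c C : ℝ) (hc : 0 < c)
    (hgrad : ∀ p, F p = 0 → c ≤ ‖fderiv ℝ F p‖)
    (hbd : ∀ p, F p = 0 → ∀ x ∈ ball p 1, ‖fderiv ℝ F x‖ ≤ C ∧ ‖iteratedFDeriv ℝ 2 F x‖ ≤ C ∧
      ‖iteratedFDeriv ℝ 3 F x‖ ≤ C) :
    ∀ p, F p = 0 → ∃ r0 > 0, ∃ c', dist p c' = r0 ∧ ∀ x ∈ ball c' r0, 0 < F x := by
  intro p hp
  set C1 := max C 1 with hC1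
  have hC1pos : 0 < C1 := lt_of_lt_of_le one_pos (le_max_right _ _)
  have hCC1 : C ≤ C1 := le_max_left _ _
  set L := fderiv ℝ F p with hL
  have hLc : c ≤ ‖L‖ := hgrad p hp
  have hLpos : 0 < ‖L‖ := lt_of_lt_of_le hc hLc
  set m := (InnerProductSpace.toDual ℝ (Eu d)).symm L with hm
  have hmn : ‖m‖ = ‖L‖ := by rw [hm]; exact LinearIsometryEquiv.norm_map _ _
  have hLm : ∀ ξ, L ξ = inner ℝ m ξ := fun ξ => (InnerProductSpace.toDual_symm_apply).symm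
  set n : Eu d := ‖L‖⁻¹ • m with hn
  have hn1 : ‖n‖ = 1 := by
    rw [hn, norm_smul, norm_inv, norm_norm, hmn, inv_mul_cancel₀ hLpos.ne']
  have hLn : ∀ ξ, L ξ = ‖L‖ * inner ℝ ξ n := by
    intro ξ
    rw [hn, inner_smul_right, real_inner_comm, ← hLm]
    field_simp
  set r0 := min (1 / 2) (c / (2 * C1)) with hr0
  have hr0pos : 0 < r0 := lt_min (by norm_num) (by positivity)
  have hr02 : r0 ≤ 1 / 2 := min_le_left _ _
  have hr0c : 2 * C1 * r0 ≤ c := by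
    have h1 : r0 ≤ c / (2 * C1) := min_le_right _ _
    rw [le_div_iff₀ (by positivity)] at h1
    linarith
  refine ⟨r0, hr0pos, p + r0 • n, ?_, ?_⟩
  · rw [dist_eq_norm, sub_add_cancel_left, norm_neg, norm_smul, hn1, mul_one,
      Real.norm_of_nonneg hr0pos.le]
  · intro x hx
    set ξ := x - p with hξ
    have hxp : x = p + ξ := by rw [hξ, add_sub_cancel]
    have h1 : ‖ξ - r0 • n‖ < r0 := by
      rw [mem_ball, dist_eq_norm] at hx
      have : x - (p + r0 • n) = ξ - r0 • n := by rw [hξ]; abel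
      rwa [this] at hx
    have h2 : ‖ξ‖ ^ 2 < 2 * r0 * inner ℝ ξ n := by
      have h3 : ‖ξ - r0 • n‖ ^ 2 < r0 ^ 2 := pow_lt_pow_left₀ h1 (norm_nonneg _) two_ne_zero
      rw [@norm_sub_sq_real, inner_smul_right, norm_smul, hn1, mul_one,
        Real.norm_of_nonneg hr0pos.le] at h3
      linarith
    have h3 : ‖ξ‖ < 1 := by
      calc ‖ξ‖ = ‖(ξ - r0 • n) + r0 • n‖ := by rw [sub_add_cancel]
        _ ≤ ‖ξ - r0 • n‖ + ‖r0 • n‖ := norm_add_le _ _
        _ < r0 + r0 := by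
          have : ‖r0 • n‖ = r0 := by
            rw [norm_smul, hn1, mul_one, Real.norm_of_nonneg hr0pos.le]
          linarith
        _ ≤ 1 := by linarith
    have h4 := (dr_mv F hF C1 p hp (fun x hx => (hbd p hp x hx).2.1.trans hCC1) ξ h3).2
    rw [abs_le] at h4
    have h5 := hLn ξ
    rw [hxp]
    have h6 : C1 * ‖ξ‖ ^ 2 < C1 * (2 * r0 * inner ℝ ξ n) := mul_lt_mul_of_pos_left h2 hC1pos
    have h7 : 0 < inner ℝ ξ n := by
      have h8 : 0 ≤ ‖ξ‖ ^ 2 := sq_nonneg _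
      by_contra hcon
      push Not at hcon
      nlinarith
    have h9 : 2 * C1 * r0 * inner ℝ ξ n ≤ ‖L‖ * inner ℝ ξ n :=
      mul_le_mul_of_nonneg_right (hr0c.trans hLc) h7.le
    have h10 := h4.1
    have h11 : fderiv ℝ F p ξ = ‖L‖ * inner ℝ ξ n := h5
    rw [h11] at h10
    linarith

end Pool.Agent.H314.Dir
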